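import Pool.Agent.LGP.WAll

/-!
# Decorated handles: the vector theorem

Helper35, for MP_0707f5_ag.
-/

set_option autoImplicit false

namespace Pool.Agent.LGP

open Module
open SpQ (Hd WStep WReach WExt Good bare)

variable {K U Γ : Type} [Field K] [AddCommGroup U] [Module K U] [Group Γ] {k : ℕ}

/-- the span of `w` and of the images of `w` under the first components of weight `-1` -/
def WSp (R : Γ →* Module.End K U) (w : U) (P : List (Hd Γ k)) : Submodule K U :=
  Submodule.span K (insert w ((fun x => R x w) '' SpQ.fc P (-1)))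

variable {R : Γ →* Module.End K U} {w : U}

theorem self_mem_WSp (P : List (Hd Γ k)) : w ∈ WSp R w P :=
  Submodule.subset_span (Set.mem_insert _ _)

theorem WSp_mono {P P' : List (Hd Γ k)} (h : WExt P' P) : WSp R w P ≤ WSp R w P' :=
  Submodule.span_mono (Set.insert_subset_insert (Set.image_mono (SpQ.fc_mono h (-1))))

theorem WSp_le_cyc (P : List (Hd Γ k)) : WSp R w P ≤ cyc R w (SpQ.E P) := by
  unfold WSp
  rw [Submodule.span_le]
  rintro u (rfl | ⟨x, hx, rfl⟩)
  · exact self_mem_cyc _ _ _
  · exact Submodule.subset_span ⟨x, SpQ.fc_sub hx, rfl⟩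

theorem wvec [FiniteDimensional K U] (R : Γ →* Module.End K U) (w : U) (L : List (Hd Γ k))
    (hgood : ∀ h ∈ L, Good h) (hlen : 2 * finrank K (cyc R w (SpQ.E L)) ≤ L.length + 2)
    (T : U →ₗ[K] K) (h0 : T w = 0) (hT : ∀ x ∈ SpQ.fc L (-1), T (R x w) = 0) :
    ∀ x ∈ SpQ.E L, T (R x w) = 0 := by
  by_cases hw : w = 0
  · intro x _
    rw [hw, map_zero, map_zero]
  -- the functional vanishes on the spans
  have hSp : ∀ P : List (Hd Γ k), WExt L P → ∀ u ∈ WSp R w P, T u = 0 := by
    intro P hP u hu
    have hu' : u ∈ Submodule.span K (insert w ((fun x => R x w) '' SpQ.fc P (-1))) := hu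
    refine Submodule.span_induction (p := fun u _ => T u = 0) ?_ ?_ ?_ ?_ hu'
    · rintro u (rfl | ⟨x, hx, rfl⟩)
      · exact h0
      · exact hT x (SpQ.fc_mono hP _ hx)
    · exact map_zero T
    · intro a b _ _ ha hb
      rw [map_add, ha, hb, add_zero]
    · intro c a _ ha
      rw [map_smul, ha, smul_zero]
  have main : ∀ m : ℕ, m < finrank K (cyc R w (SpQ.E L)) → (∀ x ∈ SpQ.E L, T (R x w) = 0) ∨
      ∃ P B : List (Hd Γ k), WReach L (B ++ P) ∧ (∀ h ∈ B, Good h) ∧ P.length = m ∧
        cyc R w (SpQ.E B) = cyc R w (SpQ.E L) ∧ m + 1 ≤ finrank K (WSp R w P) := by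
    intro m
    induction m with
    | zero =>
      intro _
      right
      refine ⟨[], L, by simpa using WReach.refl L, hgood, rfl, rfl, ?_⟩
      have h1 : WSp R w ([] : List (Hd Γ k)) ≠ ⊥ := by
        intro h
        have := self_mem_WSp (R := R) (w := w) ([] : List (Hd Γ k))
        rw [h, Submodule.mem_bot] at this
        exact hw this
      have h2 := Submodule.one_le_finrank_iff.2 h1
      simpa using h2
    | succ m ih =>
      intro hm
      rcases ih (by omega) with hdone | ⟨P, B, hr, hBg, hPlen, hA, hdim⟩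
      · exact Or.inl hdone
      have hBlen : finrank K (cyc R w (SpQ.E B)) ≤ B.length := by
        have := hr.length_eq
        rw [List.length_append, hPlen] at this
        rw [hA]
        omega
      by_cases hst : ∃ (B' : List (Hd Γ k)) (p : Hd Γ k), WReach B (B' ++ [p]) ∧
          (∀ h ∈ B' ++ [p], Good h) ∧
          cyc R w (SpQ.E B') = cyc R w (SpQ.E B) ∧ WSp R w ([p] ++ P) ≠ WSp R w P
      · obtain ⟨B', p, h1, hg1, h2, h3⟩ := hst
        right
        refine ⟨[p] ++ P, B', ?_, fun h hh => hg1 h (by simp [hh]), by simp [hPlen], h2.trans hA, ?_⟩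
        · refine hr.trans ?_
          have := h1.right P
          simpa using this
        · have h4 : WSp R w P ≤ WSp R w ([p] ++ P) := WSp_mono (WExt.drop_left [p] P)
          have h5 := Submodule.finrank_lt_finrank_of_lt (lt_of_le_of_ne h4 (Ne.symm h3))
          omega
      · left
        push Not at hst
        have hspr : WSpr R w B (stb R (WSp R w P)) := by
          intro B' p h1 hg1 h2
          have h3 := hst B' p h1 hg1 h2
          have hstab : ∀ z ∈ SpQ.fc [p] (-1), z ∈ stb R (WSp R w P) := by
            intro z hz s hs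
            rw [← h3]
            have hs' : s ∈ Submodule.span K (insert w ((fun x => R x w) '' SpQ.fc P (-1))) := hs
            refine Submodule.span_induction (p := fun s _ => R z s ∈ WSp R w ([p] ++ P))
              ?_ ?_ ?_ ?_ hs'
            · rintro u (rfl | ⟨x, hx, rfl⟩)
              · exact Submodule.subset_span (Or.inr ⟨z,
                  SpQ.fc_mono (WExt.drop_right [p] P) _ hz, rfl⟩)
              · show R z (R x w) ∈ _
                rw [← Module.End.mul_apply, ← map_mul]
                have h4 := SpQ.fc_mul hz hx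
                have e : (-1 : ZMod k) + -1 + 1 = -1 := by ring
                rw [e] at h4
                exact Submodule.subset_span (Or.inr ⟨z * x, h4, rfl⟩)
            · rw [map_zero]
              exact Submodule.zero_mem _
            · intro a b _ _ ha hb
              rw [map_add]
              exact Submodule.add_mem _ ha hb
            · intro c a _ ha
              rw [map_smul]
              exact Submodule.smul_mem _ c ha
          have hgp : Good p := hg1 p (by simp)
          obtain ⟨⟨x, y⟩, o⟩ := p
          obtain rfl : o = (-1, 1) := hgp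
          rw [SpQ.E_singleton_le]
          refine ⟨hstab x ⟨y, 1, WExt.refl _⟩, ?_⟩
          have h4 : y⁻¹ ∈ stb R (WSp R w P) := hstab _ ⟨_, _, WExt.rot x y (-1) 1⟩
          exact inv_mem_iff.1 h4
        have hEB : SpQ.E B ≤ stb R (WSp R w P) := wall_mem hw hBg hBlen hspr
        have hc : cyc R w (SpQ.E L) ≤ WSp R w P := by
          rw [← hA]
          exact cyc_le (self_mem_WSp P) hEB
        intro x hx
        exact hSp P ⟨B, hr⟩ _ (hc (Submodule.subset_span ⟨x, hx, rfl⟩))
  have hpos : 0 < finrank K (cyc R w (SpQ.E L)) := by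
    have h1 : cyc R w (SpQ.E L) ≠ ⊥ := by
      intro h
      have := self_mem_cyc R w (SpQ.E L)
      rw [h, Submodule.mem_bot] at this
      exact hw this
    exact Submodule.one_le_finrank_iff.2 h1
  rcases main (finrank K (cyc R w (SpQ.E L)) - 1) (by omega) with h | ⟨P, B, hr, -, -, -, hdim⟩
  · exact h
  · have h1 : WSp R w P ≤ cyc R w (SpQ.E L) := by
      refine (WSp_le_cyc P).trans (cyc_mono _ _ ?_)
      rw [← hr.E_eq, SpQ.E_append]
      exact le_sup_right
    have h2 : WSp R w P = cyc R w (SpQ.E L) :=
      Submodule.eq_of_le_of_finrank_le h1 (by omega)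
    intro x hx
    refine hSp P ⟨B, hr⟩ _ ?_
    rw [h2]
    exact Submodule.subset_span ⟨x, hx, rfl⟩

theorem thm_Wvec : St_Wvec := by
  intro K U Γ _ _ _ _ _ k R w L hgood hlen T h0 hT
  exact wvec R w L hgood hlen T h0 hT

end Pool.Agent.LGP
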