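import Pool.Agent.LGP.Defs
import Pool.Agent.Helper12.ScBridge

/-!
# Reachable tuples are images of the standard tuple under mapping classes

Helper2, for MP_0707f5_ag (statement of helper35, `LGP.St_Aut`).
-/

set_option autoImplicit false

namespace Pool.Agent.LGP

open Matrix Module Helper12.Sc

/-- the image of a tuple under a homomorphism -/
def Aut_mp {Γ Δ : Type} [Group Γ] [Group Δ] (f : Γ →* Δ) (t : List (Γ × Γ) × List Γ) :
    List (Δ × Δ) × List Δ := (t.1.map (Prod.map f f), t.2.map f)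

theorem Aut_mp_id {Γ : Type} [Group Γ] (t : List (Γ × Γ) × List Γ) :
    Aut_mp (MonoidHom.id Γ) t = t := by
  have e2 : (Prod.map (MonoidHom.id Γ) (MonoidHom.id Γ)) = id := by
    funext x
    rfl
  have e3 : (⇑(MonoidHom.id Γ)) = id := rfl
  unfold Aut_mp
  rw [e2, e3, List.map_id, List.map_id]

theorem Aut_mp_comp {Γ Δ E : Type} [Group Γ] [Group Δ] [Group E] (f : Γ →* Δ) (h : Δ →* E)
    (t : List (Γ × Γ) × List Γ) : Aut_mp h (Aut_mp f t) = Aut_mp (h.comp f) t := by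
  unfold Aut_mp
  simp only [List.map_map]
  refine Prod.ext ?_ rfl
  apply List.map_congr_left
  rintro ⟨x, y⟩ _
  rfl

/-- naturality of the moves -/
theorem Mv.map {Γ Δ : Type} [Group Γ] [Group Δ] (f : Γ →* Δ) {t t' : List (Γ × Γ) × List Γ}
    (h : Mv t t') : Mv (Aut_mp f t) (Aut_mp f t') := by
  cases h with
  | st L L' M h => exact Mv.st _ _ _ (h.map f)
  | ab L a b y M =>
    simpa [Aut_mp] using Mv.ab (L.map (Prod.map f f)) (f a) (f b) (f y) (M.map f)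
  | ab' L a b y M =>
    simpa [Aut_mp] using Mv.ab' (L.map (Prod.map f f)) (f a) (f b) (f y) (M.map f)
  | sw L P S y z =>
    simpa [Aut_mp] using Mv.sw (L.map (Prod.map f f)) (P.map f) (S.map f) (f y) (f z)
  | sw' L P S y z =>
    simpa [Aut_mp] using Mv.sw' (L.map (Prod.map f f)) (P.map f) (S.map f) (f y) (f z)

/-- the moves are symmetric -/
theorem Mv.symm {Γ : Type} [Group Γ] {t t' : List (Γ × Γ) × List Γ} (h : Mv t t') : Mv t' t := by
  cases h with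
  | st L L' M h => exact Mv.st _ _ _ h.symm
  | ab L a b y M =>
    have := Mv.ab' L a (y⁻¹ * b) ((a * (y⁻¹ * b) * a⁻¹ * (y⁻¹ * b)⁻¹)⁻¹ * (a * y * a⁻¹) *
      (a * (y⁻¹ * b) * a⁻¹ * (y⁻¹ * b)⁻¹)) M
    have e1 : a⁻¹ * ((a * (y⁻¹ * b) * a⁻¹ * (y⁻¹ * b)⁻¹) *
        ((a * (y⁻¹ * b) * a⁻¹ * (y⁻¹ * b)⁻¹)⁻¹ * (a * y * a⁻¹) *
        (a * (y⁻¹ * b) * a⁻¹ * (y⁻¹ * b)⁻¹)) * (a * (y⁻¹ * b) * a⁻¹ * (y⁻¹ * b)⁻¹)⁻¹) * a = y := by
      group
    rw [e1] at this
    have e2 : y * (y⁻¹ * b) = b := by group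
    rw [e2] at this
    exact this
  | ab' L a b y M =>
    have := Mv.ab L a (a⁻¹ * ((a * b * a⁻¹ * b⁻¹) * y * (a * b * a⁻¹ * b⁻¹)⁻¹) * a * b)
      (a⁻¹ * ((a * b * a⁻¹ * b⁻¹) * y * (a * b * a⁻¹ * b⁻¹)⁻¹) * a) M
    have e2 : (a⁻¹ * ((a * b * a⁻¹ * b⁻¹) * y * (a * b * a⁻¹ * b⁻¹)⁻¹) * a)⁻¹ *
        (a⁻¹ * ((a * b * a⁻¹ * b⁻¹) * y * (a * b * a⁻¹ * b⁻¹)⁻¹) * a * b) = b := by group
    rw [e2] at this
    have e1 : (a * b * a⁻¹ * b⁻¹)⁻¹ * (a * (a⁻¹ * ((a * b * a⁻¹ * b⁻¹) * y *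
        (a * b * a⁻¹ * b⁻¹)⁻¹) * a) * a⁻¹) * (a * b * a⁻¹ * b⁻¹) = y := by
      group
    rw [e1] at this
    exact this
  | sw L P S y z =>
    have := Mv.sw' L P S z (z⁻¹ * y * z)
    have e1 : z * (z⁻¹ * y * z) * z⁻¹ = y := by group
    rw [e1] at this
    exact this
  | sw' L P S y z =>
    have := Mv.sw L P S (y * z * y⁻¹) y
    have e1 : y⁻¹ * (y * z * y⁻¹) * y = z := by group
    rw [e1] at this
    exact this

/-- the moves can be lifted -/
theorem Mv.lift {Γ Δ : Type} [Group Γ] [Group Δ] (f : Γ →* Δ) {s : List (Γ × Γ) × List Γ}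
    {t t' : List (Δ × Δ) × List Δ} (hs : Aut_mp f s = t) (h : Mv t t') :
    ∃ s', Mv s s' ∧ Aut_mp f s' = t' := by
  obtain ⟨A, B⟩ := s
  unfold Aut_mp at hs
  cases h with
  | st L L' M h =>
    simp only [Prod.mk.injEq] at hs
    obtain ⟨hs1, hs2⟩ := hs
    obtain ⟨S', h1, h2⟩ := Step.lift f hs1 h
    exact ⟨(S', B), Mv.st _ _ _ h1, Prod.ext h2 hs2⟩
  | ab L a b y M =>
    simp only [Prod.mk.injEq] at hs
    obtain ⟨hs1, hs2⟩ := hs
    obtain ⟨s₁, u, rfl, rfl, h⟩ := List.map_eq_append_iff.1 hs1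
    obtain ⟨⟨a', b'⟩, s₂, rfl, hp, h⟩ := List.map_eq_cons_iff.1 h
    obtain rfl := List.map_eq_nil_iff.1 h
    obtain ⟨y', s₃, rfl, rfl, rfl⟩ := List.map_eq_cons_iff.1 hs2
    simp only [Prod.map_apply, Prod.mk.injEq] at hp
    obtain ⟨rfl, rfl⟩ := hp
    exact ⟨_, Mv.ab s₁ a' b' y' s₃, by simp [Aut_mp]⟩
  | ab' L a b y M =>
    simp only [Prod.mk.injEq] at hs
    obtain ⟨hs1, hs2⟩ := hs
    obtain ⟨s₁, u, rfl, rfl, h⟩ := List.map_eq_append_iff.1 hs1
    obtain ⟨⟨a', b'⟩, s₂, rfl, hp, h⟩ := List.map_eq_cons_iff.1 h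
    obtain rfl := List.map_eq_nil_iff.1 h
    obtain ⟨y', s₃, rfl, rfl, rfl⟩ := List.map_eq_cons_iff.1 hs2
    simp only [Prod.map_apply, Prod.mk.injEq] at hp
    obtain ⟨rfl, rfl⟩ := hp
    exact ⟨_, Mv.ab' s₁ a' b' y' s₃, by simp [Aut_mp]⟩
  | sw L P S y z =>
    simp only [Prod.mk.injEq] at hs
    obtain ⟨rfl, hs2⟩ := hs
    obtain ⟨s₁, u, rfl, rfl, h⟩ := List.map_eq_append_iff.1 hs2
    obtain ⟨y', s₂, rfl, rfl, h1⟩ := List.map_eq_cons_iff.1 h
    obtain ⟨z', s₃, rfl, rfl, rfl⟩ := List.map_eq_cons_iff.1 h1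
    exact ⟨_, Mv.sw A s₁ s₃ y' z', by simp [Aut_mp]⟩
  | sw' L P S y z =>
    simp only [Prod.mk.injEq] at hs
    obtain ⟨rfl, hs2⟩ := hs
    obtain ⟨s₁, u, rfl, rfl, h⟩ := List.map_eq_append_iff.1 hs2
    obtain ⟨y', s₂, rfl, rfl, h1⟩ := List.map_eq_cons_iff.1 h
    obtain ⟨z', s₃, rfl, rfl, rfl⟩ := List.map_eq_cons_iff.1 h1
    exact ⟨_, Mv.sw' A s₁ s₃ y' z', by simp [Aut_mp]⟩

theorem Mv.length_eq {Γ : Type} [Group Γ] {t t' : List (Γ × Γ) × List Γ} (h : Mv t t') :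
    t'.1.length = t.1.length ∧ t'.2.length = t.2.length := by
  cases h with
  | st L L' M h => exact ⟨h.length_eq, rfl⟩
  | ab L a b y M => simp
  | ab' L a b y M => simp
  | sw L P S y z => simp
  | sw' L P S y z => simp

theorem Aut_comm_append {Γ : Type} [Group Γ] (L : List (Γ × Γ)) (a b : Γ) :
    Helper12.Sc.comm (L ++ [(a, b)]) = Helper12.Sc.comm L * (a * b * a⁻¹ * b⁻¹) := by
  simp [Helper12.Sc.comm]

theorem Mv.comm_eq {Γ : Type} [Group Γ] {t t' : List (Γ × Γ) × List Γ} (h : Mv t t') :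
    Helper12.Sc.comm t'.1 * t'.2.prod = Helper12.Sc.comm t.1 * t.2.prod := by
  cases h with
  | st L L' M h =>
    show Helper12.Sc.comm L' * M.prod = Helper12.Sc.comm L * M.prod
    rw [h.comm_eq]
  | ab L a b y M =>
    show Helper12.Sc.comm (L ++ [_]) * (_ :: M).prod = Helper12.Sc.comm (L ++ [_]) * (_ :: M).prod
    rw [Aut_comm_append, Aut_comm_append, List.prod_cons, List.prod_cons]
    group
  | ab' L a b y M =>
    show Helper12.Sc.comm (L ++ [_]) * (_ :: M).prod = Helper12.Sc.comm (L ++ [_]) * (_ :: M).prod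
    rw [Aut_comm_append, Aut_comm_append, List.prod_cons, List.prod_cons]
    group
  | sw L P S y z =>
    show Helper12.Sc.comm L * (P ++ _ :: _ :: S).prod = Helper12.Sc.comm L * (P ++ _ :: _ :: S).prod
    rw [List.prod_append, List.prod_append]
    simp only [List.prod_cons]
    group
  | sw' L P S y z =>
    show Helper12.Sc.comm L * (P ++ _ :: _ :: S).prod = Helper12.Sc.comm L * (P ++ _ :: _ :: S).prod
    rw [List.prod_append, List.prod_append]
    simp only [List.prod_cons]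
    group

/-- the new punctures are conjugate to old ones -/
theorem Mv.conj {Γ : Type} [Group Γ] {t t' : List (Γ × Γ) × List Γ} (h : Mv t t') :
    ∀ y ∈ t'.2, ∃ y' ∈ t.2, IsConj y y' := by
  cases h with
  | st L L' M h => exact fun y hy => ⟨y, hy, IsConj.refl y⟩
  | ab L a b y M =>
    intro x hx
    rcases List.mem_cons.1 hx with rfl | hx
    · refine ⟨y, List.mem_cons_self, ?_⟩
      rw [isConj_comm]
      rw [isConj_iff]
      exact ⟨(a * (y⁻¹ * b) * a⁻¹ * (y⁻¹ * b)⁻¹)⁻¹ * a, by group⟩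
    · exact ⟨x, List.mem_cons_of_mem _ hx, IsConj.refl x⟩
  | ab' L a b y M =>
    intro x hx
    rcases List.mem_cons.1 hx with rfl | hx
    · refine ⟨y, List.mem_cons_self, ?_⟩
      rw [isConj_comm]
      rw [isConj_iff]
      exact ⟨a⁻¹ * (a * b * a⁻¹ * b⁻¹), by group⟩
    · exact ⟨x, List.mem_cons_of_mem _ hx, IsConj.refl x⟩
  | sw L P S y z =>
    intro x hx
    rcases List.mem_append.1 hx with hx | hx
    · exact ⟨x, List.mem_append_left _ hx, IsConj.refl x⟩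
    · rcases List.mem_cons.1 hx with rfl | hx
      · exact ⟨x, by simp, IsConj.refl x⟩
      · rcases List.mem_cons.1 hx with rfl | hx
        · refine ⟨y, by simp, ?_⟩
          rw [isConj_comm]
          rw [isConj_iff]
          exact ⟨z⁻¹, by group⟩
        · exact ⟨x, by simp [hx], IsConj.refl x⟩
  | sw' L P S y z =>
    intro x hx
    rcases List.mem_append.1 hx with hx | hx
    · exact ⟨x, List.mem_append_left _ hx, IsConj.refl x⟩
    · rcases List.mem_cons.1 hx with rfl | hx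
      · refine ⟨z, by simp, ?_⟩
        rw [isConj_comm]
        rw [isConj_iff]
        exact ⟨y, by group⟩
      · rcases List.mem_cons.1 hx with rfl | hx
        · exact ⟨x, by simp, IsConj.refl x⟩
        · exact ⟨x, by simp [hx], IsConj.refl x⟩

theorem stdL_length (g n : ℕ) : (stdL g n).length = g := by simp [stdL]

theorem stdM_length (g n : ℕ) : (stdM g n).length = n := by simp [stdM]

/-- the standard tuple -/
def Aut_st (g n : ℕ) : List (F g n × F g n) × List (F g n) := (stdL g n, stdM g n)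

/-- every tuple of the right lengths is the image of the standard tuple -/
theorem Aut_exists_hom {g n : ℕ} {Γ : Type} [Group Γ] (L : List (Γ × Γ)) (M : List Γ)
    (hL : L.length = g) (hM : M.length = n) : ∃ ψ : F g n →* Γ, Aut_mp ψ (Aut_st g n) = (L, M) := by
  subst hL hM
  refine ⟨FreeGroup.lift (Sum.elim (fun p : Fin L.length × Bool =>
    if p.2 then (L.get p.1).2 else (L.get p.1).1) (fun j => M.get j)), ?_⟩
  unfold Aut_mp Aut_st
  refine Prod.ext ?_ ?_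
  · show (stdL L.length M.length).map _ = L
    unfold stdL
    rw [List.map_ofFn]
    conv_rhs => rw [← List.ofFn_get L]
    congr 1
    funext i
    simp only [Function.comp, Prod.map_apply, ga, gb, FreeGroup.lift_apply_of]
    rfl
  · show (stdM L.length M.length).map _ = M
    unfold stdM
    rw [List.map_ofFn]
    conv_rhs => rw [← List.ofFn_get M]
    congr 1
    funext i
    simp only [Function.comp, gx, FreeGroup.lift_apply_of]
    rfl

theorem Aut_hom_ext {g n : ℕ} {Γ : Type} [Group Γ] {ψ ψ' : F g n →* Γ}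
    (h : Aut_mp ψ (Aut_st g n) = Aut_mp ψ' (Aut_st g n)) : ψ = ψ' := by
  unfold Aut_mp Aut_st at h
  simp only [Prod.mk.injEq] at h
  obtain ⟨h1, h2⟩ := h
  unfold stdL at h1
  unfold stdM at h2
  rw [List.map_ofFn, List.map_ofFn] at h1 h2
  have h1' := List.ofFn_injective h1
  have h2' := List.ofFn_injective h2
  apply FreeGroup.ext_hom
  rintro (⟨i, c⟩ | j)
  · have hi := congrFun h1' i
    simp only [Function.comp, Prod.map_apply, Prod.mk.injEq] at hi
    cases c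
    · exact hi.1
    · exact hi.2
  · exact congrFun h2' j

/-- one half of the inverse of the endomorphism of a move -/
theorem Aut_right_inv {g n : ℕ} {s : List (F g n × F g n) × List (F g n)}
    (hs : Mv (Aut_st g n) s) {Ψ : F g n →* F g n} (hΨ : Aut_mp Ψ (Aut_st g n) = s) :
    ∃ Ψ' : F g n →* F g n, Mv (Aut_st g n) (Aut_mp Ψ' (Aut_st g n)) ∧ ∀ x, Ψ (Ψ' x) = x := by
  obtain ⟨s', hs', hm⟩ := Mv.lift Ψ hΨ hs.symm
  obtain ⟨Ψ', hΨ'⟩ := Aut_exists_hom (g := g) (n := n) s'.1 s'.2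
    (by rw [hs'.length_eq.1]; exact stdL_length g n)
    (by rw [hs'.length_eq.2]; exact stdM_length g n)
  have hΨ'' : Aut_mp Ψ' (Aut_st g n) = s' := hΨ'
  refine ⟨Ψ', by rw [hΨ'']; exact hs', ?_⟩
  have h1 : Ψ.comp Ψ' = MonoidHom.id _ := by
    apply Aut_hom_ext
    rw [← Aut_mp_comp, hΨ'', hm, Aut_mp_id]
  intro x
  exact DFunLike.congr_fun h1 x

/-- the move of the standard tuple comes from a mapping class which fixes `x_0` -/
theorem Aut_exists_aut {g n : ℕ} {s : List (F g n × F g n) × List (F g n)}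
    (hs : Mv (Aut_st g n) s) :
    ∃ Φ ∈ MC g n, Φ (x0 g n) = x0 g n ∧ Aut_mp Φ.toMonoidHom (Aut_st g n) = s := by
  obtain ⟨Ψ, hΨ⟩ := Aut_exists_hom (g := g) (n := n) s.1 s.2
    (by rw [hs.length_eq.1]; exact stdL_length g n)
    (by rw [hs.length_eq.2]; exact stdM_length g n)
  have hΨ0 : Aut_mp Ψ (Aut_st g n) = s := hΨ
  obtain ⟨Ψ', hΨ', h1⟩ := Aut_right_inv hs hΨ0
  obtain ⟨Ψ'', -, h2⟩ := Aut_right_inv hΨ' rfl
  have h3 : ∀ x, Ψ' (Ψ x) = x := by
    intro x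
    have e := h1 (Ψ'' x)
    rw [h2] at e
    rw [e, h2]
  have hx : Ψ (x0 g n) = x0 g n := by
    have hc : ∀ L : List (F g n × F g n), Helper12.Sc.comm (L.map (Prod.map Ψ Ψ)) =
        Ψ (Helper12.Sc.comm L) := by
      intro L
      unfold Helper12.Sc.comm
      rw [map_list_prod, List.map_map, List.map_map]
      congr 1
      apply List.map_congr_left
      rintro ⟨x, y⟩ _
      simp only [Function.comp, Prod.map_apply, map_mul, map_inv]
    have h4 := hs.comm_eq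
    rw [← hΨ0] at h4
    unfold Aut_mp Aut_st at h4
    simp only at h4
    rw [hc, ← map_list_prod, ← map_mul] at h4
    unfold x0
    rw [map_inv, h4]
  refine ⟨MulEquiv.mk' ⟨Ψ, Ψ', h3, h1⟩ (map_mul Ψ), ⟨?_, ?_⟩, hx, hΨ0⟩
  · show IsConj (Ψ (x0 g n)) (x0 g n)
    rw [hx]
  · intro j
    show ∃ j', IsConj (Ψ (gx j)) (gx j')
    have h5 : Ψ (gx j) ∈ s.2 := by
      rw [← hΨ0]
      unfold Aut_mp Aut_st
      apply List.mem_map_of_mem
      unfold stdM
      rw [List.mem_ofFn]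
      exact ⟨j, rfl⟩
    obtain ⟨y', hy', hc⟩ := hs.conj _ h5
    unfold Aut_st stdM at hy'
    rw [List.mem_ofFn] at hy'
    obtain ⟨j', rfl⟩ := hy'
    exact ⟨j', hc⟩

theorem MC_mul {g n : ℕ} {φ ψ : MulAut (F g n)} (hφ : φ ∈ MC g n) (hψ : ψ ∈ MC g n) :
    φ * ψ ∈ MC g n := by
  obtain ⟨h1, h2⟩ := hφ
  obtain ⟨h3, h4⟩ := hψ
  refine ⟨?_, ?_⟩
  · show IsConj (φ (ψ (x0 g n))) (x0 g n)
    exact (φ.toMonoidHom.map_isConj h3).trans h1
  · intro j
    obtain ⟨j', hj'⟩ := h4 j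
    obtain ⟨j'', hj''⟩ := h2 j'
    exact ⟨j'', (φ.toMonoidHom.map_isConj hj').trans hj''⟩

theorem MC_one {g n : ℕ} : (1 : MulAut (F g n)) ∈ MC g n :=
  ⟨IsConj.refl _, fun j => ⟨j, IsConj.refl _⟩⟩

theorem thm_Aut : St_Aut := by
  intro g n L M h
  have key : ∀ t : List (F g n × F g n) × List (F g n), MR (stdL g n, stdM g n) t →
      ∃ φ ∈ MC g n, φ (x0 g n) = x0 g n ∧ Aut_mp φ.toMonoidHom (Aut_st g n) = t := by
    intro t ht
    induction ht with
    | refl => exact ⟨1, MC_one, rfl, Aut_mp_id _⟩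
    | tail _ hs ih =>
      obtain ⟨φ, h1, h2, h3⟩ := ih
      rename_i b c _
      obtain ⟨s', hs', hm⟩ := Mv.lift φ.toMonoidHom h3 hs
      obtain ⟨Φ, h4, h5, h6⟩ := Aut_exists_aut hs'
      refine ⟨φ * Φ, MC_mul h1 h4, ?_, ?_⟩
      · show φ (Φ (x0 g n)) = x0 g n
        rw [h5, h2]
      · have e : (φ * Φ).toMonoidHom = φ.toMonoidHom.comp Φ.toMonoidHom := rfl
        rw [e, ← Aut_mp_comp, h6, hm]
  obtain ⟨φ, h1, h2, h3⟩ := key (L, M) h
  unfold Aut_mp Aut_st at h3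
  simp only [Prod.mk.injEq] at h3
  exact ⟨φ, h1, h2, h3.1, h3.2⟩

end Pool.Agent.LGP

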