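import Pool.Agent.LGP.WDefs

/-!
# Decorated handles: all handles lie in a subgroup if the spare ones do

Helper35, for MP_0707f5_ag.
-/

set_option autoImplicit false

namespace Pool.Agent.LGP

open Module
open SpQ (Hd WStep WReach WExt Good bare bd cj1)

variable {K U Γ : Type} [Field K] [AddCommGroup U] [Module K U] [Group Γ] {k : ℕ}

theorem En_bare (L : List (Hd Γ k)) : En (bare L) = SpQ.E L := by
  unfold En SpQ.E
  rw [SpQ.entries_bare]

theorem bare_cons (h : Hd Γ k) (L : List (Hd Γ k)) : bare (h :: L) = h.1 :: bare L := rfl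

theorem bare_nil : bare ([] : List (Hd Γ k)) = [] := rfl

/-- the handle `p` is not essential in `s ++ p :: t`, which is reachable from `B`, consists of good
handles and has the maximal number of essential handles -/
structure WGd (R : Γ →* Module.End K U) (w : U) (B s : List (Hd Γ k)) (p : Hd Γ k)
    (t : List (Hd Γ k)) : Prop where
  rch : WReach B (s ++ p :: t)
  good : ∀ h ∈ s ++ p :: t, Good h
  non : cyc R w (SpQ.E (s ++ t)) = cyc R w (SpQ.E B)
  mx : ∀ B', WReach B B' → (∀ h ∈ B', Good h) → es R w (cyc R w (SpQ.E B)) [] (bare B') [] ≤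
    es R w (cyc R w (SpQ.E B)) [] (bare (s ++ p :: t)) []

variable {R : Γ →* Module.End K U} {w : U} {B s t : List (Hd Γ k)} {p h : Hd Γ k}

theorem wes_two (W : Submodule K U) (s t : List (Hd Γ k)) (p q : Hd Γ k) :
    es R w W [] (bare (s ++ p :: q :: t)) [] = es R w W [] (bare s) (bare (p :: q :: t)) +
      (st R w W (bare (s ++ q :: t)) + st R w W (bare (s ++ p :: t))) +
        es R w W (bare (s ++ [p, q])) (bare t) [] := by
  have := es_two (R := R) (w := w) (W := W) (bare s) (bare t) p.1 q.1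
  simpa [SpQ.bare_append, bare_cons, bare_nil] using this

theorem wes_two_congr (W : Submodule K U) (s t : List (Hd Γ k)) {p q p' q' : Hd Γ k}
    (h : SpQ.E [p, q] = SpQ.E [p', q']) :
    es R w W [] (bare s) (bare (p :: q :: t)) + es R w W (bare (s ++ [p, q])) (bare t) [] =
      es R w W [] (bare s) (bare (p' :: q' :: t)) +
        es R w W (bare (s ++ [p', q'])) (bare t) [] := by
  have h' : En [p.1, q.1] = En [p'.1, q'.1] := by
    have e1 : En (bare [p, q]) = En (bare [p', q']) := by rw [En_bare, En_bare, h]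
    simpa [bare_cons, bare_nil] using e1
  have := es_two_congr (R := R) (w := w) (W := W) (bare s) (bare t) h'
  simpa [SpQ.bare_append, bare_cons, bare_nil] using this

theorem wst_zero {W : Submodule K U} {C : List (Hd Γ k)} :
    st R w W (bare C) = 0 ↔ cyc R w (SpQ.E C) = W := by
  rw [st_zero, En_bare]

theorem wst_one {W : Submodule K U} {C : List (Hd Γ k)} (h : cyc R w (SpQ.E C) ≠ W) :
    st R w W (bare C) = 1 := by
  apply st_one
  rwa [En_bare]

theorem wst_le {W : Submodule K U} {C : List (Γ × Γ)} : st R w W C ≤ 1 := by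
  unfold st
  split <;> omega

theorem wes_le (W : Submodule K U) : ∀ (s pre post : List (Γ × Γ)),
    es R w W pre s post ≤ s.length := by
  intro s
  induction s with
  | nil => intro pre post; exact le_rfl
  | cons h s ih =>
    intro pre post
    rw [es, List.length_cons]
    have h1 : st R w W (pre ++ (s ++ post)) ≤ 1 := wst_le
    have h2 := ih (pre ++ [h]) post
    omega

/-- a handle which is not essential moves to the right -/
theorem WGd.right (hg : WGd R w B s p (h :: t)) :
    WGd R w B (s ++ [cj1 (bd p)⁻¹ h]) p t := by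
  obtain ⟨⟨a, b⟩, o1, o2⟩ := p
  obtain ⟨⟨c, d⟩, o3, o4⟩ := h
  set p : Hd Γ k := ((a, b), (o1, o2)) with hp
  set h : Hd Γ k := ((c, d), (o3, o4)) with hh
  set h' : Hd Γ k := cj1 (bd p)⁻¹ h with hh'
  have hstep : WStep (s ++ p :: h :: t) (s ++ h' :: p :: t) := by
    have := WStep.br s t a b c d o1 o2 o3 o4
    simpa [hh', hp, hh, cj1, bd] using this
  have hstep2 : WStep [p, h] [h', p] := by
    have := WStep.br [] [] a b c d o1 o2 o3 o4
    simpa [hh', hp, hh, cj1, bd] using this
  have hE : SpQ.E [p, h] = SpQ.E [h', p] := hstep2.E_eq.symm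
  have hr : WReach B (s ++ h' :: p :: t) := hg.rch.trans (WReach.of_step hstep)
  have hgood : ∀ x ∈ s ++ h' :: p :: t, Good x := by
    intro x hx
    simp only [List.mem_append, List.mem_cons] at hx
    rcases hx with hx | rfl | rfl | hx
    · exact hg.good x (by simp [hx])
    · exact (hg.good h (by simp)).cj1 _
    · exact hg.good _ (by simp)
    · exact hg.good x (by simp [hx])
  have h1 := wes_two (R := R) (w := w) (cyc R w (SpQ.E B)) s t p h
  have h2 := wes_two (R := R) (w := w) (cyc R w (SpQ.E B)) s t h' p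
  have h3 := wes_two_congr (R := R) (w := w) (cyc R w (SpQ.E B)) s t hE
  have h4 : st R w (cyc R w (SpQ.E B)) (bare (s ++ h :: t)) = 0 := wst_zero.2 hg.non
  have h5 := hg.mx _ hr hgood
  have h6 : st R w (cyc R w (SpQ.E B)) (bare (s ++ h' :: t)) = 0 := by omega
  have e : s ++ [h'] ++ p :: t = s ++ h' :: p :: t := by simp
  refine ⟨by rw [e]; exact hr, by rw [e]; exact hgood, ?_, fun B' hB' hB'' => ?_⟩
  · have := wst_zero.1 h6
    simpa using this
  · have h7 := hg.mx B' hB' hB''
    rw [e]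
    omega

/-- a handle which is not essential moves to the left -/
theorem WGd.left (hg : WGd R w B (s ++ [h]) p t) : WGd R w B s p (cj1 (bd p) h :: t) := by
  obtain ⟨⟨c, d⟩, o1, o2⟩ := p
  obtain ⟨⟨a, b⟩, o3, o4⟩ := h
  set p : Hd Γ k := ((c, d), (o1, o2)) with hp
  set h : Hd Γ k := ((a, b), (o3, o4)) with hh
  set h' : Hd Γ k := cj1 (bd p) h with hh'
  have e : s ++ [h] ++ p :: t = s ++ h :: p :: t := by simp
  have hstep : WStep (s ++ h :: p :: t) (s ++ p :: h' :: t) := by
    have := WStep.br' s t a b c d o3 o4 o1 o2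
    simpa [hh', hp, hh, cj1, bd] using this
  have hstep2 : WStep [h, p] [p, h'] := by
    have := WStep.br' [] [] a b c d o3 o4 o1 o2
    simpa [hh', hp, hh, cj1, bd] using this
  have hE : SpQ.E [h, p] = SpQ.E [p, h'] := hstep2.E_eq.symm
  have hr0 : WReach B (s ++ h :: p :: t) := by rw [← e]; exact hg.rch
  have hr : WReach B (s ++ p :: h' :: t) := hr0.trans (WReach.of_step hstep)
  have hgood0 : ∀ x ∈ s ++ h :: p :: t, Good x := by rw [← e]; exact hg.good
  have hgood : ∀ x ∈ s ++ p :: h' :: t, Good x := by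
    intro x hx
    simp only [List.mem_append, List.mem_cons] at hx
    rcases hx with hx | rfl | rfl | hx
    · exact hgood0 x (by simp [hx])
    · exact hgood0 _ (by simp)
    · exact (hgood0 h (by simp)).cj1 _
    · exact hgood0 x (by simp [hx])
  have h1 := wes_two (R := R) (w := w) (cyc R w (SpQ.E B)) s t h p
  have h2 := wes_two (R := R) (w := w) (cyc R w (SpQ.E B)) s t p h'
  have h3 := wes_two_congr (R := R) (w := w) (cyc R w (SpQ.E B)) s t hE
  have hnon : cyc R w (SpQ.E (s ++ h :: t)) = cyc R w (SpQ.E B) := by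
    have := hg.non
    simpa using this
  have h4 : st R w (cyc R w (SpQ.E B)) (bare (s ++ h :: t)) = 0 := wst_zero.2 hnon
  have hmx : ∀ B', WReach B B' → (∀ h ∈ B', Good h) →
      es R w (cyc R w (SpQ.E B)) [] (bare B') [] ≤
      es R w (cyc R w (SpQ.E B)) [] (bare (s ++ h :: p :: t)) [] := by
    rw [← e]
    exact hg.mx
  have h5 := hmx _ hr hgood
  have h6 : st R w (cyc R w (SpQ.E B)) (bare (s ++ h' :: t)) = 0 := by omega
  refine ⟨hr, hgood, wst_zero.1 h6, fun B' hB' hB'' => ?_⟩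
  have h7 := hmx B' hB' hB''
  omega

/-- replacing the two marked handles by handles with the same groups -/
theorem WGd.replace (hg : WGd R w B s p (h :: t)) {p' h' : Hd Γ k}
    (hEp : SpQ.E [p] = SpQ.E [p']) (hE : SpQ.E [h] = SpQ.E [h'])
    (hr : WReach B (s ++ p' :: h' :: t)) (hgp : Good p') (hgh : Good h') :
    WGd R w B s p' (h' :: t) := by
  have e1 : SpQ.E (s ++ h' :: t) = SpQ.E (s ++ h :: t) := by
    rw [SpQ.E_append, SpQ.E_append, SpQ.E_cons h', SpQ.E_cons h, hE]
  have e2 : SpQ.E (s ++ p' :: t) = SpQ.E (s ++ p :: t) := by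
    rw [SpQ.E_append, SpQ.E_append, SpQ.E_cons p', SpQ.E_cons p, hEp]
  have hE2 : SpQ.E [p, h] = SpQ.E [p', h'] := by
    rw [SpQ.E_cons, SpQ.E_cons p', hEp, hE]
  refine ⟨hr, ?_, by rw [e1]; exact hg.non, fun B' hB' hB'' => ?_⟩
  · intro x hx
    simp only [List.mem_append, List.mem_cons] at hx
    rcases hx with hx | rfl | rfl | hx
    · exact hg.good x (by simp [hx])
    · exact hgp
    · exact hgh
    · exact hg.good x (by simp [hx])
  · have h1 := hg.mx B' hB' hB''
    have h2 := wes_two (R := R) (w := w) (cyc R w (SpQ.E B)) s t p h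
    have h3 := wes_two (R := R) (w := w) (cyc R w (SpQ.E B)) s t p' h'
    have h4 := wes_two_congr (R := R) (w := w) (cyc R w (SpQ.E B)) s t hE2
    have h5 : st R w (cyc R w (SpQ.E B)) (bare (s ++ h' :: t)) =
        st R w (cyc R w (SpQ.E B)) (bare (s ++ h :: t)) :=
      st_congr (by rw [En_bare, En_bare, e1])
    have h6 : st R w (cyc R w (SpQ.E B)) (bare (s ++ p' :: t)) =
        st R w (cyc R w (SpQ.E B)) (bare (s ++ p :: t)) :=
      st_congr (by rw [En_bare, En_bare, e2])
    omega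

/-- spare handles at the end lie in `H` -/
def WSpr (R : Γ →* Module.End K U) (w : U) (B : List (Hd Γ k)) (H : Subgroup Γ) : Prop :=
  ∀ (B' : List (Hd Γ k)) (p : Hd Γ k), WReach B (B' ++ [p]) → (∀ h ∈ B' ++ [p], Good h) →
    cyc R w (SpQ.E B') = cyc R w (SpQ.E B) → SpQ.E [p] ≤ H

variable {H : Subgroup Γ}

theorem WGd.mem (hH : WSpr R w B H) : ∀ {s t : List (Hd Γ k)} {p : Hd Γ k}, WGd R w B s p t →
    SpQ.E [p] ≤ H := by
  intro s t
  induction t generalizing s with
  | nil =>
    intro p hg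
    refine hH s p hg.rch hg.good ?_
    have := hg.non
    simpa using this
  | cons h t ih =>
    intro p hg
    exact ih hg.right

/-- a handle moves to the end, the others remain unchanged -/
theorem move_end (X : List (Hd Γ k)) (s : Hd Γ k) :
    ∃ v ∈ SpQ.E X, WReach (s :: X) (X ++ [cj1 v s]) := by
  induction X generalizing s with
  | nil =>
    refine ⟨1, Subgroup.one_mem _, ?_⟩
    have e : cj1 1 s = s := by
      unfold cj1
      simp
    rw [e]
    exact WReach.refl _
  | cons h X ih =>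
    obtain ⟨⟨c, d⟩, ⟨p', q'⟩⟩ := h
    obtain ⟨⟨a, b⟩, ⟨p, q⟩⟩ := s
    obtain ⟨v, hv, hr⟩ := ih (cj1 (bd ((c, d), (p', q'))) ((a, b), (p, q)))
    have hE : SpQ.E (((c, d), (p', q')) :: X) = SpQ.E [((c, d), (p', q'))] ⊔ SpQ.E X :=
      SpQ.E_cons _ _
    have hb : bd ((c, d), (p', q')) ∈ SpQ.E (((c, d), (p', q')) :: X) :=
      SpQ.bd_mem_E (by simp)
    have hv' : v ∈ SpQ.E (((c, d), (p', q')) :: X) := by
      rw [hE]
      exact (le_sup_right : SpQ.E X ≤ _) hv
    refine ⟨bd ((c, d), (p', q')) * v, Subgroup.mul_mem _ hb hv', ?_⟩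
    have h1 := WReach.of_step (WStep.br' [] X a b c d p q p' q')
    have h2 := hr.left [((c, d), (p', q'))]
    have e : cj1 v (cj1 (bd ((c, d), (p', q'))) ((a, b), (p, q))) =
        cj1 (bd ((c, d), (p', q')) * v) ((a, b), (p, q)) := by
      unfold cj1
      simp only [mul_inv_rev, mul_assoc]
    rw [e] at h2
    have h3 : WReach (((a, b), (p, q)) :: ((c, d), (p', q')) :: X)
        (((c, d), (p', q')) :: cj1 (bd ((c, d), (p', q'))) ((a, b), (p, q)) :: X) := by
      simpa [cj1, bd] using h1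
    exact h3.trans (by simpa using h2)

theorem E_cj1 {v : Γ} (hv : v ∈ H) (p : Hd Γ k) (h : SpQ.E [cj1 v p] ≤ H) : SpQ.E [p] ≤ H := by
  rw [SpQ.E_singleton_le] at h ⊢
  unfold cj1 at h
  simp only at h
  refine ⟨?_, ?_⟩
  · have := H.mul_mem (H.mul_mem hv h.1) (H.inv_mem hv)
    exact mem_word (by group) this
  · have := H.mul_mem (H.mul_mem hv h.2) (H.inv_mem hv)
    exact mem_word (by group) this

/-- a handle which is not essential and has only handles of `H` to its right lies in `H` -/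
theorem wmem_of_right (hH : WSpr R w B H) (hr : WReach B (s ++ p :: t))
    (hg : ∀ h ∈ s ++ p :: t, Good h)
    (hn : cyc R w (SpQ.E (s ++ t)) = cyc R w (SpQ.E B)) (ht : SpQ.E t ≤ H) : SpQ.E [p] ≤ H := by
  obtain ⟨v, hv, h1⟩ := move_end t p
  have h2 := h1.left s
  have h3 : WReach B ((s ++ t) ++ [cj1 v p]) := by
    refine hr.trans ?_
    simpa using h2
  refine E_cj1 (ht hv) p (hH _ _ h3 ?_ hn)
  intro x hx
  simp only [List.mem_append, List.mem_cons, List.not_mem_nil, or_false] at hx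
  rcases hx with (hx | hx) | rfl
  · exact hg x (by simp [hx])
  · exact hg x (by simp [hx])
  · exact (hg p (by simp)).cj1 v

/-- the slide -/
theorem WGd.slide (hH : WSpr R w B H) (hg : WGd R w B s p (h :: t)) (ht : SpQ.E t ≤ H) :
    h.1.1 * h.1.2 * h.1.1⁻¹ ∈ H := by
  have hpH := hg.mem hH
  obtain ⟨⟨a, b⟩, op⟩ := p
  obtain ⟨⟨c, d⟩, oh⟩ := h
  obtain rfl : op = (-1, 1) := hg.good ((a, b), op) (by simp)
  obtain rfl : oh = (-1, 1) := hg.good ((c, d), oh) (by simp)
  rw [SpQ.E_singleton_le] at hpH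
  obtain ⟨hp1, hp2⟩ := hpH
  simp only at hp1 hp2 ⊢
  -- the slide and the normalisation of the new handles
  have hstep := WStep.sl s t a b c d (-1 : ZMod k) 1 (-1) 1
  have hstep2 := WStep.sl [] [] a b c d (-1 : ZMod k) 1 (-1) 1
  have e1 : (-1 : ZMod k) - -1 + 1 = 1 := by ring
  rw [e1] at hstep hstep2
  simp only [List.nil_append] at hstep2
  set Y : Γ := b * a⁻¹ * b⁻¹ * c * d * c⁻¹ * b with hY
  set z : Γ := b * a⁻¹ * b⁻¹ * c with hz
  set q₀ : ZMod k := 1 + 1 - -1 + 1 with hq₀
  obtain ⟨y', hy'⟩ := SpQ.good_of_neg_one (k := k) a Y q₀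
  obtain ⟨h', hh', hgh'⟩ := SpQ.good_of_one (k := k) z d 1
  set p' : Hd Γ k := ((a, y'), (-1, 1)) with hp'
  have hEp : SpQ.E [p'] = SpQ.E [((a, Y), ((-1 : ZMod k), q₀))] := hy'.E_eq
  have hEh : SpQ.E [h'] = SpQ.E [((z, d), ((1 : ZMod k), (1 : ZMod k)))] := hh'.E_eq
  have hr : WReach B (s ++ p' :: h' :: t) := by
    refine hg.rch.trans ((WReach.of_step hstep).trans ?_)
    have r1 := (hy'.left s).right (((z, d), ((1 : ZMod k), (1 : ZMod k))) :: t)
    have r2 := (hh'.left (s ++ [p'])).right t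
    simp only [List.append_assoc, List.cons_append, List.nil_append] at r1 r2
    exact r1.trans r2
  have hE : SpQ.E [((a, b), ((-1 : ZMod k), (1 : ZMod k))),
      ((c, d), ((-1 : ZMod k), (1 : ZMod k)))] = SpQ.E [p', h'] := by
    rw [← hstep2.E_eq, SpQ.E_cons, SpQ.E_cons p', hEp, hEh]
  have hgood : ∀ x ∈ s ++ p' :: h' :: t, Good x := by
    intro x hx
    simp only [List.mem_append, List.mem_cons] at hx
    rcases hx with hx | rfl | rfl | hx
    · exact hg.good x (by simp [hx])
    · rfl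
    · exact hgh'
    · exact hg.good x (by simp [hx])
  by_cases hn : cyc R w (SpQ.E (s ++ p' :: t)) = cyc R w (SpQ.E B)
  · -- the second handle is not essential
    have h1 : SpQ.E [h'] ≤ H := by
      refine wmem_of_right (s := s ++ [p']) (t := t) hH ?_ ?_ ?_ ht
      · simpa using hr
      · simpa using hgood
      · simpa using hn
    rw [hEh, SpQ.E_singleton_le] at h1
    simp only at h1
    have hc : c ∈ H := by
      have := H.mul_mem (H.mul_mem (H.mul_mem hp2 hp1) (H.inv_mem hp2)) h1.1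
      refine mem_word ?_ this
      rw [hz]
      group
    exact H.mul_mem (H.mul_mem hc h1.2) (H.inv_mem hc)
  · -- the second handle is essential, so the first one is not
    have h1 := wes_two (R := R) (w := w) (cyc R w (SpQ.E B)) s t
      ((a, b), ((-1 : ZMod k), (1 : ZMod k))) ((c, d), ((-1 : ZMod k), (1 : ZMod k)))
    have h2 := wes_two (R := R) (w := w) (cyc R w (SpQ.E B)) s t p' h'
    have h3 := wes_two_congr (R := R) (w := w) (cyc R w (SpQ.E B)) s t hE
    have h4 : st R w (cyc R w (SpQ.E B))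
        (bare (s ++ ((c, d), ((-1 : ZMod k), (1 : ZMod k))) :: t)) = 0 := wst_zero.2 hg.non
    have h5 := hg.mx _ hr hgood
    have h6 : st R w (cyc R w (SpQ.E B)) (bare (s ++ p' :: t)) = 1 := wst_one hn
    have h7 : st R w (cyc R w (SpQ.E B))
        (bare (s ++ ((a, b), ((-1 : ZMod k), (1 : ZMod k))) :: t)) ≤ 1 := wst_le
    have h8 : st R w (cyc R w (SpQ.E B)) (bare (s ++ h' :: t)) = 0 := by omega
    have hg' : WGd R w B s p' (h' :: t) := by
      refine ⟨hr, hgood, wst_zero.1 h8, fun B' hB' hB'' => ?_⟩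
      have h9 := hg.mx B' hB' hB''
      omega
    have h9 := hg'.mem hH
    rw [hEp, SpQ.E_singleton_le] at h9
    have := H.mul_mem (H.mul_mem (H.mul_mem (H.mul_mem hp2 hp1) (H.inv_mem hp2)) h9.2)
      (H.inv_mem hp2)
    refine mem_word ?_ this
    simp only [hY, hz]
    group

theorem WGd.next (hH : WSpr R w B H) (hg : WGd R w B s p (h :: t)) (ht : SpQ.E t ≤ H) :
    SpQ.E [h] ≤ H := by
  have h1 := hg.slide hH ht
  obtain ⟨⟨c, d⟩, oh⟩ := h
  obtain rfl : oh = (-1, 1) := hg.good ((c, d), oh) (by simp)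
  simp only at h1
  -- the rotated handle, normalised
  have r1 := WReach.of_step (WStep.rot [] [] c d (-1 : ZMod k) 1)
  have r2 := SpQ.tw_nat' d⁻¹ (d * c * d⁻¹) (-1 : ZMod k) (-1) 2
  simp only [List.nil_append] at r1
  have r3 := r1.trans r2
  have e1 : (-1 : ZMod k) - (2 : ℕ) * (-1) = 1 := by push_cast; ring
  rw [e1] at r3
  have hE := r3.E_eq
  have hr : WReach B (s ++ p :: ((d⁻¹, d * c * d⁻¹ * (d⁻¹)⁻¹ ^ 2),
      ((-1 : ZMod k), (1 : ZMod k))) :: t) := by
    refine hg.rch.trans ?_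
    have := (r3.left (s ++ [p])).right t
    simpa only [List.append_assoc, List.cons_append, List.nil_append] using this
  have hg' := hg.replace rfl hE.symm hr (hg.good p (by simp)) rfl
  have h2 := hg'.slide hH ht
  simp only at h2
  have h3 : c * d ^ 2 ∈ H := by
    refine mem_word ?_ h2
    group
  have h4 : c * d ^ 2 * c⁻¹ ∈ H := by
    refine mem_word ?_ (H.mul_mem h1 h1)
    rw [pow_two]
    group
  have hc : c ∈ H := by
    refine mem_word ?_ (H.mul_mem (H.inv_mem h4) h3)
    group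
  rw [SpQ.E_singleton_le]
  refine ⟨hc, ?_⟩
  have := H.mul_mem (H.mul_mem (H.inv_mem hc) h1) hc
  exact mem_word (by group) this

theorem WGd.tail (hH : WSpr R w B H) : ∀ {t s : List (Hd Γ k)} {p : Hd Γ k}, WGd R w B s p t →
    SpQ.E t ≤ H := by
  intro t
  induction t with
  | nil =>
    intro s p _
    rw [SpQ.E_nil]
    exact bot_le
  | cons h t ih =>
    intro s p hg
    have h1 : SpQ.E t ≤ H := ih hg.right
    rw [SpQ.E_cons]
    exact sup_le (hg.next hH h1) h1

theorem WGd.init (hH : WSpr R w B H) : ∀ {s t : List (Hd Γ k)} {p : Hd Γ k}, WGd R w B s p t →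
    SpQ.E s ≤ H := by
  intro s
  induction s using List.reverseRecOn with
  | nil =>
    intro t p _
    rw [SpQ.E_nil]
    exact bot_le
  | append_singleton s h ih =>
    intro t p hg
    have hp := hg.mem hH
    rw [SpQ.E_singleton_le] at hp
    have h1 := hg.left
    have h2 : SpQ.E s ≤ H := ih h1
    have h3 := h1.tail hH
    rw [SpQ.E_cons] at h3
    rw [SpQ.E_append]
    exact sup_le h2 (E_cj1 (SpQ.bd_mem hp.1 hp.2) h (le_sup_left.trans h3))

/-- if a subgroup contains all spare handles then it contains everything -/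
theorem wall_mem [FiniteDimensional K U] (hw : w ≠ 0) (hB : ∀ h ∈ B, Good h)
    (hlen : finrank K (cyc R w (SpQ.E B)) ≤ B.length) (hH : WSpr R w B H) : SpQ.E B ≤ H := by
  -- a maximum
  obtain ⟨B₀, hB₀, hB₀g, hmax⟩ : ∃ B₀, WReach B B₀ ∧ (∀ h ∈ B₀, Good h) ∧
      ∀ B', WReach B B' → (∀ h ∈ B', Good h) →
      es R w (cyc R w (SpQ.E B)) [] (bare B') [] ≤
        es R w (cyc R w (SpQ.E B)) [] (bare B₀) [] := by
    classical
    have hex : ∃ m, ∃ B₀, (WReach B B₀ ∧ ∀ h ∈ B₀, Good h) ∧
        B.length - es R w (cyc R w (SpQ.E B)) [] (bare B₀) [] = m :=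
      ⟨_, B, ⟨WReach.refl _, hB⟩, rfl⟩
    obtain ⟨B₀, ⟨hB₀, hB₀g⟩, hm⟩ := Nat.find_spec hex
    refine ⟨B₀, hB₀, hB₀g, fun B' hB' hB'' => ?_⟩
    have h1 := Nat.find_min' hex ⟨B', ⟨hB', hB''⟩, rfl⟩
    rw [← hm] at h1
    have h2 := wes_le (R := R) (w := w) (cyc R w (SpQ.E B)) (bare B') [] []
    have h3 := wes_le (R := R) (w := w) (cyc R w (SpQ.E B)) (bare B₀) [] []
    rw [SpQ.bare_length, hB'.length_eq] at h2
    rw [SpQ.bare_length, hB₀.length_eq] at h3
    omega
  have hE : SpQ.E B₀ = SpQ.E B := hB₀.E_eq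
  obtain ⟨s', p', t', hd, hn⟩ := exists_noness (R := R) hw (bare B₀) (by
    rw [En_bare, hE, SpQ.bare_length, hB₀.length_eq]
    exact hlen)
  obtain ⟨s, u, rfl, rfl, hu⟩ := List.map_eq_append_iff.1 hd
  obtain ⟨p, t, rfl, rfl, rfl⟩ := List.map_eq_cons_iff.1 hu
  have hn' : cyc R w (SpQ.E (s ++ t)) = cyc R w (SpQ.E B) := by
    have e1 : List.map Prod.fst s ++ List.map Prod.fst t = bare (s ++ t) := by
      rw [SpQ.bare_append]
      rfl
    rw [e1, En_bare, En_bare, hE] at hn
    exact hn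
  have hg : WGd R w B s p t := ⟨hB₀, hB₀g, hn', hmax⟩
  rw [← hE, SpQ.E_append, SpQ.E_cons]
  exact sup_le (hg.init hH) (sup_le (hg.mem hH) (hg.tail hH))

end Pool.Agent.LGP
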