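import Pool.Agent.LGP.Defs
import Pool.Agent.PRS.HER

/-!
# LGP, Jac: irreducible representations with the same traces of `ρ x * A` (helper17)
-/

set_option autoImplicit false

namespace Pool.Agent.LGP

open Matrix Pool.Agent.HZ

/-- symmetric linear forms on matrices are multiples of the trace -/
private theorem Jac_form {r : ℕ} (hr : 0 < r) (f : Matrix (Fin r) (Fin r) ℂ →ₗ[ℂ] ℂ)
    (hf : ∀ X Y, f (X * Y) = f (Y * X)) : ∃ c : ℂ, ∀ X, f X = c * X.trace := by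
  have hdiag : ∀ i j : Fin r, f (Matrix.single i i 1) = f (Matrix.single j j 1) := by
    intro i j
    have h1 := hf (Matrix.single i j 1) (Matrix.single j i 1)
    rwa [Matrix.single_mul_single_same, Matrix.single_mul_single_same, mul_one] at h1
  have hoff : ∀ i j : Fin r, i ≠ j → f (Matrix.single i j 1) = 0 := by
    intro i j hij
    have h1 := hf (Matrix.single i i 1) (Matrix.single i j 1)
    rw [Matrix.single_mul_single_same, Matrix.single_mul_single_of_ne (h := Ne.symm hij), mul_one,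
      map_zero] at h1
    exact h1
  refine ⟨f (Matrix.single ⟨0, hr⟩ ⟨0, hr⟩ 1), fun X => ?_⟩
  conv_lhs => rw [Matrix.matrix_eq_sum_single X]
  rw [map_sum, Matrix.trace, Finset.mul_sum]
  refine Finset.sum_congr rfl fun i _ => ?_
  rw [map_sum, Finset.sum_eq_single i]
  · have e : Matrix.single i i (X i i) = X i i • (Matrix.single i i 1 : Matrix (Fin r) (Fin r) ℂ) := by
      rw [Matrix.smul_single, smul_eq_mul, mul_one]
    rw [e, map_smul, smul_eq_mul, hdiag i ⟨0, hr⟩, mul_comm]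
    rfl
  · intro j _ hj
    have e : Matrix.single i j (X i j) = X i j • (Matrix.single i j 1 : Matrix (Fin r) (Fin r) ℂ) := by
      rw [Matrix.smul_single, smul_eq_mul, mul_one]
    rw [e, map_smul, hoff i j (Ne.symm hj), smul_zero]
  · intro h
    exact absurd (Finset.mem_univ i) h

private theorem Jac_ker {r : ℕ} {Z A : Matrix (Fin r) (Fin r) ℂ} (hA : A ≠ 0)
    (h : ∀ U V : Matrix (Fin r) (Fin r) ℂ, (U * Z * V * A).trace = 0) : Z = 0 := by
  obtain ⟨i, l, hil⟩ : ∃ i l, A i l ≠ 0 := by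
    by_contra h0
    push Not at h0
    exact hA (Matrix.ext h0)
  have h1 : ∀ V : Matrix (Fin r) (Fin r) ℂ, Z * V * A = 0 := by
    intro V
    apply Pool.Agent.PRS.eq_zero_of_trace
    intro U
    have h2 := h U V
    rw [trace_mul_comm]
    simpa only [mul_assoc] using h2
  ext j k
  have h2 := congrFun (congrFun (h1 (Matrix.single k i 1)) j) l
  have h3 : (Z * Matrix.single k i (1 : ℂ) * A) j l = Z j k * A i l := by
    rw [Matrix.mul_apply, Finset.sum_eq_single i]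
    · rw [Matrix.mul_single_apply_same, mul_one]
    · intro b _ hb
      rw [Matrix.mul_single_apply_of_ne (hbj := hb), zero_mul]
    · intro h4
      exact absurd (Finset.mem_univ i) h4
  rw [h3] at h2
  exact (mul_eq_zero.1 h2).resolve_right hil

theorem thm_Jac : St_Jac := by
  intro G _ r ρ₁ ρ₂ A₁ A₂ h1 h2 hA1 hA2 htr x
  rcases Nat.eq_zero_or_pos r with hr | hr
  · subst hr
    rw [Matrix.trace, Matrix.trace, Finset.univ_eq_empty, Finset.sum_empty, Finset.sum_empty]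
  have hspan : ∀ ρ : G →* GL (Fin r) ℂ, Irr ρ.range →
      Submodule.span ℂ (Set.range fun g => (ρ g : Matrix (Fin r) (Fin r) ℂ)) = ⊤ := by
    intro ρ hρ
    rw [← Pool.Agent.PRS.span_irr hr ρ.range hρ]
    congr 1
    ext M
    constructor
    · rintro ⟨g, rfl⟩
      exact ⟨ρ g, ⟨g, rfl⟩, rfl⟩
    · rintro ⟨_, ⟨g, rfl⟩, rfl⟩
      exact ⟨g, rfl⟩
  let σ : (G →* GL (Fin r) ℂ) → (G →* Matrix (Fin r) (Fin r) ℂ) := fun ρ =>
    (Units.coeHom (Matrix (Fin r) (Fin r) ℂ)).comp ρ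
  let Φ : (G →* GL (Fin r) ℂ) → (MonoidAlgebra ℂ G →ₐ[ℂ] Matrix (Fin r) (Fin r) ℂ) := fun ρ =>
    MonoidAlgebra.lift ℂ (Matrix (Fin r) (Fin r) ℂ) G (σ ρ)
  have hΦ : ∀ (ρ : G →* GL (Fin r) ℂ) (g : G), Φ ρ (MonoidAlgebra.of ℂ G g) =
      (ρ g : Matrix (Fin r) (Fin r) ℂ) := fun ρ g => MonoidAlgebra.lift_of (σ ρ) g
  have hsurj : ∀ ρ : G →* GL (Fin r) ℂ, Irr ρ.range → Function.Surjective (Φ ρ) := by
    intro ρ hρ Y
    have hY : Y ∈ Submodule.span ℂ (Set.range fun g => (ρ g : Matrix (Fin r) (Fin r) ℂ)) := by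
      rw [hspan ρ hρ]
      trivial
    have h3 : Submodule.span ℂ (Set.range fun g => (ρ g : Matrix (Fin r) (Fin r) ℂ)) ≤
        LinearMap.range (Φ ρ).toLinearMap := by
      rw [Submodule.span_le]
      rintro _ ⟨g, rfl⟩
      exact ⟨_, hΦ ρ g⟩
    exact h3 hY
  have htr' : ∀ u, (Φ ρ₁ u * A₁).trace = (Φ ρ₂ u * A₂).trace := by
    have h3 : ((Matrix.traceLinearMap (Fin r) ℂ ℂ).comp (LinearMap.mulRight ℂ A₁)).comp
        (Φ ρ₁).toLinearMap = ((Matrix.traceLinearMap (Fin r) ℂ ℂ).comp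
          (LinearMap.mulRight ℂ A₂)).comp (Φ ρ₂).toLinearMap := by
      refine MonoidAlgebra.lhom_ext' fun g => LinearMap.ext_ring ?_
      show (Φ ρ₁ (MonoidAlgebra.of ℂ G g) * A₁).trace = (Φ ρ₂ (MonoidAlgebra.of ℂ G g) * A₂).trace
      rw [hΦ, hΦ]
      exact htr g
    intro u
    exact congrArg (fun f => f u) h3
  have hker : ∀ z, Φ ρ₁ z = 0 → Φ ρ₂ z = 0 := by
    intro z hz
    apply Jac_ker hA2
    intro U V
    obtain ⟨u, rfl⟩ := hsurj ρ₂ h2 U
    obtain ⟨v, rfl⟩ := hsurj ρ₂ h2 V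
    rw [← map_mul, ← map_mul, ← htr', map_mul, map_mul, hz, mul_zero, zero_mul, zero_mul,
      Matrix.trace_zero]
  obtain ⟨s, hs⟩ := LinearMap.exists_rightInverse_of_surjective (Φ ρ₁).toLinearMap
    (LinearMap.range_eq_top.2 (hsurj ρ₁ h1))
  have hs' : ∀ X, Φ ρ₁ (s X) = X := fun X => congrArg (fun f => f X) hs
  let Ψ : Matrix (Fin r) (Fin r) ℂ →ₗ[ℂ] Matrix (Fin r) (Fin r) ℂ := (Φ ρ₂).toLinearMap.comp s
  have hΨ : ∀ u, Ψ (Φ ρ₁ u) = Φ ρ₂ u := by
    intro u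
    have h3 : Φ ρ₂ (s (Φ ρ₁ u) - u) = 0 := hker _ (by rw [map_sub, hs', sub_self])
    rw [map_sub, sub_eq_zero] at h3
    exact h3
  obtain ⟨c, hc⟩ := Jac_form hr ((Matrix.traceLinearMap (Fin r) ℂ ℂ).comp Ψ) (by
    intro X Y
    obtain ⟨u, rfl⟩ := hsurj ρ₁ h1 X
    obtain ⟨v, rfl⟩ := hsurj ρ₁ h1 Y
    show (Ψ (Φ ρ₁ u * Φ ρ₁ v)).trace = (Ψ (Φ ρ₁ v * Φ ρ₁ u)).trace
    rw [← map_mul, ← map_mul, hΨ, hΨ, map_mul, map_mul, trace_mul_comm])
  have hc' : ∀ u, (Φ ρ₂ u).trace = c * (Φ ρ₁ u).trace := by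
    intro u
    rw [← hΨ]
    exact hc _
  have h4 := hc' 1
  rw [map_one, map_one, Matrix.trace_one, Fintype.card_fin] at h4
  have hr' : (r : ℂ) ≠ 0 := by exact_mod_cast hr.ne'
  have h5 : c = 1 := by
    have h6 : (c - 1) * (r : ℂ) = 0 := by linear_combination -h4
    rcases mul_eq_zero.1 h6 with h7 | h7
    · exact sub_eq_zero.1 h7
    · exact absurd h7 hr'
  have h6 := hc' (MonoidAlgebra.of ℂ G x)
  rw [hΦ, hΦ, h5, one_mul] at h6
  exact h6.symm

end Pool.Agent.LGP
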