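import Pool.Agent.LGP.Defs
import Pool.Agent.HZ.RedC

/-!
# LGP, Fin: equalities of traces on a set of elements follow from finitely many (helper17)
-/

set_option autoImplicit false

namespace Pool.Agent.LGP

open Matrix MvPolynomial Pool.Agent.HZ

private theorem Fin_words (r n : ℕ) (Λ : Set (FreeGroup (Fin n))) :
    ∃ s : Finset (FreeGroup (Fin n)), (∀ x ∈ s, x ∈ Λ) ∧
      ∀ ρ₁ ρ₂ : FreeGroup (Fin n) →* GL (Fin r) ℂ,
        (∀ x ∈ s, (ρ₁ x : Matrix (Fin r) (Fin r) ℂ).trace =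
          (ρ₂ x : Matrix (Fin r) (Fin r) ℂ).trace) →
        ∀ x ∈ Λ, (ρ₁ x : Matrix (Fin r) (Fin r) ℂ).trace =
          (ρ₂ x : Matrix (Fin r) (Fin r) ℂ).trace := by
  classical
  let f : FreeGroup (Fin n) → MvPolynomial (FVar r n) ℂ :=
    fun x => ftr r n true x.toWord - ftr r n false x.toWord
  have hf : ∀ (ρ₁ ρ₂ : FreeGroup (Fin n) →* GL (Fin r) ℂ) (x : FreeGroup (Fin n)),
      eval (fpt ρ₁ ρ₂) (f x) = (ρ₁ x : Matrix (Fin r) (Fin r) ℂ).trace -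
        (ρ₂ x : Matrix (Fin r) (Fin r) ℂ).trace := by
    intro ρ₁ ρ₂ x
    simp only [f]
    rw [map_sub, eval_ftr, eval_ftr, FreeGroup.mk_toWord]
    rfl
  obtain ⟨t, ht, hspan⟩ := Submodule.fg_span_iff_fg_span_finset_subset (f '' Λ) |>.1
    (IsNoetherian.noetherian (Ideal.span (f '' Λ)))
  obtain ⟨s, hs, hst⟩ := Finset.subset_set_image_iff.1 ht
  refine ⟨s, fun x hx => hs (Finset.mem_coe.2 hx), fun ρ₁ ρ₂ h => ?_⟩
  intro x hx
  have h1 : f x ∈ Submodule.span (MvPolynomial (FVar r n) ℂ) (t : Set _) := by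
    rw [← hspan]
    exact Submodule.subset_span ⟨x, hx, rfl⟩
  have h2 : Submodule.span (MvPolynomial (FVar r n) ℂ) (t : Set (MvPolynomial (FVar r n) ℂ)) ≤
      RingHom.ker (eval (fpt ρ₁ ρ₂)) := by
    rw [Submodule.span_le]
    intro p hp
    rw [← hst, Finset.coe_image] at hp
    obtain ⟨y, hy, rfl⟩ := hp
    show f y ∈ RingHom.ker (eval (fpt ρ₁ ρ₂))
    rw [RingHom.mem_ker, hf, h y hy, sub_self]
  have h3 := h2 h1
  rw [RingHom.mem_ker, hf] at h3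
  exact sub_eq_zero.1 h3

theorem thm_Fin : St_Fin := by
  intro g n r Λ
  classical
  let e : F g n ≃* FreeGroup (Fin (Fintype.card ((Fin g × Bool) ⊕ Fin n))) :=
    FreeGroup.freeGroupCongr (Fintype.equivFin ((Fin g × Bool) ⊕ Fin n))
  obtain ⟨s, hs, h⟩ := Fin_words r _ (e '' Λ)
  refine ⟨s.image e.symm, ?_, ?_⟩
  · intro x hx
    obtain ⟨y, hy, rfl⟩ := Finset.mem_image.1 hx
    obtain ⟨z, hz, rfl⟩ := hs y hy
    rwa [MulEquiv.symm_apply_apply]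
  · intro ρ₁ ρ₂ h1 x hx
    have h2 := h (ρ₁.comp e.symm.toMonoidHom) (ρ₂.comp e.symm.toMonoidHom) (by
      intro y hy
      exact h1 (e.symm y) (Finset.mem_image.2 ⟨y, hy, rfl⟩)) (e x) ⟨x, hx, rfl⟩
    have e1 : ∀ ρ : F g n →* GL (Fin r) ℂ, ρ.comp e.symm.toMonoidHom (e x) = ρ x := by
      intro ρ
      show ρ (e.symm (e x)) = ρ x
      rw [MulEquiv.symm_apply_apply]
    rwa [e1, e1] at h2

end Pool.Agent.LGP
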