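import Pool.Agent.LGP.WDefs

/-!
# LGP, module Dsc: mapping classes which fix `x_0` descend to the closed surface (helper14)
-/

set_option autoImplicit false

namespace Pool.Agent.LGP

open Helper12.Sc Helper12.Sc.SurfaceGroup

/-- killing the punctures -/
def Dsc_k (g n : ℕ) : F g n →* FreeGroup (Fin g × Bool) :=
  FreeGroup.lift (Sum.elim FreeGroup.of fun _ => 1)

/-- the section -/
def Dsc_i (g n : ℕ) : FreeGroup (Fin g × Bool) →* F g n := FreeGroup.map Sum.inl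

theorem Dsc_k_inl {g n : ℕ} (p : Fin g × Bool) :
    Dsc_k g n (FreeGroup.of (Sum.inl p)) = FreeGroup.of p := by
  unfold Dsc_k
  rw [FreeGroup.lift_apply_of]
  rfl

theorem Dsc_k_gx {g n : ℕ} (j : Fin n) : Dsc_k g n (gx j) = 1 := by
  unfold Dsc_k gx
  rw [FreeGroup.lift_apply_of]
  rfl

theorem Dsc_k_i {g n : ℕ} (x : FreeGroup (Fin g × Bool)) : Dsc_k g n (Dsc_i g n x) = x := by
  have h : (Dsc_k g n).comp (Dsc_i g n) = MonoidHom.id _ := by
    apply FreeGroup.ext_hom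
    intro p
    show Dsc_k g n (Dsc_i g n (FreeGroup.of p)) = FreeGroup.of p
    unfold Dsc_i
    rw [FreeGroup.map.of, Dsc_k_inl]
  exact DFunLike.congr_fun h x

theorem Dsc_prj {g n : ℕ} (y : F g n) :
    prj g n y = PresentedGroup.mk {surfaceRelator g} (Dsc_k g n y) := by
  have h : prj g n = (PresentedGroup.mk {surfaceRelator g}).comp (Dsc_k g n) := by
    apply FreeGroup.ext_hom
    rintro (⟨i, _ | _⟩ | j)
    · show prj g n (FreeGroup.of _) = PresentedGroup.mk _ (Dsc_k g n (FreeGroup.of _))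
      rw [Dsc_k_inl]
      unfold prj
      rw [FreeGroup.lift_apply_of]
      rfl
    · show prj g n (FreeGroup.of _) = PresentedGroup.mk _ (Dsc_k g n (FreeGroup.of _))
      rw [Dsc_k_inl]
      unfold prj
      rw [FreeGroup.lift_apply_of]
      rfl
    · show prj g n (FreeGroup.of _) = PresentedGroup.mk _ (Dsc_k g n (gx j))
      rw [Dsc_k_gx, map_one]
      unfold prj
      rw [FreeGroup.lift_apply_of]
  exact DFunLike.congr_fun h y

theorem Dsc_conj_one {G H : Type*} [Group G] [Group H] (f : G →* H) {x y : G} (h : IsConj x y)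
    (hy : f y = 1) : f x = 1 := by
  have h1 := f.map_isConj h
  rw [hy, isConj_one_left] at h1
  exact h1

/-- the endomorphism of the free group -/
def Dsc_e {g n : ℕ} (φ : MulAut (F g n)) : FreeGroup (Fin g × Bool) →* FreeGroup (Fin g × Bool) :=
  (Dsc_k g n).comp (φ.toMonoidHom.comp (Dsc_i g n))

theorem Dsc_e_k {g n : ℕ} {φ : MulAut (F g n)} (h : ∀ j, Dsc_k g n (φ (gx j)) = 1) (y : F g n) :
    Dsc_e φ (Dsc_k g n y) = Dsc_k g n (φ y) := by
  have h1 : (Dsc_e φ).comp (Dsc_k g n) = (Dsc_k g n).comp φ.toMonoidHom := by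
    apply FreeGroup.ext_hom
    rintro (p | j)
    · show Dsc_e φ (Dsc_k g n (FreeGroup.of _)) = Dsc_k g n (φ (FreeGroup.of _))
      rw [Dsc_k_inl]
      show Dsc_k g n (φ (Dsc_i g n (FreeGroup.of p))) = _
      unfold Dsc_i
      rw [FreeGroup.map.of]
    · show Dsc_e φ (Dsc_k g n (gx j)) = Dsc_k g n (φ (gx j))
      rw [Dsc_k_gx, h, map_one]
  exact DFunLike.congr_fun h1 y

theorem Dsc_inj {g n : ℕ} {i j : Fin n} (h : IsConj (gx i : F g n) (gx j)) : i = j := by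
  by_contra hne
  have h1 := (FreeGroup.lift (fun s : (Fin g × Bool) ⊕ Fin n =>
    if s = Sum.inr i then Multiplicative.ofAdd (1 : ℤ) else 1)).map_isConj h
  rw [isConj_iff_eq] at h1
  unfold gx at h1
  rw [FreeGroup.lift_apply_of, FreeGroup.lift_apply_of, if_pos rfl, if_neg (by
    intro e
    exact hne (Sum.inr_injective e).symm)] at h1
  exact absurd (Multiplicative.ofAdd.injective h1) one_ne_zero

theorem Dsc_inv {g n : ℕ} {φ : MulAut (F g n)} (hφ : φ ∈ MC g n) (j' : Fin n) :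
    ∃ j, IsConj (φ⁻¹ (gx j') : F g n) (gx j) := by
  choose f hf using hφ.2
  have hinj : Function.Injective f := by
    intro i j hij
    apply Dsc_inj (g := g)
    have h1 : IsConj (φ (gx i)) (φ (gx j)) := (hf i).trans (hij ▸ (hf j).symm)
    have h2 := (φ⁻¹).toMonoidHom.map_isConj h1
    have e : ∀ y, (φ⁻¹).toMonoidHom (φ y) = y := fun y => φ.symm_apply_apply y
    rwa [e, e] at h2
  obtain ⟨j, hj⟩ := (Finite.injective_iff_surjective.1 hinj) j'
  refine ⟨j, ?_⟩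
  have h2 := (φ⁻¹).toMonoidHom.map_isConj (hf j)
  have e : ∀ y, (φ⁻¹).toMonoidHom (φ y) = y := fun y => φ.symm_apply_apply y
  rw [e, hj] at h2
  exact h2.symm

theorem Dsc_k_x0 (g n : ℕ) : Dsc_k g n (x0 g n) = (surfaceRelator g)⁻¹ := by
  have e1 : (stdL g n).map (Prod.map (Dsc_k g n) (Dsc_k g n)) = SpQ.stdF g := by
    unfold stdL SpQ.stdF
    rw [List.map_ofFn]
    congr 1
  have e2 : ((stdM g n).map (Dsc_k g n)).prod = 1 := by
    unfold stdM
    rw [List.map_ofFn]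
    apply List.prod_eq_one
    intro x hx
    obtain ⟨j, rfl⟩ := (List.mem_ofFn' _ _).1 hx
    exact Dsc_k_gx j
  unfold x0
  rw [map_inv, map_mul, map_list_prod, e2, mul_one, ← SpQ.comm_map, e1, SpQ.comm_stdF]

theorem thm_Dsc : St_Dsc := by
  intro g n φ hφ hx
  have h1 : ∀ j, Dsc_k g n (φ (gx j)) = 1 := fun j => by
    obtain ⟨j', hj'⟩ := hφ.2 j
    exact Dsc_conj_one _ hj' (Dsc_k_gx j')
  have h2 : ∀ j, Dsc_k g n (φ⁻¹ (gx j)) = 1 := fun j => by
    obtain ⟨j', hj'⟩ := Dsc_inv hφ j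
    exact Dsc_conj_one _ hj' (Dsc_k_gx j')
  have h3 : ∀ x, Dsc_e φ⁻¹ (Dsc_e φ x) = x := by
    intro x
    show Dsc_e φ⁻¹ (Dsc_k g n (φ (Dsc_i g n x))) = x
    rw [Dsc_e_k h2]
    have e : φ⁻¹ (φ (Dsc_i g n x)) = Dsc_i g n x := φ.symm_apply_apply _
    rw [e, Dsc_k_i]
  have h4 : ∀ x, Dsc_e φ (Dsc_e φ⁻¹ x) = x := by
    intro x
    show Dsc_e φ (Dsc_k g n (φ⁻¹ (Dsc_i g n x))) = x
    rw [Dsc_e_k h1]
    have e : φ (φ⁻¹ (Dsc_i g n x)) = Dsc_i g n x := φ.apply_symm_apply _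
    rw [e, Dsc_k_i]
  have h5 : Dsc_e φ (surfaceRelator g) = surfaceRelator g := by
    have e := Dsc_e_k h1 (x0 g n)
    rw [hx, Dsc_k_x0, map_inv, inv_inj] at e
    exact e
  obtain ⟨ψ, hψ, hm⟩ := SpQ.exists_descend_equiv
    (MulEquiv.mk' ⟨Dsc_e φ, Dsc_e φ⁻¹, h3, h4⟩ (map_mul (Dsc_e φ))) h5
  refine ⟨ψ, hψ, fun y => ?_⟩
  rw [Dsc_prj, Dsc_prj, hm]
  congr 1
  exact (Dsc_e_k h1 y).symm

end Pool.Agent.LGP
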