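import Pool.Agent.LGP.Defs

/-!
# LGP, module Psh: products of `a_i` and `x_0` are non-separating simple loops
-/

set_option autoImplicit false

namespace Pool.Agent.LGP

open Helper12.Sc

private theorem comm_map' {Γ Δ : Type*} [Group Γ] [Group Δ] (f : Γ →* Δ) (S : List (Γ × Γ)) :
    Helper12.Sc.comm (S.map (Prod.map f f)) = f (Helper12.Sc.comm S) := by
  unfold Helper12.Sc.comm
  rw [map_list_prod, List.map_map, List.map_map]
  congr 1
  apply List.map_congr_left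
  rintro ⟨x, y⟩ _
  simp only [Function.comp, Prod.map_apply, map_mul, map_inv]

private theorem isConj_map {G : Type*} [Group G] (φ : MulAut G) {x y : G} (h : IsConj x y) :
    IsConj (φ x) (φ y) := φ.toMonoidHom.map_isConj h

private theorem isConj_self_conj {G : Type*} [Group G] (c x : G) : IsConj (c * x * c⁻¹) x :=
  (isConj_iff.2 ⟨c, rfl⟩ : IsConj x (c * x * c⁻¹)).symm

theorem Psh_mul_mem {g n : ℕ} {φ ψ : MulAut (F g n)} (h1 : φ ∈ MC g n) (h2 : ψ ∈ MC g n) :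
    φ * ψ ∈ MC g n := by
  refine ⟨?_, fun j => ?_⟩
  · exact (isConj_map φ h2.1).trans h1.1
  · obtain ⟨j', hj'⟩ := h2.2 j
    obtain ⟨j'', hj''⟩ := h1.2 j'
    exact ⟨j'', (isConj_map φ hj').trans hj''⟩

theorem Psh_conj_mem {g n : ℕ} (c : F g n) : MulAut.conj c ∈ MC g n :=
  ⟨isConj_self_conj c _, fun j => ⟨j, isConj_self_conj c _⟩⟩

theorem Psh_NS_map {g n : ℕ} {φ : MulAut (F g n)} (h : φ ∈ MC g n) {y : F g n} (hy : NS y) :
    NS (φ y) := by
  obtain ⟨ψ, hψ, i, rfl⟩ := hy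
  exact ⟨φ * ψ, Psh_mul_mem h hψ, i, rfl⟩

theorem Psh_NS_conj {g n : ℕ} (c : F g n) {y : F g n} (hy : NS (c * y * c⁻¹)) : NS y := by
  have h := Psh_NS_map (Psh_conj_mem c⁻¹) hy
  have e : MulAut.conj c⁻¹ (c * y * c⁻¹) = y := by
    rw [MulAut.conj_apply]
    group
  rwa [e] at h

/-- a handle can be moved to the front -/
theorem Psh_front {Γ : Type} [Group Γ] (p : Γ × Γ) (s t : List (Γ × Γ)) :
    ∃ s', Reach (s ++ p :: t) (p :: s' ++ t) := by
  induction s with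
  | nil => exact ⟨[], Reach.refl _⟩
  | cons q s ih =>
    obtain ⟨s', hs'⟩ := ih
    obtain ⟨a, b⟩ := q
    obtain ⟨c, d⟩ := p
    have h1 := hs'.context [(a, b)] []
    have h2 := Reach.of_step (Step.br' [] (s' ++ t) a b c d)
    simp only [List.nil_append, List.append_nil, List.cons_append] at h1 h2
    exact ⟨_ :: s', by simpa using h1.trans h2⟩

theorem Psh_MR {Γ : Type} [Group Γ] {L L' : List (Γ × Γ)} (M : List Γ) (h : Reach L L') :
    MR (L, M) (L', M) := by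
  induction h with
  | refl => exact Relation.ReflTransGen.refl
  | tail _ hs ih => exact Relation.ReflTransGen.tail ih (Mv.st _ _ M hs)

/-- the other handles -/
def Psh_tl (k n : ℕ) : List (F (k + 1) n × F (k + 1) n) :=
  List.ofFn fun i : Fin k => (ga i.succ, gb i.succ)

theorem Psh_stdL (k n : ℕ) : stdL (k + 1) n = (ga 0, gb 0) :: Psh_tl k n := by
  unfold stdL Psh_tl
  rw [List.ofFn_succ]

/-- the rest of the relation -/
def Psh_R (k n : ℕ) : F (k + 1) n := Helper12.Sc.comm (Psh_tl k n) * (stdM (k + 1) n).prod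

theorem Psh_x0 (k n : ℕ) : x0 (k + 1) n =
    (ga 0 * gb 0 * (ga 0)⁻¹ * (gb 0)⁻¹ * Psh_R k n)⁻¹ := by
  unfold x0 Psh_R
  rw [Psh_stdL]
  unfold Helper12.Sc.comm
  rw [List.map_cons, List.prod_cons, mul_assoc (ga 0 * gb 0 * (ga 0)⁻¹ * (gb 0)⁻¹)]

theorem Psh_fix_tl {k n : ℕ} (f : F (k + 1) n →* F (k + 1) n)
    (ha : ∀ i : Fin k, f (ga i.succ) = ga i.succ) (hb : ∀ i : Fin k, f (gb i.succ) = gb i.succ)
    (hx : ∀ j : Fin n, f (gx j) = gx j) : f (Psh_R k n) = Psh_R k n := by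
  unfold Psh_R
  rw [map_mul, ← comm_map', map_list_prod]
  have e1 : (Psh_tl k n).map (Prod.map f f) = Psh_tl k n := by
    unfold Psh_tl
    rw [List.map_ofFn]
    congr 1
    funext i
    simp only [Function.comp, Prod.map_apply, ha, hb]
  have e2 : (stdM (k + 1) n).map f = stdM (k + 1) n := by
    unfold stdM
    rw [List.map_ofFn]
    congr 1
    funext j
    simp only [Function.comp, hx]
  rw [e1, e2]

/-- endomorphisms which change only the first handle -/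
def Psh_hom (k n : ℕ) (u v : F (k + 1) n) : F (k + 1) n →* F (k + 1) n :=
  FreeGroup.lift fun p => match p with
    | Sum.inl (i, c) => if i = 0 then (if c then v else u) else FreeGroup.of (Sum.inl (i, c))
    | Sum.inr j => FreeGroup.of (Sum.inr j)

theorem Psh_hom_a (k n : ℕ) (u v : F (k + 1) n) : Psh_hom k n u v (ga 0) = u := by
  unfold Psh_hom ga
  rw [FreeGroup.lift_apply_of]
  simp

theorem Psh_hom_b (k n : ℕ) (u v : F (k + 1) n) : Psh_hom k n u v (gb 0) = v := by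
  unfold Psh_hom gb
  rw [FreeGroup.lift_apply_of]
  simp

theorem Psh_hom_a' (k n : ℕ) (u v : F (k + 1) n) (i : Fin (k + 1)) (hi : i ≠ 0) :
    Psh_hom k n u v (ga i) = ga i := by
  unfold Psh_hom ga
  rw [FreeGroup.lift_apply_of]
  simp [hi]

theorem Psh_hom_b' (k n : ℕ) (u v : F (k + 1) n) (i : Fin (k + 1)) (hi : i ≠ 0) :
    Psh_hom k n u v (gb i) = gb i := by
  unfold Psh_hom gb
  rw [FreeGroup.lift_apply_of]
  simp [hi]

theorem Psh_hom_x (k n : ℕ) (u v : F (k + 1) n) (j : Fin n) :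
    Psh_hom k n u v (gx j) = gx j := by
  unfold Psh_hom gx
  rw [FreeGroup.lift_apply_of]

theorem Psh_hom_R (k n : ℕ) (u v : F (k + 1) n) :
    Psh_hom k n u v (Psh_R k n) = Psh_R k n :=
  Psh_fix_tl _ (fun i => Psh_hom_a' k n u v _ (Fin.succ_ne_zero i))
    (fun i => Psh_hom_b' k n u v _ (Fin.succ_ne_zero i)) (Psh_hom_x k n u v)

theorem Psh_hom_x0 (k n : ℕ) (u v : F (k + 1) n) : Psh_hom k n u v (x0 (k + 1) n) =
    (u * v * u⁻¹ * v⁻¹ * Psh_R k n)⁻¹ := by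
  rw [Psh_x0, map_inv, map_mul, map_mul, map_mul, map_mul, map_inv, map_inv, Psh_hom_a, Psh_hom_b,
    Psh_hom_R]

theorem Psh_ext {k n : ℕ} {f : F (k + 1) n →* F (k + 1) n} (ha : f (ga 0) = ga 0)
    (hb : f (gb 0) = gb 0) (ha' : ∀ i : Fin (k + 1), i ≠ 0 → f (ga i) = ga i)
    (hb' : ∀ i : Fin (k + 1), i ≠ 0 → f (gb i) = gb i) (hx : ∀ j : Fin n, f (gx j) = gx j) :
    f = MonoidHom.id _ := by
  apply FreeGroup.ext_hom
  rintro (⟨i, c⟩ | j)
  · by_cases hi : i = 0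
    · subst hi
      cases c
      · exact ha
      · exact hb
    · cases c
      · exact ha' i hi
      · exact hb' i hi
  · exact hx j

/-- the explicit automorphism -/
theorem Psh_auto (k n : ℕ) : ∃ ψ : MulAut (F (k + 1) n), ψ ∈ MC (k + 1) n ∧
    ψ (gb 0) = gb 0 * (ga 0)⁻¹ * x0 (k + 1) n * ga 0 := by
  set a : F (k + 1) n := ga 0 with ha
  set b : F (k + 1) n := gb 0 with hb
  set x : F (k + 1) n := x0 (k + 1) n with hx
  set R : F (k + 1) n := Psh_R k n with hR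
  set q : F (k + 1) n := a⁻¹ * x * a with hq
  have hxR : R = (a * b * a⁻¹ * b⁻¹)⁻¹ * x⁻¹ := by
    rw [hx, Psh_x0, inv_inv, ← ha, ← hb, ← hR, inv_mul_cancel_left]
  set ψ := Psh_hom k n (q⁻¹ * a * q) (b * q) with hψ
  set ψ' := Psh_hom k n (x * a * x⁻¹) (b * x⁻¹) with hψ'
  have e1 : ψ x = q := by
    rw [hx, hψ, Psh_hom_x0, ← hR, hxR, hq]
    group
  have e2 : ψ' x = (x * a) * x * (x * a)⁻¹ := by
    have h := Psh_hom_x0 k n (x * a * x⁻¹) (b * x⁻¹)
    rw [← hψ', ← hx, ← hR, hxR] at h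
    rw [h]
    group
  have ea : ψ a = q⁻¹ * a * q := Psh_hom_a k n _ _
  have eb : ψ b = b * q := Psh_hom_b k n _ _
  have ea' : ψ' a = x * a * x⁻¹ := Psh_hom_a k n _ _
  have eb' : ψ' b = b * x⁻¹ := Psh_hom_b k n _ _
  have e3 : ψ' q = x := by
    rw [hq, map_mul, map_mul, map_inv, e2, ea']
    group
  have c1 : ψ.comp ψ' = MonoidHom.id _ := by
    apply Psh_ext
    · change ψ (ψ' a) = a
      rw [ea', map_mul, map_mul, map_inv, e1, ea]
      group
    · change ψ (ψ' b) = b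
      rw [eb', map_mul, map_inv, e1, eb]
      group
    · intro i hi
      change ψ (ψ' (ga i)) = ga i
      rw [hψ', Psh_hom_a' _ _ _ _ _ hi, hψ, Psh_hom_a' _ _ _ _ _ hi]
    · intro i hi
      change ψ (ψ' (gb i)) = gb i
      rw [hψ', Psh_hom_b' _ _ _ _ _ hi, hψ, Psh_hom_b' _ _ _ _ _ hi]
    · intro j
      change ψ (ψ' (gx j)) = gx j
      rw [hψ', Psh_hom_x, hψ, Psh_hom_x]
  have c2 : ψ'.comp ψ = MonoidHom.id _ := by
    apply Psh_ext
    · change ψ' (ψ a) = a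
      rw [ea, map_mul, map_mul, map_inv, e3, ea']
      group
    · change ψ' (ψ b) = b
      rw [eb, map_mul, e3, eb']
      group
    · intro i hi
      change ψ' (ψ (ga i)) = ga i
      rw [hψ, Psh_hom_a' _ _ _ _ _ hi, hψ', Psh_hom_a' _ _ _ _ _ hi]
    · intro i hi
      change ψ' (ψ (gb i)) = gb i
      rw [hψ, Psh_hom_b' _ _ _ _ _ hi, hψ', Psh_hom_b' _ _ _ _ _ hi]
    · intro j
      change ψ' (ψ (gx j)) = gx j
      rw [hψ, Psh_hom_x, hψ', Psh_hom_x]
  refine ⟨MonoidHom.toMulEquiv ψ ψ' c2 c1, ⟨?_, fun j => ⟨j, ?_⟩⟩, ?_⟩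
  · change IsConj (ψ x) x
    rw [e1, hq]
    have h := isConj_self_conj a⁻¹ x
    rwa [inv_inv] at h
  · change IsConj (ψ (gx j)) (gx j)
    rw [hψ, Psh_hom_x]
  · change ψ b = _
    rw [eb, hq]
    group

/-- **PSH**. -/
theorem thm_Psh (hA : St_Aut) : St_Psh := by
  intro g n i
  obtain _ | k := g
  · exact i.elim0
  -- the first handle
  have hb : NS (gb 0 : F (k + 1) n) := by
    have h1 := Reach.of_step (Step.rot' [] (Psh_tl k n) (ga 0 : F (k + 1) n) (gb 0))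
    simp only [List.nil_append] at h1
    rw [← Psh_stdL] at h1
    obtain ⟨φ, hφ, -, hL, -⟩ := hA (k + 1) n _ _ (Psh_MR (stdM (k + 1) n) h1)
    rw [Psh_stdL, List.map_cons, List.cons.injEq, Prod.map_apply, Prod.mk.injEq] at hL
    have h2 : NS (φ (ga 0)) := ⟨φ, hφ, 0, rfl⟩
    rw [hL.1.1] at h2
    exact Psh_NS_conj (ga 0) h2
  have h0 : NS (ga 0 * x0 (k + 1) n : F (k + 1) n) := by
    obtain ⟨ψ, hψ, hψb⟩ := Psh_auto k n
    have h1 := Reach.of_step (Step.rot [] (Psh_tl k n) (ga 0 : F (k + 1) n) (gb 0))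
    simp only [List.nil_append] at h1
    rw [← Psh_stdL] at h1
    obtain ⟨φ, hφ, hx, hL, -⟩ := hA (k + 1) n _ _ (Psh_MR (stdM (k + 1) n) h1)
    rw [Psh_stdL, List.map_cons, List.cons.injEq, Prod.map_apply, Prod.mk.injEq] at hL
    have h2 := Psh_NS_map hφ (Psh_NS_map hψ hb)
    rw [hψb, map_mul, map_mul, map_mul, map_inv, hx, hL.1.1, hL.1.2] at h2
    have e : (gb 0 * ga 0 * (gb 0)⁻¹ * ((gb 0)⁻¹)⁻¹ * x0 (k + 1) n * (gb 0)⁻¹ : F (k + 1) n) =
        gb 0 * (ga 0 * x0 (k + 1) n) * (gb 0)⁻¹ := by group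
    rw [e] at h2
    exact Psh_NS_conj (gb 0) h2
  -- the others
  have hmem : ((ga i, gb i) : F (k + 1) n × F (k + 1) n) ∈ stdL (k + 1) n := by
    unfold stdL
    exact List.mem_ofFn.2 ⟨i, rfl⟩
  obtain ⟨s, t, hst⟩ := List.append_of_mem hmem
  obtain ⟨s', hs'⟩ := Psh_front ((ga i, gb i) : F (k + 1) n × F (k + 1) n) s t
  rw [← hst] at hs'
  obtain ⟨φ, hφ, hx, hL, -⟩ := hA (k + 1) n _ _ (Psh_MR (stdM (k + 1) n) hs')
  rw [Psh_stdL, List.map_cons, List.cons_append, List.cons.injEq, Prod.map_apply,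
    Prod.mk.injEq] at hL
  have h3 := Psh_NS_map hφ h0
  rwa [map_mul, hL.1.1, hx] at h3

end Pool.Agent.LGP
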