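import Pool.Agent.LGP.Defs

/-!
# LGP, module Rnk: the matrices `X * A` form a space of dimension at most `r * rank A`
-/

set_option autoImplicit false

namespace Pool.Agent.LGP

open Matrix Module Helper12.Sc

/-- the matrix with the given rows -/
private def RnkJ (r : ℕ) (A : Matrix (Fin r) (Fin r) ℂ) :
    (Fin r → LinearMap.range (Matrix.vecMulLinear A)) →ₗ[ℂ] Matrix (Fin r) (Fin r) ℂ where
  toFun f := Matrix.of fun i j => (f i : Fin r → ℂ) j
  map_add' f g := by
    ext i j
    rfl
  map_smul' c f := by
    ext i j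
    rfl

/-- the space of the matrices `X * A` -/
theorem thm_Rnk : St_Rnk := by
  intro r A
  have h1 : LinearMap.range (LinearMap.mulRight ℂ A) ≤ LinearMap.range (RnkJ r A) := by
    rintro _ ⟨X, rfl⟩
    refine ⟨fun i => ⟨Matrix.vecMulLinear A (X i), ⟨X i, rfl⟩⟩, ?_⟩
    ext i j
    rfl
  have h2 : finrank ℂ (LinearMap.range (Matrix.vecMulLinear A)) = A.rank := by
    rw [← Matrix.rank_transpose A, Matrix.rank, Matrix.mulVecLin_transpose]
  calc finrank ℂ (LinearMap.range (LinearMap.mulRight ℂ A))
      ≤ finrank ℂ (LinearMap.range (RnkJ r A)) := Submodule.finrank_mono h1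
    _ ≤ finrank ℂ (Fin r → LinearMap.range (Matrix.vecMulLinear A)) := LinearMap.finrank_range_le _
    _ = r * A.rank := by
        rw [Module.finrank_pi_fintype]
        simp [h2]

end Pool.Agent.LGP
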