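import Pool.Agent.LGP.WVec
import Pool.Agent.LGP.Rnk
import Pool.Agent.LGP.Fin
import Pool.Agent.LGP.Jac
import Pool.Agent.LGP.Psh
import Pool.Agent.HZ.Root
import Pool.Agent.HZ.RedB

/-!
# Punctured surfaces of large genus: the theorem

Helper35, for MP_0707f5_ag.
-/

set_option autoImplicit false

namespace Pool.Agent.LGP

open Matrix Module Helper12.Sc
open SpQ (Hd WStep WReach WExt Good bare IsSpinStructure IsOrientationPreserving)

/-! ### one pair of representations -/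

section pair
variable {r : ℕ} {G : Type} [Group G]

/-- left multiplication by a pair of representations -/
noncomputable def prR (ρ₁ ρ₂ : G →* GL (Fin r) ℂ) :
    G →* Module.End ℂ (Matrix (Fin r) (Fin r) ℂ × Matrix (Fin r) (Fin r) ℂ) where
  toFun x := (LinearMap.mulLeft ℂ (ρ₁ x : Matrix (Fin r) (Fin r) ℂ)).prodMap
    (LinearMap.mulLeft ℂ (ρ₂ x : Matrix (Fin r) (Fin r) ℂ))
  map_one' := by
    apply LinearMap.ext
    rintro ⟨X, Y⟩
    simp
  map_mul' x y := by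
    apply LinearMap.ext
    rintro ⟨X, Y⟩
    simp [mul_assoc]

theorem prR_apply (ρ₁ ρ₂ : G →* GL (Fin r) ℂ) (x : G) (X Y : Matrix (Fin r) (Fin r) ℂ) :
    prR ρ₁ ρ₂ x (X, Y) = ((ρ₁ x : Matrix (Fin r) (Fin r) ℂ) * X,
      (ρ₂ x : Matrix (Fin r) (Fin r) ℂ) * Y) := rfl

/-- the difference of the traces -/
noncomputable def dtr (r : ℕ) :
    (Matrix (Fin r) (Fin r) ℂ × Matrix (Fin r) (Fin r) ℂ) →ₗ[ℂ] ℂ :=
  (Matrix.traceLinearMap (Fin r) ℂ ℂ).comp (LinearMap.fst ℂ _ _) -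
    (Matrix.traceLinearMap (Fin r) ℂ ℂ).comp (LinearMap.snd ℂ _ _)

theorem dtr_apply (X Y : Matrix (Fin r) (Fin r) ℂ) : dtr r (X, Y) = X.trace - Y.trace := rfl

theorem finrank_cyc_le (ρ₁ ρ₂ : G →* GL (Fin r) ℂ) (A : Matrix (Fin r) (Fin r) ℂ)
    (H : Subgroup G) : finrank ℂ (cyc (prR ρ₁ ρ₂) (A, A) H) ≤ 2 * (r * A.rank) := by
  let N := LinearMap.range (LinearMap.mulRight ℂ A)
  let f : (N × N) →ₗ[ℂ] (Matrix (Fin r) (Fin r) ℂ × Matrix (Fin r) (Fin r) ℂ) :=
    N.subtype.prodMap N.subtype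
  have h1 : cyc (prR ρ₁ ρ₂) (A, A) H ≤ LinearMap.range f := by
    unfold cyc
    rw [Submodule.span_le]
    rintro _ ⟨x, -, rfl⟩
    exact ⟨(⟨(ρ₁ x : Matrix (Fin r) (Fin r) ℂ) * A, ⟨_, rfl⟩⟩,
      ⟨(ρ₂ x : Matrix (Fin r) (Fin r) ℂ) * A, ⟨_, rfl⟩⟩), rfl⟩
  have h2 := Submodule.finrank_mono h1
  have h3 : finrank ℂ (LinearMap.range f) ≤ finrank ℂ (N × N) := LinearMap.finrank_range_le f
  rw [Module.finrank_prod] at h3
  have h4 : finrank ℂ N ≤ r * A.rank := thm_Rnk r A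
  omega

end pair

theorem DMR_of_reach {Γ : Type} [Group Γ] {k : ℕ} {L L' : List (Hd Γ k)} (M : List Γ)
    (h : WReach L L') : DMR (L, M) (L', M) := by
  induction h with
  | refl => exact Relation.ReflTransGen.refl
  | tail _ hs ih => exact ih.tail (DMv.st _ _ M hs)

theorem closure_dstd {g n k : ℕ} (τ : Fin g → ZMod k × ZMod k) :
    SpQ.E (dstd (n := n) τ) ⊔ Subgroup.closure {y | y ∈ stdM g n} = ⊤ := by
  rw [eq_top_iff, ← FreeGroup.closure_range_of, Subgroup.closure_le]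
  rintro _ ⟨s, rfl⟩
  rcases s with ⟨i, e⟩ | j
  · refine (le_sup_left : SpQ.E (dstd (n := n) τ) ≤ _) ?_
    have hmem : ((ga i, gb i), τ i) ∈ dstd (n := n) τ := by
      unfold dstd
      rw [List.mem_ofFn']
      exact ⟨i, rfl⟩
    cases e
    · exact SpQ.fst_mem_E hmem
    · exact SpQ.snd_mem_E hmem
  · refine (le_sup_right : Subgroup.closure {y | y ∈ stdM g n} ≤ _) ?_
    apply Subgroup.subset_closure
    show FreeGroup.of (Sum.inr j) ∈ stdM g n
    unfold stdM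
    rw [List.mem_ofFn']
    exact ⟨j, rfl⟩

theorem eq_zero_of_rank {r : ℕ} (A : Matrix (Fin r) (Fin r) ℂ) (h : A.rank = 0) : A = 0 := by
  unfold Matrix.rank at h
  rw [Submodule.finrank_eq_zero, LinearMap.range_eq_bot] at h
  ext i j
  have h1 := congrFun (LinearMap.congr_fun h (Pi.single j 1)) i
  simpa using h1

/-- equality of the traces on the first components implies equality on the group -/
theorem pair_eq (hC : St_Wcyc) {g n k r : ℕ} (τ : Fin g → ZMod k × ZMod k)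
    (ρ₁ ρ₂ : F g n →* GL (Fin r) ℂ) (A : Matrix (Fin r) (Fin r) ℂ) (hA : A ≠ 0)
    (hg : 4 * r * A.rank ≤ g + 1)
    (hT : ∀ (L : List (Hd (F g n) k)) (M : List (F g n)), DMR (dstd τ, stdM g n) (L, M) →
      ∀ x ∈ SpQ.fc L 0, ((ρ₁ x : Matrix (Fin r) (Fin r) ℂ) * A).trace =
        ((ρ₂ x : Matrix (Fin r) (Fin r) ℂ) * A).trace) (x : F g n) :
    ((ρ₁ x : Matrix (Fin r) (Fin r) ℂ) * A).trace =
      ((ρ₂ x : Matrix (Fin r) (Fin r) ℂ) * A).trace := by
  have hr : 0 < r := by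
    rcases Nat.eq_zero_or_pos r with rfl | h
    · exact absurd (Subsingleton.elim A 0) hA
    · exact h
  have hrank : 0 < A.rank := by
    rcases Nat.eq_zero_or_pos A.rank with h | h
    · exact absurd (eq_zero_of_rank A h) hA
    · exact h
  have hd : 0 < r * A.rank := Nat.mul_pos hr hrank
  have hg' : 4 * (r * A.rank) ≤ g + 1 := by rwa [← mul_assoc]
  have hlen : (dstd (n := n) τ).length = g := by simp [dstd]
  obtain ⟨h, L, M, hDMR, hgood, hcyc⟩ := hC ℂ _ (F g n) k (prR ρ₁ ρ₂) (A, A) (dstd τ)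
    (stdM g n) (closure_dstd τ) (by
      have := finrank_cyc_le ρ₁ ρ₂ A ⊤
      rw [hlen]
      omega)
  obtain ⟨⟨⟨γ, δ⟩, ⟨p, q⟩⟩, hz, hp⟩ := SpQ.exists_zero h
  simp only at hp
  subst hp
  set h' : Hd (F g n) k := ((γ, δ), (0, q)) with hh'
  have hDMR' : DMR (dstd τ, stdM g n) (h' :: L, M) := by
    refine Relation.ReflTransGen.trans hDMR (DMR_of_reach M ?_)
    simpa using hz.right L
  have hlenL : L.length + 1 = g := by
    have key : ∀ t t' : List (Hd (F g n) k) × List (F g n), DMR t t' →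
        t'.1.length = t.1.length := by
      intro t t' ht
      induction ht with
      | refl => rfl
      | tail _ hs ih =>
        rw [← ih]
        cases hs with
        | st L L' M h => exact h.length_eq
        | ab L a b y o M => simp
        | sw L P S y z => rfl
    have := key _ _ hDMR
    simpa [hlen] using this
  have hval : ∀ x ∈ SpQ.fc (h' :: L) 0, dtr r (prR ρ₁ ρ₂ x (A, A)) = 0 := by
    intro x hx
    rw [prR_apply, dtr_apply, hT _ _ hDMR' x hx, sub_self]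
  have hγ : γ ∈ SpQ.fc [h'] 0 := ⟨δ, q, WExt.refl _⟩
  have key := wvec (prR ρ₁ ρ₂) (A, A) L hgood (by
      have h1 := finrank_cyc_le ρ₁ ρ₂ A (SpQ.E L)
      omega) ((dtr r).comp (prR ρ₁ ρ₂ γ)) (by
      show dtr r (prR ρ₁ ρ₂ γ (A, A)) = 0
      exact hval γ (SpQ.fc_mono (L := h' :: L) (L' := [h']) (WExt.drop_right [h'] L) 0 hγ))
    (by
      intro z hz
      show dtr r (prR ρ₁ ρ₂ γ (prR ρ₁ ρ₂ z (A, A))) = 0
      rw [← Module.End.mul_apply, ← map_mul]
      have h1 := SpQ.fc_mul hγ hz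
      have e : (0 : ZMod k) + -1 + 1 = 0 := by ring
      rw [e] at h1
      exact hval _ h1)
  -- the functional vanishes on the whole cyclic module
  have hall : ∀ u ∈ cyc (prR ρ₁ ρ₂) (A, A) ⊤, dtr r (prR ρ₁ ρ₂ γ u) = 0 := by
    intro u hu
    rw [← hcyc] at hu
    have hu' : u ∈ Submodule.span ℂ ((fun x => prR ρ₁ ρ₂ x (A, A)) ''
      (SpQ.E L : Set (F g n))) := hu
    refine Submodule.span_induction (p := fun u _ => dtr r (prR ρ₁ ρ₂ γ u) = 0) ?_ ?_ ?_ ?_ hu'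
    · rintro _ ⟨y, hy, rfl⟩
      exact key y hy
    · rw [map_zero, map_zero]
    · intro a b _ _ ha hb
      rw [map_add, map_add, ha, hb, add_zero]
    · intro c a _ ha
      rw [map_smul, map_smul, ha, smul_zero]
  have h1 := hall (prR ρ₁ ρ₂ (γ⁻¹ * x) (A, A))
    (Submodule.subset_span ⟨γ⁻¹ * x, Subgroup.mem_top _, rfl⟩)
  rw [← Module.End.mul_apply, ← map_mul, mul_inv_cancel_left, prR_apply, dtr_apply] at h1
  exact sub_eq_zero.1 h1

/-! ### finiteness of the orbit -/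

theorem range_comp {g n r : ℕ} (ρ : F g n →* GL (Fin r) ℂ) (φ : MulAut (F g n)) :
    (ρ.comp φ.toMonoidHom).range = ρ.range := by
  ext x
  constructor
  · rintro ⟨y, rfl⟩
    exact ⟨φ y, rfl⟩
  · rintro ⟨y, rfl⟩
    refine ⟨φ.symm y, ?_⟩
    show ρ (φ (φ.symm y)) = ρ y
    rw [MulEquiv.apply_symm_apply]

theorem range_fg' {g n r : ℕ} (ρ : F g n →* GL (Fin r) ℂ) : (ρ.range).FG := by
  have hrange : Subgroup.closure (ρ '' Set.range (FreeGroup.of)) = ρ.range := by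
    rw [← MonoidHom.map_closure, FreeGroup.closure_range_of, MonoidHom.range_eq_map]
  rw [← hrange, Subgroup.fg_iff]
  exact ⟨_, rfl, (Set.finite_range _).image _⟩

/-- the traces of the simple loops with winding number zero -/
theorem finite_tr {g n k r : ℕ} (w : SurfaceGroup g → ZMod k) (ρ : F g n →* GL (Fin r) ℂ)
    (hρ : ∀ y : F g n, NS y → w (prj g n y) = 0 → Pool.Agent.HZ.Quasi (ρ y)) :
    {z : ℂ | ∃ y : F g n, (NS y ∧ w (prj g n y) = 0) ∧
      z = (ρ y : Matrix (Fin r) (Fin r) ℂ).trace}.Finite := by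
  obtain ⟨N, hN, hexp⟩ := Pool.Agent.HZ.exists_exponent ρ.range (range_fg' ρ)
  have hZ : {z : ℂ | z ^ N = 1}.Finite := by
    classical
    refine ((Polynomial.nthRoots N (1 : ℂ)).toFinset.finite_toSet).subset ?_
    intro z hz
    rw [Finset.mem_coe, Multiset.mem_toFinset, Polynomial.mem_nthRoots hN]
    exact hz
  refine (Pool.Agent.HZ.finite_traces_of_roots r _ hZ).subset ?_
  rintro _ ⟨y, ⟨h1, h2⟩, rfl⟩
  exact ⟨_, fun c hc => hexp (ρ y) ⟨y, rfl⟩ c hc (hρ y h1 h2 c hc), rfl⟩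

theorem wmain_tr (hB : St_Wbr) (hC : St_Wcyc) (g n k r : ℕ) (w : SurfaceGroup g → ZMod k)
    (ρ : F g n →* GL (Fin r) ℂ) (c : ℂ) (hk : 0 < k) (hw : IsSpinStructure k w)
    (hne : (ρ (x0 g n) : Matrix (Fin r) (Fin r) ℂ) ≠ c • 1)
    (hc : c = 0 ∨ Pool.Agent.HZ.Irr ρ.range)
    (hg : 4 * r * ((ρ (x0 g n) : Matrix (Fin r) (Fin r) ℂ) - c • 1).rank ≤ g + 1)
    (hTfin : {z : ℂ | ∃ y : F g n, (NS y ∧ w (prj g n y) = 0) ∧
      z = (ρ y : Matrix (Fin r) (Fin r) ℂ).trace}.Finite) :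
    {χ : F g n → ℂ | ∃ φ ∈ MC g n,
      χ = fun y => (ρ (φ y) : Matrix (Fin r) (Fin r) ℂ).trace}.Finite := by
  classical
  have : NeZero k := ⟨hk.ne'⟩
  set A : Matrix (Fin r) (Fin r) ℂ := (ρ (x0 g n) : Matrix (Fin r) (Fin r) ℂ) - c • 1 with hAdef
  have hA : A ≠ 0 := sub_ne_zero.2 hne
  set T : Set ℂ := {z : ℂ | ∃ y : F g n, (NS y ∧ w (prj g n y) = 0) ∧
      z = (ρ y : Matrix (Fin r) (Fin r) ℂ).trace} with hTdef
  have hpiece : ∀ τ : Fin g → ZMod k × ZMod k,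
      {χ : F g n → ℂ | ∃ φ ∈ MC g n, φ (x0 g n) = x0 g n ∧ wty w φ = τ ∧
        χ = fun y => (ρ (φ y) : Matrix (Fin r) (Fin r) ℂ).trace}.Finite := by
    intro τ
    let Λ : Set (F g n) := {y | ∃ (L : List (Hd (F g n) k)) (M : List (F g n)),
      DMR (dstd τ, stdM g n) (L, M) ∧ ∃ x ∈ SpQ.fc L 0, y = x ∨ y = x * x0 g n}
    obtain ⟨s, hs, hdet⟩ := thm_Fin g n r Λ
    have hfin : (Set.univ.pi fun _ : s => T).Finite := Set.Finite.pi fun _ => hTfin
    refine Set.Finite.of_finite_image (f := fun (χ : F g n → ℂ) (x : s) => χ x)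
      (hfin.subset ?_) ?_
    · rintro _ ⟨_, ⟨φ, hφ, hφ0, hτ, rfl⟩, rfl⟩ x _
      obtain ⟨L, M, hDMR, y, hy, hxy⟩ := hs x x.2
      rw [← hτ] at hDMR
      have h1 := hB g n k w hw φ hφ hφ0 L M hDMR y hy
      rcases hxy with hxy | hxy
      · refine ⟨φ x, ?_, rfl⟩
        rw [hxy]
        exact h1.1
      · refine ⟨φ x, ?_, rfl⟩
        rw [hxy]
        exact h1.2
    · rintro _ ⟨φ, hφ, hφ0, hτ, rfl⟩ _ ⟨ψ, hψ, hψ0, hτ', rfl⟩ h
      have h1 := hdet (ρ.comp φ.toMonoidHom) (ρ.comp ψ.toMonoidHom) (fun y hy =>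
        congrFun h ⟨y, hy⟩)
      have h2 := pair_eq hC τ (ρ.comp φ.toMonoidHom) (ρ.comp ψ.toMonoidHom) A hA hg (by
        intro L M hDMR x hx
        have e1 := h1 x ⟨L, M, hDMR, x, hx, Or.inl rfl⟩
        have e2 := h1 (x * x0 g n) ⟨L, M, hDMR, x, hx, Or.inr rfl⟩
        have key : ∀ θ : MulAut (F g n), θ (x0 g n) = x0 g n →
            (((ρ.comp θ.toMonoidHom) x : GL (Fin r) ℂ) * A : Matrix (Fin r) (Fin r) ℂ).trace =
            ((ρ.comp θ.toMonoidHom) (x * x0 g n) : Matrix (Fin r) (Fin r) ℂ).trace -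
              c * ((ρ.comp θ.toMonoidHom) x : Matrix (Fin r) (Fin r) ℂ).trace := by
          intro θ hθ
          have e3 : ((ρ.comp θ.toMonoidHom) (x * x0 g n) : GL (Fin r) ℂ) =
              (ρ.comp θ.toMonoidHom) x * ρ (x0 g n) := by
            rw [map_mul]
            congr 1
            show ρ (θ (x0 g n)) = _
            rw [hθ]
          rw [e3, hAdef, mul_sub, Matrix.trace_sub, Units.val_mul, Matrix.mul_smul,
            Matrix.trace_smul, mul_one, smul_eq_mul]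
        rw [key φ hφ0, key ψ hψ0, e1, e2])
      rcases hc with hc | hirr
      · funext y
        have h3 := h2 (y * (x0 g n)⁻¹)
        have key : ∀ θ : MulAut (F g n), θ (x0 g n) = x0 g n →
            (((ρ.comp θ.toMonoidHom) (y * (x0 g n)⁻¹) : GL (Fin r) ℂ) * A :
              Matrix (Fin r) (Fin r) ℂ).trace =
            (ρ (θ y) : Matrix (Fin r) (Fin r) ℂ).trace := by
          intro θ hθ
          have e3 : ((ρ.comp θ.toMonoidHom) (y * (x0 g n)⁻¹) : GL (Fin r) ℂ) =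
              ρ (θ y) * (ρ (x0 g n))⁻¹ := by
            rw [map_mul, map_inv]
            show ρ (θ y) * (ρ (θ (x0 g n)))⁻¹ = _
            rw [hθ]
          rw [e3, hAdef, hc, zero_smul, sub_zero, ← Units.val_mul, inv_mul_cancel_right]
        rw [key φ hφ0, key ψ hψ0] at h3
        exact h3
      · have h3 := thm_Jac (F g n) r (ρ.comp φ.toMonoidHom) (ρ.comp ψ.toMonoidHom) A A
          (by rw [range_comp]; exact hirr) (by rw [range_comp]; exact hirr) hA hA h2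
        funext y
        exact h3 y
  refine (Set.finite_iUnion hpiece).subset ?_
  rintro χ ⟨φ, hφ, rfl⟩
  obtain ⟨u, hu⟩ := isConj_iff.1 hφ.1
  rw [Set.mem_iUnion]
  refine ⟨wty w (MulAut.conj u * φ), MulAut.conj u * φ, Psh_mul_mem (Psh_conj_mem u) hφ, ?_, rfl,
    ?_⟩
  · rw [MulAut.mul_apply, MulAut.conj_apply]
    exact hu
  · funext y
    rw [MulAut.mul_apply, MulAut.conj_apply, map_mul, map_mul, map_inv, Units.val_mul,
      Units.val_mul, Matrix.trace_mul_comm, ← mul_assoc, ← Units.val_mul, inv_mul_cancel,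
      Units.val_one, one_mul]

theorem wmain (hB : St_Wbr) (hC : St_Wcyc) : St_Wmain := by
  intro g n k r w ρ c hk hw hne hc hg hρ
  exact wmain_tr hB hC g n k r w ρ c hk hw hne hc hg (finite_tr w ρ hρ)

end Pool.Agent.LGP
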