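import Pool.Agent.LGP.WDefs
import Pool.Agent.LGP.Psh
import Pool.Agent.LGP.Dsc

/-!
# LGP, module Wbr: first components of weight zero (helper14)
-/

set_option autoImplicit false

namespace Pool.Agent.LGP

open Helper12.Sc Helper12.Sc.SurfaceGroup
open SpQ (Hd WStep WReach WExt Good bare IsSpinStructure IsOrientationPreserving)

/-- a step of decorated tuples gives a step of bare tuples -/
theorem Wbr_bare_step {Γ : Type} [Group Γ] {k : ℕ} {t t' : List (Hd Γ k) × List Γ}
    (h : DMv t t') : Mv (bare t.1, t.2) (bare t'.1, t'.2) := by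
  cases h with
  | st L L' M h => exact Mv.st _ _ _ (SpQ.step_bare h)
  | ab L a b y o M =>
    have := Mv.ab (bare L) a b y M
    simpa [bare] using this
  | sw L P S y z => exact Mv.sw _ _ _ _ _

theorem Wbr_bare {Γ : Type} [Group Γ] {k : ℕ} {t t' : List (Hd Γ k) × List Γ}
    (h : DMR t t') : MR (bare t.1, t.2) (bare t'.1, t'.2) := by
  induction h with
  | refl => exact Relation.ReflTransGen.refl
  | tail _ hs ih => exact ih.tail (Wbr_bare_step hs)

theorem Wbr_bare_dstd {g n k : ℕ} (τ : Fin g → ZMod k × ZMod k) :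
    bare (dstd (n := n) τ) = stdL g n := by
  unfold bare dstd stdL
  rw [List.map_ofFn]
  rfl

theorem Wbr_reach {Γ : Type} [Group Γ] {k : ℕ} {L L' : List (Hd Γ k)} (M : List Γ)
    (h : WReach L L') : DMR (L, M) (L', M) := by
  induction h with
  | refl => exact Relation.ReflTransGen.refl
  | tail _ hs ih => exact Relation.ReflTransGen.tail ih (DMv.st _ _ M hs)

theorem Wbr_prj_x0 (g n : ℕ) : prj g n (x0 g n) = 1 := by
  rw [Dsc_prj, Dsc_k_x0, map_inv, inv_eq_one]
  exact PresentedGroup.one_of_mem (Set.mem_singleton _)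

/-- the image in the closed surface is a decorated list and the punctures die -/
theorem Wbr_inv {g n k : ℕ} {w : SurfaceGroup g → ZMod k} (hw : IsSpinStructure k w)
    (f : F g n →* SurfaceGroup g) {t t' : List (Hd (F g n) k) × List (F g n)} (h : DMv t t')
    (h1 : ∃ ψ : SurfaceGroup g ≃* SurfaceGroup g, IsOrientationPreserving ψ ∧
      SpQ.mapH f t.1 = SpQ.decor w ψ) (h2 : ∀ y ∈ t.2, f y = 1) :
    (∃ ψ : SurfaceGroup g ≃* SurfaceGroup g, IsOrientationPreserving ψ ∧
      SpQ.mapH f t'.1 = SpQ.decor w ψ) ∧ ∀ y ∈ t'.2, f y = 1 := by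
  obtain ⟨ψ, hψ, hL⟩ := h1
  cases h with
  | st L L' M h =>
    have h3 := SpQ.mapH_step f h
    simp only at hL
    rw [hL] at h3
    exact ⟨SpQ.step_decor hw hψ h3, h2⟩
  | ab L a b y o M =>
    have hy : f y = 1 := h2 y List.mem_cons_self
    refine ⟨⟨ψ, hψ, ?_⟩, ?_⟩
    · rw [← hL]
      unfold SpQ.mapH
      simp [hy]
    · intro z hz
      rcases List.mem_cons.1 hz with rfl | hz
      · simp only [map_mul, map_inv, hy]
        group
      · exact h2 z (List.mem_cons_of_mem _ hz)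
  | sw L P S y z =>
    refine ⟨⟨ψ, hψ, hL⟩, ?_⟩
    have hy : f y = 1 := h2 y (by simp)
    have hz : f z = 1 := h2 z (by simp)
    intro x hx
    rcases List.mem_append.1 hx with hx | hx
    · exact h2 x (List.mem_append_left _ hx)
    · rcases List.mem_cons.1 hx with rfl | hx
      · exact hz
      · rcases List.mem_cons.1 hx with rfl | hx
        · simp [hy, hz]
        · exact h2 x (by simp [hx])

theorem Wbr_inv' {g n k : ℕ} {w : SurfaceGroup g → ZMod k} (hw : IsSpinStructure k w)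
    (f : F g n →* SurfaceGroup g) {t t' : List (Hd (F g n) k) × List (F g n)} (h : DMR t t')
    (h1 : ∃ ψ : SurfaceGroup g ≃* SurfaceGroup g, IsOrientationPreserving ψ ∧
      SpQ.mapH f t.1 = SpQ.decor w ψ) (h2 : ∀ y ∈ t.2, f y = 1) :
    (∃ ψ : SurfaceGroup g ≃* SurfaceGroup g, IsOrientationPreserving ψ ∧
      SpQ.mapH f t'.1 = SpQ.decor w ψ) ∧ ∀ y ∈ t'.2, f y = 1 := by
  induction h with
  | refl => exact ⟨h1, h2⟩
  | tail _ hs ih => exact Wbr_inv hw f hs ih.1 ih.2

theorem thm_Wbr (hD : St_Dsc) (hA : St_Aut) (hP : St_Psh) : St_Wbr := by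
  intro g n k w hw φ hφ hx0 L M hLM x hx
  obtain ⟨y, q, junk, hr⟩ := hx
  -- the reachable tuple
  have hR : DMR (dstd (wty w φ), stdM g n) (junk ++ [((x, y), (0, q))], M) :=
    Relation.ReflTransGen.trans hLM (Wbr_reach M hr)
  -- the mapping class
  have hB := Wbr_bare hR
  simp only at hB
  rw [Wbr_bare_dstd] at hB
  obtain ⟨θ, hθ, hθx, hθL, -⟩ := hA g n _ _ hB
  have hmem : ((x, y) : F g n × F g n) ∈ bare (junk ++ [((x, y), ((0 : ZMod k), q))]) := by
    unfold bare
    simp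
  rw [← hθL] at hmem
  obtain ⟨p, hp, hpe⟩ := List.mem_map.1 hmem
  unfold stdL at hp
  obtain ⟨i, rfl⟩ := (List.mem_ofFn' _ _).1 hp
  have hxi : x = θ (ga i) := (congrArg Prod.fst hpe).symm
  have hNS1 : NS (φ x) := by
    rw [hxi]
    exact Psh_NS_map hφ ⟨θ, hθ, i, rfl⟩
  have hNS2 : NS (φ (x * x0 g n)) := by
    have e : x * x0 g n = θ (ga i * x0 g n) := by rw [map_mul, hθx, ← hxi]
    rw [e]
    exact Psh_NS_map hφ (Psh_NS_map hθ (hP g n i))
  -- the weight
  obtain ⟨ψ, hψ, hψe⟩ := hD g n φ hφ hx0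
  have h1 : SpQ.mapH ((prj g n).comp φ.toMonoidHom) (dstd (n := n) (wty w φ)) =
      SpQ.decor w ψ := by
    unfold SpQ.mapH dstd SpQ.decor
    rw [List.map_ofFn]
    congr 1
    funext j
    have ea : prj g n (φ (ga j)) = ψ (a j) := by
      rw [hψe]
      congr 1
    have eb : prj g n (φ (gb j)) = ψ (b j) := by
      rw [hψe]
      congr 1
    show ((prj g n (φ (ga j)), prj g n (φ (gb j))),
      (w (prj g n (φ (ga j))), w (prj g n (φ (gb j))))) = _
    rw [ea, eb]
  have h2 : ∀ z ∈ stdM g n, ((prj g n).comp φ.toMonoidHom) z = 1 := by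
    intro z hz
    unfold stdM at hz
    obtain ⟨j, rfl⟩ := (List.mem_ofFn' _ _).1 hz
    show prj g n (φ (gx j)) = 1
    rw [hψe, map_eq_one_iff ψ ψ.injective]
    unfold prj gx
    rw [FreeGroup.lift_apply_of]
  obtain ⟨⟨ψ', hψ', he⟩, -⟩ := Wbr_inv' hw _ hR ⟨ψ, hψ, h1⟩ h2
  have he' : SpQ.mapH ((prj g n).comp φ.toMonoidHom) junk ++
      ((prj g n (φ x), prj g n (φ y)), ((0 : ZMod k), q)) :: [] = SpQ.decor w ψ' := by
    rw [← he]
    unfold SpQ.mapH
    simp
  obtain ⟨j, -, hj⟩ := SpQ.decor_get he'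
  simp only [Prod.mk.injEq] at hj
  obtain ⟨⟨hj1, -⟩, hj2, -⟩ := hj
  have hW : w (prj g n (φ x)) = 0 := by rw [hj1, ← hj2]
  refine ⟨⟨hNS1, hW⟩, hNS2, ?_⟩
  rw [map_mul, map_mul, hx0, Wbr_prj_x0, mul_one]
  exact hW

end Pool.Agent.LGP
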