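import Pool.Agent.LGP.Defs
import Pool.Agent.Helper55.PwAlg

/-!
# Punctured surfaces of large genus: essential handles

Helper35, for MP_0707f5_ag.
-/

set_option autoImplicit false

namespace Pool.Agent.LGP

open Module Helper12.Sc

section group
variable {Γ : Type} [Group Γ]

theorem En_append (L L' : List (Γ × Γ)) : En (L ++ L') = En L ⊔ En L' := by
  unfold En
  rw [entries_append, Subgroup.closure_union]

theorem En_cons (h : Γ × Γ) (L : List (Γ × Γ)) : En (h :: L) = En [h] ⊔ En L := by
  rw [← En_append]
  rfl

theorem En_nil : En ([] : List (Γ × Γ)) = ⊥ := by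
  unfold En
  rw [entries_nil]
  exact Subgroup.closure_empty

theorem En_le {X : List (Γ × Γ)} {H : Subgroup Γ} :
    En X ≤ H ↔ ∀ h ∈ X, h.1 ∈ H ∧ h.2 ∈ H := by
  unfold En
  rw [Subgroup.closure_le]
  constructor
  · intro hh h hX
    exact ⟨hh ⟨h, hX, Or.inl rfl⟩, hh ⟨h, hX, Or.inr rfl⟩⟩
  · rintro hh z ⟨h, hX, hz⟩
    rcases hz with rfl | rfl
    · exact (hh h hX).1
    · exact (hh h hX).2

theorem fst_mem_En {X : List (Γ × Γ)} {h : Γ × Γ} (hh : h ∈ X) : h.1 ∈ En X :=
  (En_le.1 le_rfl h hh).1

theorem snd_mem_En {X : List (Γ × Γ)} {h : Γ × Γ} (hh : h ∈ X) : h.2 ∈ En X :=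
  (En_le.1 le_rfl h hh).2

theorem En_mono {X Y : List (Γ × Γ)} (h : ∀ p ∈ X, p ∈ Y) : En X ≤ En Y :=
  En_le.2 fun p hp => ⟨fst_mem_En (h p hp), snd_mem_En (h p hp)⟩

theorem En_perm {X Y : List (Γ × Γ)} (h : X.Perm Y) : En X = En Y :=
  le_antisymm (En_mono fun p hp => h.mem_iff.1 hp) (En_mono fun p hp => h.mem_iff.2 hp)

theorem Reach.En_eq {X Y : List (Γ × Γ)} (h : Reach X Y) : En Y = En X := h.closure_eq

theorem En_pair_le {p q : Γ × Γ} {H : Subgroup Γ} (h1 : p.1 ∈ H ∧ p.2 ∈ H)
    (h2 : q.1 ∈ H ∧ q.2 ∈ H) : En [p, q] ≤ H := by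
  rw [En_le]
  intro h hh
  simp only [List.mem_cons, List.not_mem_nil, or_false] at hh
  rcases hh with rfl | rfl
  · exact h1
  · exact h2

theorem mem_word {H : Subgroup Γ} {x y : Γ} (h : x = y) (hy : y ∈ H) : x ∈ H := h ▸ hy

end group

section stb
variable {K U Γ : Type} [Field K] [AddCommGroup U] [Module K U] [Group Γ]
  [FiniteDimensional K U]

/-- the stabiliser of a subspace -/
def stb (R : Γ →* Module.End K U) (S : Submodule K U) : Subgroup Γ where
  carrier := {x | ∀ s ∈ S, R x s ∈ S}
  one_mem' := by
    intro s hs
    rw [map_one]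
    exact hs
  mul_mem' := by
    intro x y hx hy s hs
    rw [map_mul]
    exact hx _ (hy s hs)
  inv_mem' := by
    intro x hx s hs
    have hx' : ∀ s ∈ S, R x s ∈ S := hx
    have hinv : ∀ u : U, R x⁻¹ (R x u) = u := by
      intro u
      rw [← Module.End.mul_apply, ← map_mul, inv_mul_cancel, map_one]
      rfl
    let φ : S →ₗ[K] S := (R x).restrict hx'
    have hφ : Function.Injective φ := by
      intro a b hab
      apply Subtype.ext
      have h3 : R x (a : U) = R x (b : U) := congrArg Subtype.val hab
      rw [← hinv a, h3, hinv b]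
    obtain ⟨t, ht⟩ := (LinearMap.injective_iff_surjective.1 hφ) ⟨s, hs⟩
    have h1 : R x (t : U) = s := congrArg Subtype.val ht
    rw [← h1, hinv]
    exact t.2

theorem mem_stb {R : Γ →* Module.End K U} {S : Submodule K U} {x : Γ} :
    x ∈ stb R S ↔ ∀ s ∈ S, R x s ∈ S := Iff.rfl

variable (R : Γ →* Module.End K U) (w : U)

omit [FiniteDimensional K U] in
theorem self_mem_cyc (H : Subgroup Γ) : w ∈ cyc R w H := by
  have h1 : R 1 w = w := by
    rw [map_one]
    rfl
  exact Submodule.subset_span ⟨1, H.one_mem, h1⟩

omit [FiniteDimensional K U] in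
theorem cyc_mono {H H' : Subgroup Γ} (h : H ≤ H') : cyc R w H ≤ cyc R w H' :=
  Submodule.span_mono (Set.image_mono h)

variable {R w}

theorem cyc_le {S : Submodule K U} (hw : w ∈ S) {H : Subgroup Γ} (h : H ≤ stb R S) :
    cyc R w H ≤ S := by
  unfold cyc
  rw [Submodule.span_le]
  rintro _ ⟨x, hx, rfl⟩
  exact h hx w hw

theorem le_stb_cyc (H : Subgroup Γ) : H ≤ stb R (cyc R w H) := by
  intro x hx s hs
  have hs' : s ∈ Submodule.span K ((fun x => R x w) '' (H : Set Γ)) := hs
  refine Submodule.span_induction (p := fun s _ => R x s ∈ cyc R w H) ?_ ?_ ?_ ?_ hs'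
  · rintro _ ⟨y, hy, rfl⟩
    show R x (R y w) ∈ _
    rw [← Module.End.mul_apply, ← map_mul]
    exact Submodule.subset_span ⟨x * y, H.mul_mem hx hy, rfl⟩
  · rw [map_zero]
    exact Submodule.zero_mem _
  · intro a b _ _ ha hb
    rw [map_add]
    exact Submodule.add_mem _ ha hb
  · intro c a _ ha
    rw [map_smul]
    exact Submodule.smul_mem _ c ha

/-- a long list contains a handle which is not essential -/
theorem exists_noness (hw : w ≠ 0) (B : List (Γ × Γ))
    (hlen : finrank K (cyc R w (En B)) ≤ B.length) :
    ∃ s h t, B = s ++ h :: t ∧ cyc R w (En (s ++ t)) = cyc R w (En B) := by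
  by_contra hcon
  push Not at hcon
  have key : ∀ k ≤ B.length, ∃ C D : List (Γ × Γ), B.Perm (C ++ D) ∧ C.length = k ∧
      k + 1 ≤ finrank K (cyc R w (En C)) := by
    intro k
    induction k with
    | zero =>
      intro _
      refine ⟨[], B, List.Perm.refl _, rfl, ?_⟩
      have h1 : cyc R w (En ([] : List (Γ × Γ))) ≠ ⊥ := by
        intro h
        have := self_mem_cyc R w (En ([] : List (Γ × Γ)))
        rw [h, Submodule.mem_bot] at this
        exact hw this
      have h2 := Submodule.one_le_finrank_iff.2 h1
      simpa using h2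
    | succ k ih =>
      intro hk
      obtain ⟨C, D, hperm, hC, hdim⟩ := ih (by omega)
      have hEB : En B = En C ⊔ En D := by rw [En_perm hperm, En_append]
      have hD : D ≠ [] := by
        rintro rfl
        have := hperm.length_eq
        rw [List.append_nil] at this
        omega
      by_cases hst : ∀ h ∈ D, h.1 ∈ stb R (cyc R w (En C)) ∧ h.2 ∈ stb R (cyc R w (En C))
      · exfalso
        have h1 : En B ≤ stb R (cyc R w (En C)) := by
          rw [hEB]
          exact sup_le (le_stb_cyc _) (En_le.2 hst)
        have h2 : cyc R w (En B) ≤ cyc R w (En C) := cyc_le (self_mem_cyc _ _ _) h1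
        obtain ⟨h, hh⟩ := List.exists_mem_of_ne_nil D hD
        have hhB : h ∈ B := hperm.mem_iff.2 (List.mem_append_right _ hh)
        obtain ⟨s, t, rfl⟩ := List.append_of_mem hhB
        obtain ⟨D₁, D₂, rfl⟩ := List.append_of_mem hh
        have h3 : (s ++ t).Perm (C ++ D₁ ++ D₂) := by
          have e1 : (h :: (s ++ t)).Perm (s ++ h :: t) := List.perm_middle.symm
          have e2 : (h :: (C ++ D₁ ++ D₂)).Perm (C ++ (D₁ ++ h :: D₂)) := by
            rw [← List.append_assoc]
            exact List.perm_middle.symm
          exact ((e1.trans hperm).trans e2.symm).cons_inv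
        refine hcon s h t rfl (le_antisymm (cyc_mono _ _ ?_) (h2.trans (cyc_mono _ _ ?_)))
        · refine En_mono fun p hp => ?_
          rcases List.mem_append.1 hp with hp | hp
          · exact List.mem_append_left _ hp
          · exact List.mem_append_right _ (List.mem_cons_of_mem _ hp)
        · rw [En_perm h3, List.append_assoc, En_append]
          exact le_sup_left
      · push Not at hst
        obtain ⟨h, hh, hns⟩ := hst
        obtain ⟨D₁, D₂, rfl⟩ := List.append_of_mem hh
        refine ⟨C ++ [h], D₁ ++ D₂, ?_, ?_, ?_⟩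
        · refine hperm.trans ?_
          have e2 : (C ++ (D₁ ++ h :: D₂)).Perm (C ++ (h :: (D₁ ++ D₂))) :=
            List.Perm.append_left _ List.perm_middle
          simpa using e2
        · rw [List.length_append, List.length_singleton, hC]
        · have h1 : cyc R w (En C) ≤ cyc R w (En (C ++ [h])) := by
            apply cyc_mono
            rw [En_append]
            exact le_sup_left
          have h2 : cyc R w (En C) ≠ cyc R w (En (C ++ [h])) := by
            intro e
            have h3 : En (C ++ [h]) ≤ stb R (cyc R w (En C)) := by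
              rw [e]
              exact le_stb_cyc _
            exact hns (h3 (fst_mem_En (by simp))) (h3 (snd_mem_En (by simp)))
          have h3 := Submodule.finrank_lt_finrank_of_lt (lt_of_le_of_ne h1 h2)
          omega
  obtain ⟨C, D, hperm, hC, hdim⟩ := key B.length le_rfl
  have hD : D = [] := by
    have := hperm.length_eq
    rw [List.length_append, hC] at this
    exact List.eq_nil_of_length_eq_zero (by omega)
  subst hD
  rw [List.append_nil] at hperm
  rw [← En_perm hperm] at hdim
  omega

end stb

/-! ### the number of essential handles -/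

section ess
variable {K U Γ : Type} [Field K] [AddCommGroup U] [Module K U] [Group Γ]
variable (R : Γ →* Module.End K U) (w : U) (W : Submodule K U)

open Classical in
/-- `0` if the list generates `W`, `1` otherwise -/
noncomputable def st (C : List (Γ × Γ)) : ℕ := if cyc R w (En C) = W then 0 else 1

/-- the number of essential handles of the middle part of a list -/
noncomputable def es (pre : List (Γ × Γ)) : List (Γ × Γ) → List (Γ × Γ) → ℕ
  | [], _ => 0
  | h :: t, post => st R w W (pre ++ (t ++ post)) + es (pre ++ [h]) t post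

variable {R w W}

theorem st_zero {C : List (Γ × Γ)} : st R w W C = 0 ↔ cyc R w (En C) = W := by
  unfold st
  split
  · simp_all
  · simp_all

theorem st_one {C : List (Γ × Γ)} (h : cyc R w (En C) ≠ W) : st R w W C = 1 := by
  unfold st
  rw [if_neg h]

theorem st_congr {C D : List (Γ × Γ)} (h : En C = En D) : st R w W C = st R w W D := by
  unfold st
  rw [h]

theorem es_append (pre s t post : List (Γ × Γ)) :
    es R w W pre (s ++ t) post = es R w W pre s (t ++ post) + es R w W (pre ++ s) t post := by
  induction s generalizing pre with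
  | nil => simp [es]
  | cons h s ih =>
    rw [List.cons_append, es, es, ih, List.append_assoc, add_assoc]
    congr 2
    rw [List.append_assoc]
    rfl

theorem es_congr {pre pre' : List (Γ × Γ)} (s : List (Γ × Γ)) {post post' : List (Γ × Γ)}
    (h1 : En pre = En pre') (h2 : En post = En post') :
    es R w W pre s post = es R w W pre' s post' := by
  induction s generalizing pre pre' with
  | nil => rfl
  | cons h s ih =>
    rw [es, es]
    congr 1
    · apply st_congr
      rw [En_append, En_append, En_append, En_append, h1, h2]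
    · apply ih
      rw [En_append, En_append, h1]

/-- the count of a list with two marked neighbours -/
theorem es_two (s t : List (Γ × Γ)) (p q : Γ × Γ) :
    es R w W [] (s ++ p :: q :: t) [] = es R w W [] s (p :: q :: t) +
      (st R w W (s ++ q :: t) + st R w W (s ++ p :: t)) + es R w W (s ++ [p, q]) t [] := by
  rw [es_append]
  simp only [List.append_nil, List.nil_append]
  rw [es, es]
  simp only [List.append_nil, List.append_assoc, List.cons_append, List.nil_append]
  ring

/-- comparison of the counts of two lists which differ in two neighbours -/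
theorem es_two_congr (s t : List (Γ × Γ)) {p q p' q' : Γ × Γ} (h : En [p, q] = En [p', q']) :
    es R w W [] s (p :: q :: t) + es R w W (s ++ [p, q]) t [] =
      es R w W [] s (p' :: q' :: t) + es R w W (s ++ [p', q']) t [] := by
  have e1 : En (p :: q :: t) = En (p' :: q' :: t) := by
    have a1 : En (p :: q :: t) = En [p, q] ⊔ En t := by rw [← En_append]; rfl
    have a2 : En (p' :: q' :: t) = En [p', q'] ⊔ En t := by rw [← En_append]; rfl
    rw [a1, a2, h]
  have e2 : En (s ++ [p, q]) = En (s ++ [p', q']) := by rw [En_append, En_append, h]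
  rw [es_congr s rfl e1, es_congr t e2 rfl]

/-- the count with one marked handle -/
theorem es_one_congr (s t : List (Γ × Γ)) {p p' : Γ × Γ} (h : En [p] = En [p']) :
    es R w W [] (s ++ p :: t) [] = es R w W [] (s ++ p' :: t) [] := by
  rw [es_append, es_append]
  simp only [List.append_nil, List.nil_append]
  have e1 : En (p :: t) = En (p' :: t) := by rw [En_cons, En_cons p', h]
  rw [es_congr s rfl e1, es, es]
  simp only [List.append_nil]
  have e2 : En (s ++ [p]) = En (s ++ [p']) := by rw [En_append, En_append, h]
  rw [es_congr t e2 rfl]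

end ess

end Pool.Agent.LGP
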