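import Pool.Agent.LGP.Ess

/-!
# Punctured surfaces of large genus: all handles lie in a subgroup if the spare ones do

Helper35, for MP_0707f5_ag.
-/

set_option autoImplicit false

namespace Pool.Agent.LGP

open Module Helper12.Sc

variable {K U Γ : Type} [Field K] [AddCommGroup U] [Module K U] [Group Γ]

/-- the handle `p` is not essential in `s ++ p :: t`, which is reachable from `B` and has the
maximal number of essential handles -/
structure Gd (R : Γ →* Module.End K U) (w : U) (B s : List (Γ × Γ)) (p : Γ × Γ)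
    (t : List (Γ × Γ)) : Prop where
  rch : Reach B (s ++ p :: t)
  non : cyc R w (En (s ++ t)) = cyc R w (En B)
  mx : ∀ B', Reach B B' → es R w (cyc R w (En B)) [] B' [] ≤
    es R w (cyc R w (En B)) [] (s ++ p :: t) []

variable {R : Γ →* Module.End K U} {w : U} {B s t : List (Γ × Γ)} {p h : Γ × Γ}

theorem En_swap_r (a b c d : Γ) : En [(a, b), (c, d)] =
    En [(a * b * a⁻¹ * b⁻¹ * c * (a * b * a⁻¹ * b⁻¹)⁻¹,
      a * b * a⁻¹ * b⁻¹ * d * (a * b * a⁻¹ * b⁻¹)⁻¹), (a, b)] :=
  (Reach.En_eq (Reach.of_step (by simpa using Step.br [] [] a b c d))).symm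

theorem En_swap_l (a b c d : Γ) : En [(a, b), (c, d)] =
    En [(c, d), ((c * d * c⁻¹ * d⁻¹)⁻¹ * a * (c * d * c⁻¹ * d⁻¹),
      (c * d * c⁻¹ * d⁻¹)⁻¹ * b * (c * d * c⁻¹ * d⁻¹))] :=
  (Reach.En_eq (Reach.of_step (by simpa using Step.br' [] [] a b c d))).symm

/-- a handle which is not essential moves to the right -/
theorem Gd.right (hg : Gd R w B s p (h :: t)) :
    Gd R w B (s ++ [(p.1 * p.2 * p.1⁻¹ * p.2⁻¹ * h.1 * (p.1 * p.2 * p.1⁻¹ * p.2⁻¹)⁻¹,
      p.1 * p.2 * p.1⁻¹ * p.2⁻¹ * h.2 * (p.1 * p.2 * p.1⁻¹ * p.2⁻¹)⁻¹)]) p t := by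
  obtain ⟨a, b⟩ := p
  obtain ⟨c, d⟩ := h
  simp only
  set h' : Γ × Γ := (a * b * a⁻¹ * b⁻¹ * c * (a * b * a⁻¹ * b⁻¹)⁻¹,
      a * b * a⁻¹ * b⁻¹ * d * (a * b * a⁻¹ * b⁻¹)⁻¹) with hh'
  have hE : En [(a, b), (c, d)] = En [h', (a, b)] := En_swap_r a b c d
  have hr : Reach B (s ++ [h'] ++ (a, b) :: t) := by
    refine hg.rch.trans (Reach.of_step ?_)
    simpa [hh'] using Step.br s t a b c d
  have h1 := es_two (R := R) (w := w) (W := cyc R w (En B)) s t (a, b) (c, d)
  have h2 := es_two (R := R) (w := w) (W := cyc R w (En B)) s t h' (a, b)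
  have h3 := es_two_congr (R := R) (w := w) (W := cyc R w (En B)) s t hE
  have h4 : st R w (cyc R w (En B)) (s ++ (c, d) :: t) = 0 := st_zero.2 hg.non
  have h5 := hg.mx (s ++ h' :: (a, b) :: t) (by simpa using hr)
  have h6 : st R w (cyc R w (En B)) (s ++ h' :: t) = 0 := by omega
  refine ⟨hr, ?_, fun B' hB' => ?_⟩
  · have := st_zero.1 h6
    simpa using this
  · have h7 := hg.mx B' hB'
    have e : s ++ [h'] ++ (a, b) :: t = s ++ h' :: (a, b) :: t := by simp
    rw [e]
    omega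

/-- a handle which is not essential moves to the left -/
theorem Gd.left (hg : Gd R w B (s ++ [h]) p t) :
    Gd R w B s p (((p.1 * p.2 * p.1⁻¹ * p.2⁻¹)⁻¹ * h.1 * (p.1 * p.2 * p.1⁻¹ * p.2⁻¹),
      (p.1 * p.2 * p.1⁻¹ * p.2⁻¹)⁻¹ * h.2 * (p.1 * p.2 * p.1⁻¹ * p.2⁻¹)) :: t) := by
  obtain ⟨c, d⟩ := p
  obtain ⟨a, b⟩ := h
  simp only
  set h' : Γ × Γ := ((c * d * c⁻¹ * d⁻¹)⁻¹ * a * (c * d * c⁻¹ * d⁻¹),
      (c * d * c⁻¹ * d⁻¹)⁻¹ * b * (c * d * c⁻¹ * d⁻¹)) with hh'
  have hE : En [(a, b), (c, d)] = En [(c, d), h'] := En_swap_l a b c d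
  have hr0 : Reach B (s ++ (a, b) :: (c, d) :: t) := by simpa using hg.rch
  have hr : Reach B (s ++ (c, d) :: h' :: t) := by
    refine hr0.trans (Reach.of_step ?_)
    simpa [hh'] using Step.br' s t a b c d
  have h1 := es_two (R := R) (w := w) (W := cyc R w (En B)) s t (a, b) (c, d)
  have h2 := es_two (R := R) (w := w) (W := cyc R w (En B)) s t (c, d) h'
  have h3 := es_two_congr (R := R) (w := w) (W := cyc R w (En B)) s t hE
  have hnon : cyc R w (En (s ++ (a, b) :: t)) = cyc R w (En B) := by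
    have := hg.non
    simpa using this
  have h4 : st R w (cyc R w (En B)) (s ++ (a, b) :: t) = 0 := st_zero.2 hnon
  have hmx : ∀ B', Reach B B' → es R w (cyc R w (En B)) [] B' [] ≤
      es R w (cyc R w (En B)) [] (s ++ (a, b) :: (c, d) :: t) [] := by
    intro B' hB'
    have := hg.mx B' hB'
    simpa using this
  have h5 := hmx _ hr
  have h6 : st R w (cyc R w (En B)) (s ++ h' :: t) = 0 := by omega
  refine ⟨hr, st_zero.1 h6, fun B' hB' => ?_⟩
  have h7 := hmx B' hB'
  omega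

/-- replacing a neighbour of the marked handle by a handle with the same group -/
theorem Gd.replace (hg : Gd R w B s p (h :: t)) {h' : Γ × Γ} (hE : En [h] = En [h'])
    (hr : Reach (s ++ p :: h :: t) (s ++ p :: h' :: t)) : Gd R w B s p (h' :: t) := by
  have e1 : En (s ++ h' :: t) = En (s ++ h :: t) := by
    rw [En_append, En_append, En_cons h', En_cons h, hE]
  refine ⟨hg.rch.trans hr, by rw [e1]; exact hg.non, fun B' hB' => ?_⟩
  have h1 := hg.mx B' hB'
  have h2 := es_one_congr (R := R) (w := w) (W := cyc R w (En B)) (s ++ [p]) t hE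
  simp only [List.append_assoc, List.cons_append, List.nil_append] at h2
  rwa [h2] at h1

/-- spare handles at the end lie in `H` -/
def Spr (R : Γ →* Module.End K U) (w : U) (B : List (Γ × Γ)) (H : Subgroup Γ) : Prop :=
  ∀ (B' : List (Γ × Γ)) (p : Γ × Γ), Reach B (B' ++ [p]) →
    cyc R w (En B') = cyc R w (En B) → p.1 ∈ H ∧ p.2 ∈ H

variable {H : Subgroup Γ}

theorem Gd.mem (hH : Spr R w B H) : ∀ {s t : List (Γ × Γ)} {p : Γ × Γ}, Gd R w B s p t →
    p.1 ∈ H ∧ p.2 ∈ H := by
  intro s t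
  induction t generalizing s with
  | nil =>
    intro p hg
    refine hH s p hg.rch ?_
    have := hg.non
    simpa using this
  | cons h t ih =>
    intro p hg
    exact ih hg.right

/-- a handle which is not essential and has only handles of `H` to its right lies in `H` -/
theorem mem_of_right (hH : Spr R w B H) (hr : Reach B (s ++ p :: t))
    (hn : cyc R w (En (s ++ t)) = cyc R w (En B)) (ht : En t ≤ H) : p.1 ∈ H ∧ p.2 ∈ H := by
  obtain ⟨a, b⟩ := p
  obtain ⟨v, hv, h1⟩ := Helper55.Pw.move_right' t a b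
  have h2 := h1.context s []
  simp only [List.append_nil] at h2
  have h3 : Reach B ((s ++ t) ++ [(v * a * v⁻¹, v * b * v⁻¹)]) := by
    refine hr.trans ?_
    simpa using h2
  have h4 := hH _ _ h3 hn
  have hv' : v ∈ H := ht hv
  refine ⟨?_, ?_⟩
  · have := H.mul_mem (H.mul_mem (H.inv_mem hv') h4.1) hv'
    exact mem_word (by simp only [mul_assoc]; group) this
  · have := H.mul_mem (H.mul_mem (H.inv_mem hv') h4.2) hv'
    exact mem_word (by simp only [mul_assoc]; group) this

/-- the slide -/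
theorem Gd.slide (hH : Spr R w B H) (hg : Gd R w B s p (h :: t)) (ht : En t ≤ H) :
    h.1 * h.2 * h.1⁻¹ ∈ H := by
  obtain ⟨hp1, hp2⟩ := hg.mem hH
  obtain ⟨a, b⟩ := p
  obtain ⟨c, d⟩ := h
  simp only at hp1 hp2 ⊢
  set p' : Γ × Γ := (a, b * a⁻¹ * b⁻¹ * c * d * c⁻¹ * b) with hp'
  set h' : Γ × Γ := (b * a⁻¹ * b⁻¹ * c, d) with hh'
  have hstep : Step (s ++ (a, b) :: (c, d) :: t) (s ++ p' :: h' :: t) := Step.sl s t a b c d
  have hr : Reach B (s ++ p' :: h' :: t) := hg.rch.trans (Reach.of_step hstep)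
  have hE : En [(a, b), (c, d)] = En [p', h'] :=
    (Reach.En_eq (Reach.of_step (by simpa using Step.sl [] [] a b c d))).symm
  by_cases hn : cyc R w (En (s ++ p' :: t)) = cyc R w (En B)
  · -- the second handle is not essential
    have h1 : h'.1 ∈ H ∧ h'.2 ∈ H := by
      refine mem_of_right (s := s ++ [p']) (t := t) hH ?_ ?_ ht
      · simpa using hr
      · simpa using hn
    have hc : c ∈ H := by
      have := H.mul_mem (H.mul_mem (H.mul_mem hp2 hp1) (H.inv_mem hp2)) h1.1
      refine mem_word ?_ this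
      rw [hh']
      group
    exact H.mul_mem (H.mul_mem hc h1.2) (H.inv_mem hc)
  · -- the second handle is essential, so the first one is not
    have h1 := es_two (R := R) (w := w) (W := cyc R w (En B)) s t (a, b) (c, d)
    have h2 := es_two (R := R) (w := w) (W := cyc R w (En B)) s t p' h'
    have h3 := es_two_congr (R := R) (w := w) (W := cyc R w (En B)) s t hE
    have h4 : st R w (cyc R w (En B)) (s ++ (c, d) :: t) = 0 := st_zero.2 hg.non
    have h5 := hg.mx _ hr
    have h6 : st R w (cyc R w (En B)) (s ++ p' :: t) = 1 := st_one hn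
    have h7 : st R w (cyc R w (En B)) (s ++ (a, b) :: t) ≤ 1 := by
      unfold st
      split <;> omega
    have h8 : st R w (cyc R w (En B)) (s ++ h' :: t) = 0 := by omega
    have hg' : Gd R w B s p' (h' :: t) := by
      refine ⟨hr, st_zero.1 h8, fun B' hB' => ?_⟩
      have h9 := hg.mx B' hB'
      omega
    have h9 := (hg'.mem hH).2
    have := H.mul_mem (H.mul_mem (H.mul_mem (H.mul_mem hp2 hp1) (H.inv_mem hp2)) h9) (H.inv_mem hp2)
    refine mem_word ?_ this
    rw [hp']
    group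

theorem Gd.next (hH : Spr R w B H) (hg : Gd R w B s p (h :: t)) (ht : En t ≤ H) :
    h.1 ∈ H ∧ h.2 ∈ H := by
  have h1 := hg.slide hH ht
  obtain ⟨c, d⟩ := h
  simp only at h1 ⊢
  have hE : En [(c, d)] = En [(d⁻¹, d * c * d⁻¹)] :=
    (Reach.En_eq (Reach.of_step (by simpa using Step.rot [] [] c d))).symm
  have hr : Reach (s ++ p :: (c, d) :: t) (s ++ p :: (d⁻¹, d * c * d⁻¹) :: t) := by
    have := Step.rot (s ++ [p]) t c d
    exact Reach.of_step (by simpa using this)
  have h2 := (hg.replace hE hr).slide hH ht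
  simp only at h2
  have hc : c ∈ H := mem_word (by group) h2
  refine ⟨hc, ?_⟩
  have := H.mul_mem (H.mul_mem (H.inv_mem hc) h1) hc
  exact mem_word (by group) this

theorem Gd.tail (hH : Spr R w B H) : ∀ {t s : List (Γ × Γ)} {p : Γ × Γ}, Gd R w B s p t →
    En t ≤ H := by
  intro t
  induction t with
  | nil =>
    intro s p _
    rw [En_nil]
    exact bot_le
  | cons h t ih =>
    intro s p hg
    have h1 : En t ≤ H := ih hg.right
    have h2 := hg.next hH h1
    rw [En_cons]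
    refine sup_le (En_le.2 fun q hq => ?_) h1
    rw [List.mem_singleton] at hq
    subst hq
    exact h2

theorem Gd.init (hH : Spr R w B H) : ∀ {s t : List (Γ × Γ)} {p : Γ × Γ}, Gd R w B s p t →
    En s ≤ H := by
  intro s
  induction s using List.reverseRecOn with
  | nil =>
    intro t p _
    rw [En_nil]
    exact bot_le
  | append_singleton s h ih =>
    intro t p hg
    obtain ⟨hp1, hp2⟩ := hg.mem hH
    have h1 := hg.left
    have h2 : En s ≤ H := ih h1
    have h3 := h1.tail hH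
    have h4 := h3 (fst_mem_En (h := ((p.1 * p.2 * p.1⁻¹ * p.2⁻¹)⁻¹ * h.1 *
      (p.1 * p.2 * p.1⁻¹ * p.2⁻¹), (p.1 * p.2 * p.1⁻¹ * p.2⁻¹)⁻¹ * h.2 *
      (p.1 * p.2 * p.1⁻¹ * p.2⁻¹))) (by simp))
    have h5 := h3 (snd_mem_En (h := ((p.1 * p.2 * p.1⁻¹ * p.2⁻¹)⁻¹ * h.1 *
      (p.1 * p.2 * p.1⁻¹ * p.2⁻¹), (p.1 * p.2 * p.1⁻¹ * p.2⁻¹)⁻¹ * h.2 *
      (p.1 * p.2 * p.1⁻¹ * p.2⁻¹))) (by simp))
    simp only at h4 h5
    have hδ : p.1 * p.2 * p.1⁻¹ * p.2⁻¹ ∈ H :=
      H.mul_mem (H.mul_mem (H.mul_mem hp1 hp2) (H.inv_mem hp1)) (H.inv_mem hp2)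
    rw [En_append]
    refine sup_le h2 (En_le.2 fun q hq => ?_)
    rw [List.mem_singleton] at hq
    subst hq
    refine ⟨?_, ?_⟩
    · have := H.mul_mem (H.mul_mem hδ h4) (H.inv_mem hδ)
      exact mem_word (by group) this
    · have := H.mul_mem (H.mul_mem hδ h5) (H.inv_mem hδ)
      exact mem_word (by group) this

/-- if a subgroup contains all spare handles then it contains everything -/
theorem all_mem [FiniteDimensional K U] (hw : w ≠ 0)
    (hlen : finrank K (cyc R w (En B)) ≤ B.length) (hH : Spr R w B H) : En B ≤ H := by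
  have hlenr : ∀ B', Reach B B' → B'.length = B.length := by
    intro B' h
    induction h with
    | refl => rfl
    | tail _ hs ih => rw [hs.length_eq, ih]
  -- the count is bounded by the length
  have hbd : ∀ (s pre post : List (Γ × Γ)), es R w (cyc R w (En B)) pre s post ≤ s.length := by
    intro s
    induction s with
    | nil => intro pre post; exact le_rfl
    | cons h s ih =>
      intro pre post
      rw [es, List.length_cons]
      have h1 : st R w (cyc R w (En B)) (pre ++ (s ++ post)) ≤ 1 := by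
        unfold st
        split <;> omega
      have h2 := ih (pre ++ [h]) post
      omega
  -- a maximum
  obtain ⟨B₀, hB₀, hmax⟩ : ∃ B₀, Reach B B₀ ∧ ∀ B', Reach B B' →
      es R w (cyc R w (En B)) [] B' [] ≤ es R w (cyc R w (En B)) [] B₀ [] := by
    classical
    have hex : ∃ m, ∃ B₀, Reach B B₀ ∧ B.length - es R w (cyc R w (En B)) [] B₀ [] = m :=
      ⟨_, B, Reach.refl _, rfl⟩
    obtain ⟨B₀, hB₀, hm⟩ := Nat.find_spec hex
    refine ⟨B₀, hB₀, fun B' hB' => ?_⟩
    have h1 := Nat.find_min' hex ⟨B', hB', rfl⟩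
    rw [← hm] at h1
    have h2 := hbd B' [] []
    have h3 := hbd B₀ [] []
    rw [hlenr B' hB'] at h2
    rw [hlenr B₀ hB₀] at h3
    omega
  have hE : En B₀ = En B := Reach.En_eq hB₀
  obtain ⟨s, p, t, rfl, hn⟩ := exists_noness (R := R) hw B₀ (by
    rw [hE, hlenr B₀ hB₀]
    exact hlen)
  rw [hE] at hn
  have hg : Gd R w B s p t := ⟨hB₀, hn, hmax⟩
  rw [← hE, En_append, En_cons]
  refine sup_le (hg.init hH) (sup_le (En_le.2 fun q hq => ?_) (hg.tail hH))
  rw [List.mem_singleton] at hq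
  subst hq
  exact hg.mem hH

end Pool.Agent.LGP
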