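import Pool.Agent.Helper12.ScExt
import Pool.Agent.HZ.Stm2

/-!
# Punctured surfaces of large genus: definitions and statements

Helper35, for MP_0707f5_ag.  `F g n` is the fundamental group of a closed oriented surface of genus
`g` minus the `n + 1` points `x_0, x_1, ..., x_n`; it is free on `a_i, b_i` and `x_1, ..., x_n`, and
`[a_1, b_1] ... [a_g, b_g] * x_1 ... x_n * x_0 = 1`.
-/

set_option autoImplicit false

namespace Pool.Agent.LGP

open Matrix Module Helper12.Sc

/-! ### the group -/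

/-- the fundamental group of a surface of genus `g` minus `n + 1` points -/
abbrev F (g n : ℕ) : Type := FreeGroup ((Fin g × Bool) ⊕ Fin n)

/-- the generator `a_i` -/
def ga {g n : ℕ} (i : Fin g) : F g n := FreeGroup.of (Sum.inl (i, false))

/-- the generator `b_i` -/
def gb {g n : ℕ} (i : Fin g) : F g n := FreeGroup.of (Sum.inl (i, true))

/-- the loop `x_j` around a puncture, `j ≥ 1` -/
def gx {g n : ℕ} (j : Fin n) : F g n := FreeGroup.of (Sum.inr j)

/-- the standard handles -/
def stdL (g n : ℕ) : List (F g n × F g n) := List.ofFn fun i : Fin g => (ga i, gb i)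

/-- the standard punctures -/
def stdM (g n : ℕ) : List (F g n) := List.ofFn fun j : Fin n => gx j

/-- the loop `x_0` around the distinguished puncture -/
def x0 (g n : ℕ) : F g n := (comm (stdL g n) * (stdM g n).prod)⁻¹

/-- the mapping classes which fix the puncture `x_0`, as automorphisms of the fundamental group
(Dehn, Nielsen, Baer): automorphisms which map `x_0` to a conjugate of `x_0` and every loop around a
puncture to a conjugate of a loop around a puncture -/
def MC (g n : ℕ) : Set (MulAut (F g n)) :=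
  {φ | IsConj (φ (x0 g n)) (x0 g n) ∧ ∀ j, ∃ j', IsConj (φ (gx j)) (gx j')}

/-- non-separating simple loops: the images of the generators `a_i` under the mapping classes -/
def NS {g n : ℕ} (y : F g n) : Prop := ∃ φ ∈ MC g n, ∃ i, y = φ (ga i)

/-! ### moves of handles and punctures -/

/-- Elementary moves of tuples `(L, M)` (handles, punctures).  All preserve
`comm L * M.prod`.  `ab`: the first puncture `y` goes through the last handle. -/
inductive Mv {Γ : Type} [Group Γ] : List (Γ × Γ) × List Γ → List (Γ × Γ) × List Γ → Prop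
  | st (L L' : List (Γ × Γ)) (M : List Γ) : Step L L' → Mv (L, M) (L', M)
  | ab (L : List (Γ × Γ)) (a b y : Γ) (M : List Γ) :
      Mv (L ++ [(a, b)], y :: M)
        (L ++ [(a, y⁻¹ * b)], (a * (y⁻¹ * b) * a⁻¹ * (y⁻¹ * b)⁻¹)⁻¹ * (a * y * a⁻¹) *
          (a * (y⁻¹ * b) * a⁻¹ * (y⁻¹ * b)⁻¹) :: M)
  | ab' (L : List (Γ × Γ)) (a b y : Γ) (M : List Γ) :
      Mv (L ++ [(a, b)], y :: M)
        (L ++ [(a, a⁻¹ * ((a * b * a⁻¹ * b⁻¹) * y * (a * b * a⁻¹ * b⁻¹)⁻¹) * a * b)],
          a⁻¹ * ((a * b * a⁻¹ * b⁻¹) * y * (a * b * a⁻¹ * b⁻¹)⁻¹) * a :: M)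
  | sw (L : List (Γ × Γ)) (P S : List Γ) (y z : Γ) :
      Mv (L, P ++ y :: z :: S) (L, P ++ z :: (z⁻¹ * y * z) :: S)
  | sw' (L : List (Γ × Γ)) (P S : List Γ) (y z : Γ) :
      Mv (L, P ++ y :: z :: S) (L, P ++ (y * z * y⁻¹) :: y :: S)

/-- reachable tuples -/
def MR {Γ : Type} [Group Γ] (t t' : List (Γ × Γ) × List Γ) : Prop := Relation.ReflTransGen Mv t t'

/-- **AUT**.  Reachable tuples are images of the standard tuple under mapping classes which fix
`x_0`.
PROOF. As `exists_autF`, `exists_homF`, `homF_ext`, `exists_right_inv` in SpQ/OpAut.lean.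
(1) A tuple `(L, M)` of elements of a group `Γ` with `L.length = g`, `M.length = n` is the image of
`(stdL, stdM)` under a unique homomorphism `F g n →* Γ` (`FreeGroup.lift`, `FreeGroup.ext_hom`).
(2) `Mv` is symmetric (`Step.symm`; `ab`, `ab'` are inverse to each other, `sw`, `sw'` too), is
natural (`Step.map`) and can be lifted: if `(f L, f M) → t'` then `t' = f t` with `(L, M) → t`
(`Step.lift` in SpQ/OpAut or its imports, `List.map_eq_append_iff`, `List.map_eq_cons_iff`); lengths
are preserved, and `comm L * M.prod` is preserved (`Step.comm_eq`, `group`).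
(3) If `Mv (stdL, stdM) t` then the endomorphism `Ψ` with `Ψ std = t` has a right inverse `Ψ'` which
is again the endomorphism of an elementary move, so it is bijective (copy `exists_right_inv`,
`exists_autF`); it fixes `x_0`, and maps every `gx j` to a conjugate of some `gx j'`: the entries of
the new list of punctures are conjugate to entries of the old one.
(4) Induction on the path: `t = φ std`, the next tuple is a move of `φ std`, so `φ (move of std)` by
naturality for `φ⁻¹`; `MC` is closed under products. -/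
def St_Aut : Prop := ∀ (g n : ℕ) (L : List (F g n × F g n)) (M : List (F g n)),
    MR (stdL g n, stdM g n) (L, M) → ∃ φ ∈ MC g n, φ (x0 g n) = x0 g n ∧
      (stdL g n).map (Prod.map φ φ) = L ∧ (stdM g n).map φ = M

/-- **PSH**.  Products of `a_i` and `x_0` are non-separating simple loops.
PROOF. `MC` is closed under products and contains the inner automorphisms, so `NS` is stable under
`MC` and under conjugation.  (1) `g ≥ 1`, `i = 0` (the first handle `a, b`, the others `L₁`).  The
endomorphism `ψ` with `a ↦ q⁻¹ a q`, `b ↦ b q`, `q = a⁻¹ x_0 a`, the other generators fixed, maps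
`x_0` to `q`: `comm` of the new tuple is `[q⁻¹ a q, b q] R = q⁻¹ ([a, q b] q) R`, `R = comm L₁ * M.prod`,
and `[a, q b] q R = x_0 [a, b] R = 1` because `[a, q b] = a q b a⁻¹ b⁻¹ q⁻¹ = (x_0 a) b a⁻¹ b⁻¹ q⁻¹`.
It is an automorphism with inverse `ψ'`: `a ↦ x_0 a x_0⁻¹`, `b ↦ b x_0⁻¹`, the others fixed
(`ψ' x_0 = (x_0 a) x_0 (x_0 a)⁻¹`, `ψ' q = x_0`; check `ψ ψ' = 1` and `ψ' ψ = 1` on the generators).
`ψ ∈ MC`, `ψ b = b a⁻¹ x_0 a`.  With `φ = ` the rotation `a ↦ b⁻¹`, `b ↦ b a b⁻¹` (`St_Aut` and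
`Step.rot`, it fixes `x_0`): `φ (ψ b) = b a b⁻¹ * b x_0 b⁻¹ = b (a x_0) b⁻¹`.  And `b` is `NS`: the
rotation of `Step.rot'` maps `a` to `a b a⁻¹`.  So `a x_0` is `NS`.  (2) Other `i`: by moves of handles (`Step.br'` repeatedly, or
`Ext.mem`-like: the handle `i` moves to the front UNCHANGED, the others are conjugated) and `St_Aut`
there is `φ ∈ MC` with `φ x_0 = x_0`, `φ a_0 = a_i`. -/
def St_Psh : Prop := ∀ (g n : ℕ) (i : Fin g), NS (ga i * x0 g n : F g n)

/-! ### the vector theorem -/

/-- the subgroup generated by the entries of a list of handles -/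
def En {Γ : Type} [Group Γ] (L : List (Γ × Γ)) : Subgroup Γ := Subgroup.closure (entries L)

/-- first components of the handles which can be split off -/
def fc {Γ : Type} [Group Γ] (L : List (Γ × Γ)) : Set Γ := {x | ∃ y, Ext L [(x, y)]}

/-- the span of the orbit of a vector under a subgroup -/
def cyc {K U Γ : Type} [Field K] [AddCommGroup U] [Module K U] [Group Γ]
    (R : Γ →* Module.End K U) (w : U) (H : Subgroup Γ) : Submodule K U :=
  Submodule.span K ((fun x => R x w) '' (H : Set Γ))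

/-- **VEC**.  A linear relation on the first components extends to the group. -/
def St_Vec : Prop := ∀ (K U Γ : Type) [Field K] [AddCommGroup U] [Module K U] [Group Γ]
    [FiniteDimensional K U] (R : Γ →* Module.End K U) (w : U) (L : List (Γ × Γ)),
    2 * finrank K (cyc R w (En L)) ≤ L.length + 2 →
    ∀ T : U →ₗ[K] K, T w = 0 → (∀ x ∈ fc L, T (R x w) = 0) → ∀ x ∈ En L, T (R x w) = 0

/-- **CYC**.  There is a system of handles which generates the whole cyclic module. -/
def St_Cyc : Prop := ∀ (K U : Type) [Field K] [AddCommGroup U] [Module K U]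
    [FiniteDimensional K U] (g n : ℕ) (R : F g n →* Module.End K U) (w : U),
    finrank K (cyc R w ⊤) ≤ g → ∃ (L : List (F g n × F g n)) (M : List (F g n)),
      MR (stdL g n, stdM g n) (L, M) ∧ cyc R w (En L) = cyc R w ⊤

/-! ### the application -/

/-- **RNK**.  The matrices `X * A` form a space of dimension at most `r * rank A`.
PROOF. The rows of `X * A` are `X i ᵥ* A`, in the row space `N` of `A` (the range of
`Matrix.vecMulLinear A`), `finrank N = A.rank` (`Matrix.rank_transpose`).  So the range of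
`X ↦ X * A` embeds into `Fin r → N`. -/
def St_Rnk : Prop := ∀ (r : ℕ) (A : Matrix (Fin r) (Fin r) ℂ),
    finrank ℂ (LinearMap.range (LinearMap.mulRight ℂ A)) ≤ r * A.rank

/-- **FIN**.  Equalities of traces on a set of elements are implied by finitely many of them.
PROOF. As `exists_words` (HZ/RedC.lean) with `Λ` for `Set.univ` (cf. `SpQ.exists_finset`, SpQ/Fin.lean),
after the isomorphism of `FreeGroup ι` with `FreeGroup (Fin (Fintype.card ι))`. -/
def St_Fin : Prop := ∀ (g n r : ℕ) (Λ : Set (F g n)), ∃ s : Finset (F g n), (∀ x ∈ s, x ∈ Λ) ∧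
    ∀ ρ₁ ρ₂ : F g n →* GL (Fin r) ℂ,
      (∀ x ∈ s, (ρ₁ x : Matrix (Fin r) (Fin r) ℂ).trace =
        (ρ₂ x : Matrix (Fin r) (Fin r) ℂ).trace) →
      ∀ x ∈ Λ, (ρ₁ x : Matrix (Fin r) (Fin r) ℂ).trace = (ρ₂ x : Matrix (Fin r) (Fin r) ℂ).trace

/-- **JAC**.  Two irreducible representations with the same traces of `ρ x * A` have the same traces.
PROOF. Let `Φ_i : MonoidAlgebra ℂ G →ₐ[ℂ] Matrix` be the algebra maps of `ρ_i`; they are surjective
(Burnside: `Irr`; search the pool for a proof of Burnside's theorem for `Irr`, e.g. in HZ, GF, PRS, or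
Mathlib).  The hypothesis and linearity: `tr (Φ₁ u * A₁) = tr (Φ₂ u * A₂)` for all `u`.  If
`Φ₁ z = 0` then for all `u, v`: `tr (Φ₂ (u z v) A₂) = tr (Φ₁ (u z v) A₁) = 0`; `Φ₂ u, Φ₂ v` are arbitrary
matrices and `A₂ ≠ 0`, so `Φ₂ z = 0`.  So `Φ₂ = Ψ ∘ Φ₁` for a linear map `Ψ`, multiplicative and with
`Ψ 1 = 1`; the linear form `X ↦ tr (Ψ X)` is symmetric (`tr (Ψ (X Y)) = tr (Ψ (Y X))`), so it is a
multiple of the trace, and the multiple is `1` (value at `1`; `r = 0` is trivial). -/
def St_Jac : Prop := ∀ (G : Type) [Group G] (r : ℕ) (ρ₁ ρ₂ : G →* GL (Fin r) ℂ)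
    (A₁ A₂ : Matrix (Fin r) (Fin r) ℂ), Pool.Agent.HZ.Irr ρ₁.range → Pool.Agent.HZ.Irr ρ₂.range →
    A₁ ≠ 0 → A₂ ≠ 0 →
    (∀ x, ((ρ₁ x : Matrix (Fin r) (Fin r) ℂ) * A₁).trace =
      ((ρ₂ x : Matrix (Fin r) (Fin r) ℂ) * A₂).trace) →
    ∀ x, (ρ₁ x : Matrix (Fin r) (Fin r) ℂ).trace = (ρ₂ x : Matrix (Fin r) (Fin r) ℂ).trace

/-- **MAIN**.  The theorem. -/
def St_Main : Prop := ∀ (g n r : ℕ) (ρ : F g n →* GL (Fin r) ℂ) (c : ℂ), 0 < g →
    (ρ (x0 g n) : Matrix (Fin r) (Fin r) ℂ) ≠ c • 1 → (c = 0 ∨ Pool.Agent.HZ.Irr ρ.range) →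
    4 * r * ((ρ (x0 g n) : Matrix (Fin r) (Fin r) ℂ) - c • 1).rank ≤ g + 2 →
    (∀ y : F g n, NS y → Pool.Agent.HZ.Quasi (ρ y)) →
    {χ : F g n → ℂ | ∃ φ ∈ MC g n,
      χ = fun y => (ρ (φ y) : Matrix (Fin r) (Fin r) ℂ).trace}.Finite

end Pool.Agent.LGP
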