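import Pool.Agent.LGP.All

/-!
# Punctured surfaces of large genus: the vector theorem

Helper35, for MP_0707f5_ag.
-/

set_option autoImplicit false

namespace Pool.Agent.LGP

open Module Helper12.Sc

variable {K U Γ : Type} [Field K] [AddCommGroup U] [Module K U] [Group Γ]

theorem fc_mono {L L' : List (Γ × Γ)} (h : Ext L L') : fc L' ⊆ fc L := by
  rintro x ⟨y, hy⟩
  exact ⟨y, h.trans hy⟩

theorem fc_mul {L L' : List (Γ × Γ)} {x x' : Γ} (hx : x ∈ fc L) (hx' : x' ∈ fc L') :
    x * x' ∈ fc (L ++ L') := by
  obtain ⟨y, hy⟩ := hx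
  obtain ⟨y', hy'⟩ := hx'
  exact ⟨y', (hy.append hy').trans (Ext.merge x y x' y')⟩

theorem fc_sub {L : List (Γ × Γ)} {x : Γ} (hx : x ∈ fc L) : x ∈ En L := by
  obtain ⟨y, junk, h⟩ := hx
  rw [← Reach.En_eq h]
  exact fst_mem_En (h := (x, y)) (by simp)

/-- the span of `w` and of the images of `w` under the first components -/
def Sp (R : Γ →* Module.End K U) (w : U) (P : List (Γ × Γ)) : Submodule K U :=
  Submodule.span K (insert w ((fun x => R x w) '' fc P))

variable {R : Γ →* Module.End K U} {w : U}

theorem self_mem_Sp (P : List (Γ × Γ)) : w ∈ Sp R w P :=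
  Submodule.subset_span (Set.mem_insert _ _)

theorem Sp_mono {P P' : List (Γ × Γ)} (h : Ext P' P) : Sp R w P ≤ Sp R w P' :=
  Submodule.span_mono (Set.insert_subset_insert (Set.image_mono (fc_mono h)))

theorem Sp_le_cyc (P : List (Γ × Γ)) : Sp R w P ≤ cyc R w (En P) := by
  unfold Sp
  rw [Submodule.span_le]
  rintro u (rfl | ⟨x, hx, rfl⟩)
  · exact self_mem_cyc _ _ _
  · exact Submodule.subset_span ⟨x, fc_sub hx, rfl⟩

theorem vec [FiniteDimensional K U] (R : Γ →* Module.End K U) (w : U) (L : List (Γ × Γ))
    (hlen : 2 * finrank K (cyc R w (En L)) ≤ L.length + 2) (T : U →ₗ[K] K) (h0 : T w = 0)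
    (hT : ∀ x ∈ fc L, T (R x w) = 0) : ∀ x ∈ En L, T (R x w) = 0 := by
  by_cases hw : w = 0
  · intro x _
    rw [hw, map_zero, map_zero]
  -- the functional vanishes on the spans
  have hSp : ∀ P, Ext L P → ∀ u ∈ Sp R w P, T u = 0 := by
    intro P hP u hu
    have hu' : u ∈ Submodule.span K (insert w ((fun x => R x w) '' fc P)) := hu
    refine Submodule.span_induction (p := fun u _ => T u = 0) ?_ ?_ ?_ ?_ hu'
    · rintro u (rfl | ⟨x, hx, rfl⟩)
      · exact h0
      · exact hT x (fc_mono hP hx)
    · exact map_zero T
    · intro a b _ _ ha hb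
      rw [map_add, ha, hb, add_zero]
    · intro c a _ ha
      rw [map_smul, ha, smul_zero]
  have hreach : ∀ L', Reach L L' → L'.length = L.length := by
    intro B' h
    induction h with
    | refl => rfl
    | tail _ hs ih => rw [hs.length_eq, ih]
  have hext : ∀ B P, Reach L (B ++ P) → Ext L P := fun B P h => ⟨B, h⟩
  have main : ∀ m : ℕ, m < finrank K (cyc R w (En L)) → (∀ x ∈ En L, T (R x w) = 0) ∨
      ∃ P B : List (Γ × Γ), Reach L (B ++ P) ∧ P.length = m ∧
        cyc R w (En B) = cyc R w (En L) ∧ m + 1 ≤ finrank K (Sp R w P) := by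
    intro m
    induction m with
    | zero =>
      intro _
      right
      refine ⟨[], L, by simpa using Reach.refl L, rfl, rfl, ?_⟩
      have h1 : Sp R w ([] : List (Γ × Γ)) ≠ ⊥ := by
        intro h
        have := self_mem_Sp (R := R) (w := w) ([] : List (Γ × Γ))
        rw [h, Submodule.mem_bot] at this
        exact hw this
      have h2 := Submodule.one_le_finrank_iff.2 h1
      simpa using h2
    | succ m ih =>
      intro hm
      rcases ih (by omega) with hdone | ⟨P, B, hr, hPlen, hA, hdim⟩
      · exact Or.inl hdone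
      have hBlen : finrank K (cyc R w (En B)) ≤ B.length := by
        have := hreach _ hr
        rw [List.length_append, hPlen] at this
        rw [hA]
        omega
      by_cases hst : ∃ (B' : List (Γ × Γ)) (p : Γ × Γ), Reach B (B' ++ [p]) ∧
          cyc R w (En B') = cyc R w (En B) ∧ Sp R w ([p] ++ P) ≠ Sp R w P
      · obtain ⟨B', p, h1, h2, h3⟩ := hst
        right
        refine ⟨[p] ++ P, B', ?_, by simp [hPlen], h2.trans hA, ?_⟩
        · refine hr.trans ?_
          have := h1.context [] P
          simpa using this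
        · have h4 : Sp R w P ≤ Sp R w ([p] ++ P) := Sp_mono (Ext.drop_left [p] P)
          have h5 := Submodule.finrank_lt_finrank_of_lt (lt_of_le_of_ne h4 (Ne.symm h3))
          omega
      · left
        push Not at hst
        have hspr : Spr R w B (stb R (Sp R w P)) := by
          intro B' p h1 h2
          have h3 := hst B' p h1 h2
          have hstab : ∀ z ∈ fc [p], z ∈ stb R (Sp R w P) := by
            intro z hz s hs
            rw [← h3]
            have hs' : s ∈ Submodule.span K (insert w ((fun x => R x w) '' fc P)) := hs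
            refine Submodule.span_induction (p := fun s _ => R z s ∈ Sp R w ([p] ++ P))
              ?_ ?_ ?_ ?_ hs'
            · rintro u (rfl | ⟨x, hx, rfl⟩)
              · exact Submodule.subset_span (Or.inr ⟨z, fc_mono (Ext.drop_right [p] P) hz, rfl⟩)
              · show R z (R x w) ∈ _
                rw [← Module.End.mul_apply, ← map_mul]
                exact Submodule.subset_span (Or.inr ⟨z * x, fc_mul hz hx, rfl⟩)
            · rw [map_zero]
              exact Submodule.zero_mem _
            · intro a b _ _ ha hb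
              rw [map_add]
              exact Submodule.add_mem _ ha hb
            · intro c a _ ha
              rw [map_smul]
              exact Submodule.smul_mem _ c ha
          obtain ⟨x, y⟩ := p
          refine ⟨hstab x ⟨y, Ext.refl _⟩, ?_⟩
          have h4 : y⁻¹ ∈ stb R (Sp R w P) := hstab _ ⟨_, Ext.rot x y⟩
          exact inv_mem_iff.1 h4
        have hEB : En B ≤ stb R (Sp R w P) := all_mem hw hBlen hspr
        have hc : cyc R w (En L) ≤ Sp R w P := by
          rw [← hA]
          exact cyc_le (self_mem_Sp P) hEB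
        intro x hx
        exact hSp P (hext B P hr) _ (hc (Submodule.subset_span ⟨x, hx, rfl⟩))
  have hpos : 0 < finrank K (cyc R w (En L)) := by
    have h1 : cyc R w (En L) ≠ ⊥ := by
      intro h
      have := self_mem_cyc R w (En L)
      rw [h, Submodule.mem_bot] at this
      exact hw this
    exact Submodule.one_le_finrank_iff.2 h1
  rcases main (finrank K (cyc R w (En L)) - 1) (by omega) with h | ⟨P, B, hr, -, -, hdim⟩
  · exact h
  · have h1 : Sp R w P ≤ cyc R w (En L) := by
      refine (Sp_le_cyc P).trans (cyc_mono _ _ ?_)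
      rw [← Reach.En_eq hr, En_append]
      exact le_sup_right
    have h2 : Sp R w P = cyc R w (En L) :=
      Submodule.eq_of_le_of_finrank_le h1 (by omega)
    intro x hx
    refine hSp P (hext B P hr) _ ?_
    rw [h2]
    exact Submodule.subset_span ⟨x, hx, rfl⟩

theorem thm_Vec : St_Vec := by
  intro K U Γ _ _ _ _ _ R w L hlen T h0 hT
  exact vec R w L hlen T h0 hT

end Pool.Agent.LGP
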