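import Pool.Agent.LGP.WFinal

/-!
# Closed surfaces with a spin structure

Helper35, for MP_0707f5_ag.
-/

set_option autoImplicit false

namespace Pool.Agent.LGP

open Matrix Module Helper12.Sc Helper12.Sc.SurfaceGroup
open SpQ (IsSpinStructure IsOrientationPreserving)

theorem mk_i {g n : ℕ} (x : FreeGroup (Fin g × Bool)) :
    prj g n (Dsc_i g n x) = PresentedGroup.mk {surfaceRelator g} x := by
  rw [Dsc_prj, Dsc_k_i]

theorem prj_surjective (g n : ℕ) : Function.Surjective (prj g n) := by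
  intro x
  obtain ⟨y, rfl⟩ := PresentedGroup.mk_surjective {surfaceRelator g} x
  exact ⟨Dsc_i g n y, mk_i y⟩

theorem prj_ga {g n : ℕ} (i : Fin g) : prj g n (ga i) = SurfaceGroup.a i := by
  unfold prj ga
  rw [FreeGroup.lift_apply_of]

/-- the images of the non-separating simple loops -/
theorem ns_prj {g n : ℕ} {y : F g n} (hy : NS y) : IsNonseparatingSimple (prj g n y) := by
  obtain ⟨φ, hφ, i, rfl⟩ := hy
  obtain ⟨u, hu⟩ := isConj_iff.1 hφ.1
  obtain ⟨ψ, -, hψ⟩ := thm_Dsc g n (MulAut.conj u * φ) (Psh_mul_mem (Psh_conj_mem u) hφ) (by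
    rw [MulAut.mul_apply, MulAut.conj_apply]
    exact hu)
  have h1 := hψ (ga i)
  rw [MulAut.mul_apply, MulAut.conj_apply, map_mul, map_mul, map_inv, prj_ga] at h1
  refine ⟨ψ.trans (MulAut.conj (prj g n u)⁻¹), i, ?_⟩
  show _ = MulAut.conj (prj g n u)⁻¹ (ψ (SurfaceGroup.a i))
  rw [← h1, MulAut.conj_apply]
  group

theorem prj_x0 (g n : ℕ) : prj g n (x0 g n) = 1 := by
  rw [Dsc_prj, Dsc_k_x0, map_inv, inv_eq_one]
  exact PresentedGroup.one_of_mem rfl

theorem i_rel (g : ℕ) : Dsc_i g 0 (surfaceRelator g) = (x0 g 0)⁻¹ := by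
  have e1 : (SpQ.stdF g).map (Prod.map (Dsc_i g 0) (Dsc_i g 0)) = stdL g 0 := by
    unfold stdL SpQ.stdF
    rw [List.map_ofFn]
    congr 1
  unfold x0
  rw [← SpQ.comm_stdF, ← SpQ.comm_map, e1]
  simp [stdM]

/-- the free groups are isomorphic -/
noncomputable def Dsc_iso (g : ℕ) : FreeGroup (Fin g × Bool) ≃* F g 0 :=
  MulEquiv.mk' ⟨Dsc_i g 0, Dsc_k g 0, Dsc_k_i, by
    intro y
    have h : (Dsc_i g 0).comp (Dsc_k g 0) = MonoidHom.id _ := by
      apply FreeGroup.ext_hom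
      rintro (p | j)
      · show Dsc_i g 0 (Dsc_k g 0 (FreeGroup.of (Sum.inl p))) = FreeGroup.of _
        rw [Dsc_k_inl]
        unfold Dsc_i
        rw [FreeGroup.map.of]
      · exact j.elim0
    exact DFunLike.congr_fun h y⟩ (map_mul (Dsc_i g 0))

theorem closed (g k r : ℕ) (w : SurfaceGroup g → ZMod k) (ρ : SurfaceGroup g →* GL (Fin r) ℂ)
    (hk : 0 < k) (hw : IsSpinStructure k w) (hg : 4 * r ^ 2 ≤ g + 1)
    (hT : (∀ x : SurfaceGroup g, IsNonseparatingSimple x → w x = 0 →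
        Pool.Agent.HZ.Quasi (ρ x)) ∨
      {z : ℂ | ∃ x : SurfaceGroup g, (IsNonseparatingSimple x ∧ w x = 0) ∧
        z = (ρ x : Matrix (Fin r) (Fin r) ℂ).trace}.Finite) :
    {χ : SurfaceGroup g → ℂ | ∃ φ : SurfaceGroup g ≃* SurfaceGroup g,
      IsOrientationPreserving φ ∧
        χ = fun x => (ρ (φ x) : Matrix (Fin r) (Fin r) ℂ).trace}.Finite := by
  rcases Nat.eq_zero_or_pos r with rfl | hr
  · refine (Set.finite_singleton (fun _ => (0 : ℂ))).subset ?_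
    rintro χ ⟨φ, -, rfl⟩
    rw [Set.mem_singleton_iff]
    funext x
    simp
  have hone : (ρ.comp (prj g 0)) (x0 g 0) = 1 := by
    show ρ (prj g 0 (x0 g 0)) = 1
    rw [prj_x0, map_one]
  have : Nonempty (Fin r) := ⟨⟨0, hr⟩⟩
  have key := wmain_fin g 0 k r w (ρ.comp (prj g 0)) 0 hk hw (by
      rw [hone, zero_smul, Units.val_one]
      exact one_ne_zero) (Or.inl rfl) (by
      rw [hone, zero_smul, sub_zero, Units.val_one, Matrix.rank_one, Fintype.card_fin]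
      calc 4 * r * r = 4 * r ^ 2 := by ring
        _ ≤ g + 1 := hg) (by
      rcases hT with hT | hT
      · left
        intro y hy h0
        exact hT _ (ns_prj hy) h0
      · right
        refine hT.subset ?_
        rintro z ⟨y, ⟨hy, h0⟩, rfl⟩
        exact ⟨prj g 0 y, ⟨ns_prj hy, h0⟩, rfl⟩)
  refine Set.Finite.of_finite_image (f := fun (χ : SurfaceGroup g → ℂ) (y : F g 0) =>
    χ (prj g 0 y)) (key.subset ?_) ?_
  · rintro _ ⟨_, ⟨φ, ⟨Φ, hΦ, hR⟩, rfl⟩, rfl⟩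
    let Ψ : MulAut (F g 0) := ((Dsc_iso g).symm.trans Φ).trans (Dsc_iso g)
    have hΨ : ∀ x, Ψ (Dsc_i g 0 x) = Dsc_i g 0 (Φ x) := by
      intro x
      show Dsc_iso g (Φ ((Dsc_iso g).symm (Dsc_iso g x))) = _
      rw [MulEquiv.symm_apply_apply]
      rfl
    refine ⟨Ψ, ⟨?_, fun j => j.elim0⟩, ?_⟩
    · have h1 := hΨ (surfaceRelator g)
      rw [hR, i_rel, map_inv, _root_.inv_inj] at h1
      rw [h1]
    · funext y
      obtain ⟨x, rfl⟩ : ∃ x, Dsc_i g 0 x = y := (Dsc_iso g).surjective y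
      show (ρ (φ (prj g 0 (Dsc_i g 0 x))) : Matrix (Fin r) (Fin r) ℂ).trace =
        (ρ (prj g 0 (Ψ (Dsc_i g 0 x))) : Matrix (Fin r) (Fin r) ℂ).trace
      rw [hΨ, mk_i, mk_i, hΦ]
  · rintro χ - χ' - h
    funext x
    obtain ⟨y, rfl⟩ := prj_surjective g 0 x
    exact congrFun h y

end Pool.Agent.LGP
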