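import Pool.Agent.LGP.Ess
import Pool.Agent.LGP.Aut
import Pool.Agent.SpQ.Bridge

/-!
# Punctured surfaces of large genus with a spin structure: statements

Helper35, for MP_0707f5_ag.
-/

set_option autoImplicit false

namespace Pool.Agent.LGP

open Matrix Module Helper12.Sc
open SpQ (Hd WStep WReach WExt Good bare IsSpinStructure IsOrientationPreserving)

/-! ### the projection to the closed surface -/

/-- the map to the fundamental group of the closed surface -/
def prj (g n : ℕ) : F g n →* SurfaceGroup g :=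
  FreeGroup.lift fun s => match s with
    | Sum.inl (i, false) => SurfaceGroup.a i
    | Sum.inl (i, true) => SurfaceGroup.b i
    | Sum.inr _ => 1

/-- **DSC**.  Mapping classes which fix `x_0` descend to the closed surface.
PROOF. `κ : F g n → FreeGroup (Fin g × Bool)` kills the `gx j`; `ι` is the section (`FreeGroup.map
Sum.inl`).  `κ (φ (gx j)) = 1`, so `κ ∘ φ = φ' ∘ κ` with `φ' = κ ∘ φ ∘ ι` (check on generators).  The
inverse: the map `j ↦ j'` with `φ (gx j)` conjugate to `gx j'` is injective (if `φ (gx i)`, `φ (gx j)`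
are conjugate to the same `gx j'` then `gx i`, `gx j` are conjugate, and `FreeGroup.lift` to
`Multiplicative ℤ` separates them for `i ≠ j`), so surjective, so `φ⁻¹ (gx j')` is conjugate to some
`gx j`, and `κ ∘ φ⁻¹` factors in the same way: `φ'` is an automorphism.  `κ (x0) = (surfaceRelator g)⁻¹`,
so `φ'` fixes the relator and `φ'` descends to `ψ` (`SpQ.exists_descend_equiv`). -/
def St_Dsc : Prop := ∀ (g n : ℕ), ∀ φ ∈ MC g n, φ (x0 g n) = x0 g n →
    ∃ ψ : SurfaceGroup g ≃* SurfaceGroup g, IsOrientationPreserving ψ ∧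
      ∀ y, prj g n (φ y) = ψ (prj g n y)

/-! ### moves of decorated handles and punctures -/

/-- elementary moves of tuples (decorated handles, punctures) -/
inductive DMv {Γ : Type} [Group Γ] {k : ℕ} :
    List (Hd Γ k) × List Γ → List (Hd Γ k) × List Γ → Prop
  | st (L L' : List (Hd Γ k)) (M : List Γ) : WStep L L' → DMv (L, M) (L', M)
  | ab (L : List (Hd Γ k)) (a b y : Γ) (o : ZMod k × ZMod k) (M : List Γ) :
      DMv (L ++ [((a, b), o)], y :: M)
        (L ++ [((a, y⁻¹ * b), o)], (a * (y⁻¹ * b) * a⁻¹ * (y⁻¹ * b)⁻¹)⁻¹ * (a * y * a⁻¹) *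
          (a * (y⁻¹ * b) * a⁻¹ * (y⁻¹ * b)⁻¹) :: M)
  | sw (L : List (Hd Γ k)) (P S : List Γ) (y z : Γ) :
      DMv (L, P ++ y :: z :: S) (L, P ++ z :: (z⁻¹ * y * z) :: S)

/-- reachable decorated tuples -/
def DMR {Γ : Type} [Group Γ] {k : ℕ} (t t' : List (Hd Γ k) × List Γ) : Prop :=
  Relation.ReflTransGen DMv t t'

/-- the standard handles with weights -/
def dstd {g n k : ℕ} (τ : Fin g → ZMod k × ZMod k) : List (Hd (F g n) k) :=
  List.ofFn fun i : Fin g => ((ga i, gb i), τ i)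

/-- the weights of the images of the standard handles -/
def wty {g n k : ℕ} (w : SurfaceGroup g → ZMod k) (φ : MulAut (F g n)) :
    Fin g → ZMod k × ZMod k := fun i => (w (prj g n (φ (ga i))), w (prj g n (φ (gb i))))

/-- **WBR**.  First components of weight zero are non-separating simple loops with winding number
zero, also after multiplication with `x_0`.
PROOF. `x ∈ SpQ.fc L 0`: `WReach L (junk ++ [((x, y), (0, q))])`.  (1) Bare moves: `DMR` gives `MR`
(`SpQ.step_bare`), so `St_Aut` gives `θ ∈ MC` with `θ x_0 = x_0` and `x = θ (ga i)` for some `i`;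
`φ * θ ∈ MC` (`MC_mul`); `φ (x * x0) = (φ * θ) (ga i * x0)`, `St_Psh`.  (2) Weights: by induction
along `DMR`, `SpQ.mapH (prj ∘ φ) L = SpQ.decor w φ'` for an orientation preserving `φ'`, and
`prj (φ y) = 1` for all `y ∈ M`: at the start `St_Dsc`; `st`: `SpQ.mapH_step`, `SpQ.step_decor`; `ab`: the
image of the list does not change because `prj (φ y) = 1`; `sw`: clear.  `SpQ.decor_get` gives the
weight of the entry `x`.  `prj (φ (x * x0)) = prj (φ x)` because `prj x0 = 1`. -/
def St_Wbr : Prop := ∀ (g n k : ℕ) (w : SurfaceGroup g → ZMod k), IsSpinStructure k w →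
    ∀ φ ∈ MC g n, φ (x0 g n) = x0 g n → ∀ (L : List (Hd (F g n) k)) (M : List (F g n)),
    DMR (dstd (wty w φ), stdM g n) (L, M) → ∀ x ∈ SpQ.fc L 0,
    (NS (φ x) ∧ w (prj g n (φ x)) = 0) ∧
      (NS (φ (x * x0 g n)) ∧ w (prj g n (φ (x * x0 g n))) = 0)

/-! ### the vector theorem -/

/-- **WVEC**.  The vector theorem for good handles. -/
def St_Wvec : Prop := ∀ (K U Γ : Type) [Field K] [AddCommGroup U] [Module K U] [Group Γ]
    [FiniteDimensional K U] (k : ℕ) (R : Γ →* Module.End K U) (w : U) (L : List (Hd Γ k)),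
    (∀ h ∈ L, Good h) → 2 * finrank K (cyc R w (SpQ.E L)) ≤ L.length + 2 →
    ∀ T : U →ₗ[K] K, T w = 0 → (∀ x ∈ SpQ.fc L (-1), T (R x w) = 0) →
    ∀ x ∈ SpQ.E L, T (R x w) = 0

/-- **WCYC**.  All handles but one generate the cyclic module, and are good, in a suitable system.
PROOF. Start: `SpQ.exists_good`: `L₀ ~ h' :: G`, `G` good.  Among the reachable `(h :: L, M)` with `L` good
choose one with `finrank (cyc R w (E L))` maximal (`≤ finrank (cyc R w H)`, `H` the group), and let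
`W₁ = cyc R w (E L)`, `S = stb R W₁`.  `w = 0` is trivial.  `exists_noness` for `bare L`
(`L.length = L₀.length - 1 ≥ finrank`): `L = s ++ p :: t` with `cyc R w (E (s ++ t)) = W₁`.
(0) If `(h :: L', M')` is reachable, `L'` good, and all members of `s ++ t` are members of `L'`, then
`cyc R w (E L') = W₁` by maximality, so `E L' ≤ S`.
(1) punctures: `M = M₁ ++ y :: M₂`; swaps move `y` to the front (`y` unchanged).  Move `p` to the end of
`L`, conjugated, the others unchanged (as `Helper55.Pw.move_right'`, with `WStep.br'`), `p' = ((a, b), _)`;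
`b ∈ S` by (0); `ab`: `y⁻¹ * b ∈ S` by (0).  So `y ∈ S`.
(2) the handle `h = ((x, y), (p₁, q₁))`: move `p` to the front of `L`, conjugated, the others unchanged
(`SpQ.move_front`), `p' = ((c, d), (-1, 1))`, `c, d ∈ S` by (0).  Slide: `WStep.sl` for `h, p'` gives
`((y x⁻¹ y⁻¹ c, d), (-1 - p₁ + 1, 1))`; `WStep.rot` gives weights `(-1, -p₁)`, then
`SpQ.good_of_neg_one`; the group of the handle does not change, so by (0) `y x⁻¹ y⁻¹ c ∈ S`, so
`y x y⁻¹ ∈ S`.  The same for the rotated handle `((y⁻¹, y x y⁻¹), _)`: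
`(y x y⁻¹) y (y x y⁻¹)⁻¹ ∈ S`.  So `y ∈ S`, `x ∈ S`.
(3) `E (h :: L) ⊔ closure M = H` is invariant under `DMv`, so `H ≤ S` and `cyc R w H ≤ W₁`. -/
def St_Wcyc : Prop := ∀ (K U Γ : Type) [Field K] [AddCommGroup U] [Module K U] [Group Γ]
    [FiniteDimensional K U] (k : ℕ) (R : Γ →* Module.End K U) (w : U) (L₀ : List (Hd Γ k))
    (M₀ : List Γ), SpQ.E L₀ ⊔ Subgroup.closure {y | y ∈ M₀} = ⊤ →
    finrank K (cyc R w ⊤) + 1 ≤ L₀.length →
    ∃ (h : Hd Γ k) (L : List (Hd Γ k)) (M : List Γ), DMR (L₀, M₀) (h :: L, M) ∧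
      (∀ s ∈ L, Good s) ∧ cyc R w (SpQ.E L) = cyc R w ⊤

/-- **WMAIN**.  The theorem. -/
def St_Wmain : Prop := ∀ (g n k r : ℕ) (w : SurfaceGroup g → ZMod k) (ρ : F g n →* GL (Fin r) ℂ)
    (c : ℂ), 0 < k → IsSpinStructure k w →
    (ρ (x0 g n) : Matrix (Fin r) (Fin r) ℂ) ≠ c • 1 → (c = 0 ∨ Pool.Agent.HZ.Irr ρ.range) →
    4 * r * ((ρ (x0 g n) : Matrix (Fin r) (Fin r) ℂ) - c • 1).rank ≤ g + 1 →
    (∀ y : F g n, NS y → w (prj g n y) = 0 → Pool.Agent.HZ.Quasi (ρ y)) →
    {χ : F g n → ℂ | ∃ φ ∈ MC g n,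
      χ = fun y => (ρ (φ y) : Matrix (Fin r) (Fin r) ℂ).trace}.Finite

end Pool.Agent.LGP
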