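import Pool.Agent.LGP.WDefs

/-!
# Punctured surfaces with a spin structure: all handles but one generate the cyclic module

Helper63, for MP_0707f5_ag (offer 15789 of helper35).
-/

set_option autoImplicit false

namespace Pool.Agent.LGP

open Module
open SpQ (Hd WStep WReach Good bare)

section moves
variable {Γ : Type} [Group Γ] {k : ℕ}

private theorem dmr_of_reach {L L' : List (Hd Γ k)} (h : WReach L L') (M : List Γ) :
    DMR (L, M) (L', M) := by
  induction h with
  | refl => exact Relation.ReflTransGen.refl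
  | tail _ hs ih => exact Relation.ReflTransGen.tail ih (DMv.st _ _ _ hs)

/-- all entries of a tuple belong to a subgroup -/
private def Tin (H : Subgroup Γ) (t : List (Hd Γ k) × List Γ) : Prop :=
  SpQ.E t.1 ≤ H ∧ ∀ y ∈ t.2, y ∈ H

private theorem tin_of_dmv {H : Subgroup Γ} {t t' : List (Hd Γ k) × List Γ} (h : DMv t t')
    (ht : Tin H t') : Tin H t := by
  cases h with
  | st L L' M hs => exact ⟨hs.E_eq ▸ ht.1, ht.2⟩
  | ab L a b y o M =>
    obtain ⟨h1, h2⟩ := ht
    dsimp only at h1 h2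
    rw [SpQ.E_append] at h1
    have hL : SpQ.E L ≤ H := le_sup_left.trans h1
    obtain ⟨ha, hb'⟩ := SpQ.E_singleton_le.1 (le_sup_right.trans h1)
    dsimp only at ha hb'
    have hy' := h2 _ List.mem_cons_self
    have hD : a * (y⁻¹ * b) * a⁻¹ * (y⁻¹ * b)⁻¹ ∈ H :=
      H.mul_mem (H.mul_mem (H.mul_mem ha hb') (H.inv_mem ha)) (H.inv_mem hb')
    have hy : y ∈ H := by
      have h3 := H.mul_mem (H.mul_mem (H.inv_mem ha) (H.mul_mem (H.mul_mem hD hy')
        (H.inv_mem hD))) ha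
      exact mem_word (by group) h3
    have hb : b ∈ H := by
      have h3 := H.mul_mem hy hb'
      exact mem_word (by group) h3
    refine ⟨?_, ?_⟩
    · show SpQ.E (L ++ [((a, b), o)]) ≤ H
      rw [SpQ.E_append]
      exact sup_le hL (SpQ.E_singleton_le.2 ⟨ha, hb⟩)
    · intro z hz
      rcases List.mem_cons.1 hz with rfl | hz
      · exact hy
      · exact h2 _ (List.mem_cons_of_mem _ hz)
  | sw L P S y z =>
    obtain ⟨h1, h2⟩ := ht
    refine ⟨h1, ?_⟩
    dsimp only at h2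
    have hz : z ∈ H := h2 _ (by simp)
    have hy' : z⁻¹ * y * z ∈ H := h2 _ (by simp)
    have hy : y ∈ H := by
      have h3 := H.mul_mem (H.mul_mem hz hy') (H.inv_mem hz)
      exact mem_word (by group) h3
    intro u hu
    rcases List.mem_append.1 hu with hu | hu
    · exact h2 _ (List.mem_append_left _ hu)
    · rcases List.mem_cons.1 hu with rfl | hu
      · exact hy
      · rcases List.mem_cons.1 hu with rfl | hu
        · exact hz
        · exact h2 _ (by simp [hu])

private theorem tin_of_dmr {H : Subgroup Γ} {t t' : List (Hd Γ k) × List Γ} (h : DMR t t')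
    (ht : Tin H t') : Tin H t := by
  induction h with
  | refl => exact ht
  | tail _ hs ih => exact ih (tin_of_dmv hs ht)

/-- a handle moves to the right, conjugated; the others are unchanged -/
private theorem right (t : List (Hd Γ k)) : ∀ p : Hd Γ k, ∃ p' : Hd Γ k, p'.2 = p.2 ∧
    WReach (p :: t) (t ++ [p']) := by
  induction t with
  | nil => exact fun p => ⟨p, rfl, WReach.refl _⟩
  | cons z t ih =>
    rintro ⟨⟨a, b⟩, ⟨p, q⟩⟩
    obtain ⟨⟨c, d⟩, ⟨p', q'⟩⟩ := z
    have h1 := WReach.of_step (WStep.br' [] t a b c d p q p' q')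
    obtain ⟨r, hr, h2⟩ := ih (((c * d * c⁻¹ * d⁻¹)⁻¹ * a * (c * d * c⁻¹ * d⁻¹),
      (c * d * c⁻¹ * d⁻¹)⁻¹ * b * (c * d * c⁻¹ * d⁻¹)), (p, q))
    refine ⟨r, hr, ?_⟩
    have h3 := h2.left [((c, d), (p', q'))]
    simp only [List.nil_append, List.cons_append] at h1 h3 ⊢
    exact h1.trans h3

/-- a handle moves to the front, conjugated; the others are unchanged -/
private theorem front (s : List (Hd Γ k)) : ∀ p : Hd Γ k, ∃ p' : Hd Γ k, p'.2 = p.2 ∧
    WReach (s ++ [p]) (p' :: s) := by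
  induction s using List.reverseRecOn with
  | nil => exact fun p => ⟨p, rfl, WReach.refl _⟩
  | append_singleton s z ih =>
    rintro ⟨⟨c, d⟩, ⟨p', q'⟩⟩
    obtain ⟨⟨a, b⟩, ⟨p, q⟩⟩ := z
    have h1 := WReach.of_step (WStep.br s [] a b c d p q p' q')
    obtain ⟨r, hr, h2⟩ := ih ((a * b * a⁻¹ * b⁻¹ * c * (a * b * a⁻¹ * b⁻¹)⁻¹,
          a * b * a⁻¹ * b⁻¹ * d * (a * b * a⁻¹ * b⁻¹)⁻¹), (p', q'))
    refine ⟨r, hr, ?_⟩
    have h3 := h2.right [((a, b), (p, q))]
    simp only [List.append_assoc, List.nil_append, List.cons_append] at h1 h3 ⊢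
    exact h1.trans h3

/-- a puncture moves to the front unchanged -/
private theorem pfront (L : List (Hd Γ k)) (y : Γ) (P : List Γ) : ∀ S : List Γ, ∃ M : List Γ,
    DMR (L, P ++ y :: S) (L, y :: M) := by
  induction P using List.reverseRecOn with
  | nil => exact fun S => ⟨S, Relation.ReflTransGen.refl⟩
  | append_singleton P z ih =>
    intro S
    obtain ⟨M, hM⟩ := ih ((y⁻¹ * z * y) :: S)
    refine ⟨M, ?_⟩
    have h1 : DMR (L, P ++ z :: y :: S) (L, P ++ y :: (y⁻¹ * z * y) :: S) :=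
      Relation.ReflTransGen.single (DMv.sw L P S z y)
    have e : P ++ [z] ++ y :: S = P ++ z :: y :: S := by simp
    rw [e]
    exact Relation.ReflTransGen.trans h1 hM

/-- the slide: a good handle is replaced by a good handle whose group contains the given word -/
private theorem slide (x y : Γ) (p q : ZMod k) (c d : Γ) :
    ∃ h' g' : Hd Γ k, WReach [((x, y), (p, q)), ((c, d), (-1, 1))] [h', g'] ∧ Good g' ∧
      y * x⁻¹ * y⁻¹ * c ∈ SpQ.E [g'] := by
  have h1 := WReach.of_step (WStep.sl [] [] x y c d p q (-1) 1)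
  obtain ⟨y', hy'⟩ := SpQ.good_of_neg_one (k := k) d⁻¹ (d * (y * x⁻¹ * y⁻¹ * c) * d⁻¹)
    (-1 - p + 1)
  have h2 := WReach.of_step (WStep.rot [] [] (y * x⁻¹ * y⁻¹ * c) d (-1 - p + 1) (1 : ZMod k))
  simp only [List.nil_append] at h1 h2
  have h3 := h2.trans hy'
  refine ⟨_, ((d⁻¹, y'), (-1, 1)), h1.trans (h3.left [_]), rfl, ?_⟩
  rw [h3.E_eq]
  exact SpQ.fst_mem_E (h := ((y * x⁻¹ * y⁻¹ * c, d), (-1 - p + 1, 1))) (by simp)

end moves

private theorem En_bare {Γ : Type} [Group Γ] {k : ℕ} (L : List (Hd Γ k)) :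
    En (bare L) = SpQ.E L := by
  unfold En SpQ.E
  rw [SpQ.entries_bare]

private theorem split {Γ : Type} {k : ℕ} (L : List (Hd Γ k)) (s : List (Γ × Γ)) (p : Γ × Γ)
    (t : List (Γ × Γ)) (h : bare L = s ++ p :: t) : ∃ (s' : List (Hd Γ k)) (p' : Hd Γ k)
    (t' : List (Hd Γ k)), L = s' ++ p' :: t' ∧ bare s' = s ∧ bare t' = t := by
  unfold bare at h
  obtain ⟨s', u, rfl, h1, h2⟩ := List.map_eq_append_iff.1 h
  obtain ⟨p', t', rfl, _, h4⟩ := List.map_eq_cons_iff.1 h2
  exact ⟨s', p', t', rfl, h1, h4⟩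

theorem thm_Wcyc : St_Wcyc := by
  intro K U Γ _ _ _ _ _ k R w L₀ M₀ htop hlen
  classical
  -- the start
  obtain ⟨h₀, X, rfl⟩ : ∃ h₀ X, L₀ = h₀ :: X := by
    cases L₀ with
    | nil => simp at hlen
    | cons a b => exact ⟨a, b, rfl⟩
  obtain ⟨h₁, G₁, hr₁, hg₁⟩ := SpQ.exists_good h₀ X
  set P : Set ℕ := {n | ∃ (h : Hd Γ k) (L : List (Hd Γ k)) (M : List Γ),
    DMR (h₀ :: X, M₀) (h :: L, M) ∧ (∀ s ∈ L, Good s) ∧ L.length = X.length ∧
    finrank K (cyc R w (SpQ.E L)) = n} with hP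
  have hPne : P.Nonempty := by
    refine ⟨_, h₁, G₁, M₀, dmr_of_reach hr₁ M₀, hg₁, ?_, rfl⟩
    have := hr₁.length_eq
    simpa using this
  have hPbd : BddAbove P := by
    refine ⟨finrank K U, ?_⟩
    rintro n ⟨h, L, M, _, _, _, rfl⟩
    exact Submodule.finrank_le _
  obtain ⟨h, L, M, hreach, hgood, hLlen, hfin⟩ := Nat.sSup_mem hPne hPbd
  have hmax : ∀ (h' : Hd Γ k) (L' : List (Hd Γ k)) (M' : List Γ),
      DMR (h₀ :: X, M₀) (h' :: L', M') → (∀ s ∈ L', Good s) → L'.length = X.length →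
      finrank K (cyc R w (SpQ.E L')) ≤ finrank K (cyc R w (SpQ.E L)) := by
    intro h' L' M' h1 h2 h3
    rw [hfin]
    exact le_csSup hPbd ⟨h', L', M', h1, h2, h3, rfl⟩
  refine ⟨h, L, M, hreach, hgood, ?_⟩
  -- the zero vector
  by_cases hw : w = 0
  · have hz : ∀ H : Subgroup Γ, cyc R w H = ⊥ := by
      intro H
      rw [eq_bot_iff]
      unfold cyc
      rw [Submodule.span_le]
      rintro _ ⟨x, _, rfl⟩
      show R x w ∈ (⊥ : Submodule K U)
      rw [hw, map_zero]
      exact Submodule.zero_mem _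
    rw [hz, hz]
  set W₁ := cyc R w (SpQ.E L) with hW₁
  have hle : W₁ ≤ cyc R w ⊤ := cyc_mono R w le_top
  -- a handle which is not essential
  obtain ⟨s₀, p₀, t₀, hst, hcyc⟩ := exists_noness (K := K) (R := R) hw (bare L) (by
    rw [En_bare, SpQ.bare_length, hLlen, ← hW₁]
    have h1 := Submodule.finrank_mono hle
    rw [List.length_cons] at hlen
    omega)
  obtain ⟨s, p, t, rfl, rfl, rfl⟩ := split L s₀ p₀ t₀ hst
  rw [← SpQ.bare_append, En_bare, En_bare, ← hW₁] at hcyc
  have hs : ∀ z ∈ s, Good z := fun z hz => hgood z (List.mem_append_left _ hz)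
  have ht : ∀ z ∈ t, Good z := fun z hz =>
    hgood z (List.mem_append_right _ (List.mem_cons_of_mem _ hz))
  have hp : Good p := hgood p (by simp)
  rw [List.length_append, List.length_cons] at hLlen
  -- maximality
  have key : ∀ (h' : Hd Γ k) (L' : List (Hd Γ k)) (M' : List Γ),
      DMR (h :: (s ++ p :: t), M) (h' :: L', M') → (∀ z ∈ L', Good z) →
      L'.length = X.length → SpQ.E (s ++ t) ≤ SpQ.E L' → SpQ.E L' ≤ stb R W₁ := by
    intro h' L' M' h1 h2 h3 h4
    have h5 := hmax h' L' M' (Relation.ReflTransGen.trans hreach h1) h2 h3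
    have h6 : W₁ ≤ cyc R w (SpQ.E L') := by
      rw [← hcyc]
      exact cyc_mono R w h4
    have h7 : W₁ = cyc R w (SpQ.E L') := Submodule.eq_of_le_of_finrank_le h6 h5
    rw [h7]
    exact le_stb_cyc _
  set S := stb R W₁ with hS
  -- punctures
  have hpunct : ∀ y ∈ M, y ∈ S := by
    intro y hy
    obtain ⟨M₁, M₂, rfl⟩ := List.append_of_mem hy
    obtain ⟨M', hM'⟩ := pfront (h :: (s ++ p :: t)) y M₁ M₂
    obtain ⟨p', hp', hr⟩ := right t p
    have hr1 := hr.left (h :: s)
    rw [List.cons_append] at hr1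
    have hd1 : DMR (h :: (s ++ p :: t), M₁ ++ y :: M₂) (h :: (s ++ (t ++ [p'])), y :: M') :=
      Relation.ReflTransGen.trans hM' (dmr_of_reach hr1 _)
    obtain ⟨⟨a, b⟩, o⟩ := p'
    have hd2 := DMv.ab (h :: (s ++ t)) a b y o M'
    have e1 : ∀ q : Hd Γ k, h :: (s ++ t) ++ [q] = h :: (s ++ (t ++ [q])) := by
      intro q
      simp
    rw [e1, e1] at hd2
    have hd3 := Relation.ReflTransGen.tail hd1 hd2
    have hgo : ∀ q : Hd Γ k, q.2 = o → ∀ z ∈ s ++ (t ++ [q]), Good z := by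
      intro q hq z hz
      rcases List.mem_append.1 hz with hz | hz
      · exact hs z hz
      rcases List.mem_append.1 hz with hz | hz
      · exact ht z hz
      rw [List.mem_singleton] at hz
      subst hz
      show z.2 = (-1, 1)
      rw [hq]
      have h9 : o = p.2 := hp'
      rw [h9]
      exact hp
    have hlen' : ∀ q : Hd Γ k, (s ++ (t ++ [q])).length = X.length := by
      intro q
      simp only [List.length_append, List.length_cons, List.length_nil]
      omega
    have hEl : ∀ q : Hd Γ k, SpQ.E (s ++ t) ≤ SpQ.E (s ++ (t ++ [q])) := by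
      intro q
      rw [← List.append_assoc, SpQ.E_append (s ++ t)]
      exact le_sup_left
    have hk1 := key _ _ _ hd1 (hgo _ rfl) (hlen' _) (hEl _)
    have hk2 := key _ _ _ hd3 (hgo _ rfl) (hlen' _) (hEl _)
    have hb : b ∈ S := hk1 (SpQ.snd_mem_E (h := ((a, b), o)) (by simp))
    have hyb : y⁻¹ * b ∈ S := hk2 (SpQ.snd_mem_E (h := ((a, y⁻¹ * b), o)) (by simp))
    have h3 := S.mul_mem hb (S.inv_mem hyb)
    exact mem_word (by group) h3
  -- the first handle
  obtain ⟨p', hp', hr⟩ := front s p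
  have hpg : Good p' := by
    show p'.2 = (-1, 1)
    rw [hp']
    exact hp
  have hfr : ∀ h' : Hd Γ k, WReach [h] [h'] →
      WReach (h :: (s ++ p :: t)) (h' :: p' :: (s ++ t)) := by
    intro h' hh'
    have h1 := hh'.right (s ++ p :: t)
    have h2 := (hr.left [h']).right t
    simp only [List.append_assoc, List.nil_append, List.cons_append] at h1 h2 ⊢
    exact h1.trans h2
  have hgo : ∀ q : Hd Γ k, Good q → ∀ z ∈ q :: (s ++ t), Good z := by
    intro q hq z hz
    rcases List.mem_cons.1 hz with rfl | hz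
    · exact hq
    rcases List.mem_append.1 hz with hz | hz
    · exact hs z hz
    · exact ht z hz
  have hlen' : ∀ q : Hd Γ k, (q :: (s ++ t)).length = X.length := by
    intro q
    simp only [List.length_append, List.length_cons]
    omega
  have hEl : ∀ q : Hd Γ k, SpQ.E (s ++ t) ≤ SpQ.E (q :: (s ++ t)) := by
    intro q
    rw [SpQ.E_cons]
    exact le_sup_right
  have hword : ∀ (x y : Γ) (p₁ q₁ : ZMod k), WReach [h] [((x, y), (p₁, q₁))] →
      y * x⁻¹ * y⁻¹ ∈ S := by
    intro x y p₁ q₁ hh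
    have h1 := hfr _ hh
    have hk1 := key _ _ _ (dmr_of_reach h1 M) (hgo _ hpg) (hlen' _) (hEl _)
    obtain ⟨⟨c, d⟩, o⟩ := p'
    obtain rfl : o = (-1, 1) := hpg
    have hc : c ∈ S := hk1 (SpQ.fst_mem_E (h := ((c, d), (-1, 1))) (by simp))
    obtain ⟨h', g', hsl, hg', hmem⟩ := slide x y p₁ q₁ c d
    have h2 := hsl.right (s ++ t)
    simp only [List.nil_append, List.cons_append] at h2
    have hk2 := key _ _ _ (dmr_of_reach (h1.trans h2) M) (hgo _ hg') (hlen' _) (hEl _)
    have h3 : y * x⁻¹ * y⁻¹ * c ∈ S := by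
      apply hk2
      rw [SpQ.E_cons]
      exact (le_sup_left : SpQ.E [g'] ≤ _) hmem
    have h4 := S.mul_mem h3 (S.inv_mem hc)
    exact mem_word (by group) h4
  obtain ⟨⟨x, y⟩, ⟨p₁, q₁⟩⟩ := h
  have hx1 := hword x y p₁ q₁ (WReach.refl _)
  have hy1 := hword _ _ _ _ (WReach.of_step (WStep.rot [] [] x y p₁ q₁))
  have hyS : y ∈ S := by
    have h3 := S.mul_mem (S.mul_mem hx1 hy1) (S.inv_mem hx1)
    exact mem_word (by group) h3
  have hxS : x ∈ S := by
    have h3 := S.mul_mem (S.mul_mem (S.inv_mem hyS) (S.inv_mem hx1)) hyS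
    exact mem_word (by group) h3
  -- the group
  have hT : Tin S (((x, y), (p₁, q₁)) :: (s ++ p :: t), M) := by
    refine ⟨?_, hpunct⟩
    show SpQ.E (((x, y), (p₁, q₁)) :: (s ++ p :: t)) ≤ S
    rw [SpQ.E_cons]
    exact sup_le (SpQ.E_singleton_le.2 ⟨hxS, hyS⟩) (le_stb_cyc _)
  have hT0 := tin_of_dmr hreach hT
  have htopS : (⊤ : Subgroup Γ) ≤ S := by
    rw [← htop]
    exact sup_le hT0.1 ((Subgroup.closure_le _).2 hT0.2)
  exact le_antisymm hle (cyc_le (self_mem_cyc R w _) htopS)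

end Pool.Agent.LGP
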