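import Pool.Agent.LGP.WMain
import Pool.Agent.LGP.Wbr
import Pool.Agent.LGP.Wcyc
import Pool.Agent.LGP.Dsc

/-!
# Punctured surfaces of large genus with a spin structure: the theorem

Helper35, for MP_0707f5_ag.
-/

set_option autoImplicit false

namespace Pool.Agent.LGP

open Matrix Module Helper12.Sc
open SpQ (IsSpinStructure IsOrientationPreserving)

theorem thm_Wbr' : St_Wbr := thm_Wbr thm_Dsc thm_Aut (thm_Psh thm_Aut)

theorem thm_Wmain : St_Wmain := wmain thm_Wbr' thm_Wcyc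

/-- finitely many traces suffice -/
theorem wmain_fin (g n k r : ℕ) (w : SurfaceGroup g → ZMod k)
    (ρ : F g n →* GL (Fin r) ℂ) (c : ℂ) (hk : 0 < k) (hw : IsSpinStructure k w)
    (hne : (ρ (x0 g n) : Matrix (Fin r) (Fin r) ℂ) ≠ c • 1)
    (hc : c = 0 ∨ Pool.Agent.HZ.Irr ρ.range)
    (hg : 4 * r * ((ρ (x0 g n) : Matrix (Fin r) (Fin r) ℂ) - c • 1).rank ≤ g + 1)
    (hT : (∀ y : F g n, NS y → w (prj g n y) = 0 → Pool.Agent.HZ.Quasi (ρ y)) ∨
      {z : ℂ | ∃ y : F g n, (NS y ∧ w (prj g n y) = 0) ∧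
        z = (ρ y : Matrix (Fin r) (Fin r) ℂ).trace}.Finite) :
    {χ : F g n → ℂ | ∃ φ ∈ MC g n,
      χ = fun y => (ρ (φ y) : Matrix (Fin r) (Fin r) ℂ).trace}.Finite := by
  rcases hT with hT | hT
  · exact thm_Wmain g n k r w ρ c hk hw hne hc hg hT
  · exact wmain_tr thm_Wbr' thm_Wcyc g n k r w ρ c hk hw hne hc hg hT

end Pool.Agent.LGP
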